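import Pool.Agent.Lib_helper21.CoeffTruncProof

/-!
# Orthogonality and Parseval on the circle, elementary `L_p` inequalities
-/

open MeasureTheory Real Finset
open Pool.Agent.Lib_helper21.CoeffTrunc

namespace Pool.Agent.CTR6

/-- The point `exp(iθ)` of the unit circle. -/
noncomputable def u (θ : ℝ) : ℂ := Complex.exp (θ * Complex.I)

theorem norm_u (θ : ℝ) : ‖u θ‖ = 1 := Complex.norm_exp_ofReal_mul_I θ

theorem u_ne_zero (θ : ℝ) : u θ ≠ 0 := Complex.exp_ne_zero _

theorem u_add (a b : ℝ) : u (a + b) = u a * u b := by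
  unfold u
  rw [← Complex.exp_add]
  congr 1
  push_cast
  ring

theorem u_zero : u 0 = 1 := by
  unfold u
  simp

theorem u_natMul (n : ℕ) (θ : ℝ) : u (n * θ) = u θ ^ n := by
  unfold u
  rw [← Complex.exp_nat_mul]
  congr 1
  push_cast
  ring

theorem u_period (θ : ℝ) : u (θ + 2 * π) = u θ := by
  unfold u
  exact exp_periodic_aux θ

theorem u_int (θ : ℝ) (z : ℤ) : u (θ + 2 * π * z) = u θ := by
  unfold u
  have : (((θ + 2 * π * z : ℝ) : ℂ) * Complex.I) = θ * Complex.I + z * (2 * π * Complex.I) := by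
    push_cast; ring
  rw [this]
  exact Complex.exp_periodic.int_mul z _

theorem conj_u (θ : ℝ) : (starRingEnd ℂ) (u θ) = u (-θ) := by
  unfold u
  rw [← Complex.exp_conj]
  congr 1
  simp

theorem u_cont : Continuous u := by
  unfold u
  fun_prop

theorem u_mul_conj_pow (θ : ℝ) (j k : ℕ) :
    u θ ^ j * (starRingEnd ℂ) (u θ ^ k) = Complex.exp ((((j:ℤ) - k : ℤ) : ℂ) * Complex.I * θ) := by
  rw [map_pow, conj_u]
  unfold u
  rw [← Complex.exp_nat_mul, ← Complex.exp_nat_mul, ← Complex.exp_add]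
  congr 1
  push_cast
  ring

theorem orth (j k : ℕ) : (∫ θ in (0:ℝ)..(2 * π), u θ ^ j * (starRingEnd ℂ) (u θ ^ k)) =
    if j = k then (2 * π : ℂ) else 0 := by
  simp_rw [u_mul_conj_pow]
  split_ifs with h
  · subst h
    simp
  · have hc : ((((j:ℤ) - k : ℤ) : ℂ) * Complex.I) ≠ 0 := by
      apply mul_ne_zero _ Complex.I_ne_zero
      rw [Int.cast_ne_zero]
      omega
    rw [integral_exp_mul_complex hc]
    have e1 : Complex.exp ((((j:ℤ) - k : ℤ) : ℂ) * Complex.I * ((2 * π : ℝ) : ℂ)) = 1 := by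
      have : ((((j:ℤ) - k : ℤ) : ℂ) * Complex.I * ((2 * π : ℝ) : ℂ)) =
          ((((j:ℤ) - k : ℤ) : ℂ)) * (2 * π * Complex.I) := by push_cast; ring
      rw [this]
      exact Complex.exp_int_mul_two_pi_mul_I _
    rw [e1]
    simp

/-- Inner product formula. -/
theorem inner_formula (N : ℕ) (a b : ℕ → ℂ) :
    (∫ θ in (0:ℝ)..(2 * π), (∑ j ∈ range N, a j * u θ ^ j) *
      (starRingEnd ℂ) (∑ k ∈ range N, b k * u θ ^ k)) =
    2 * π * ∑ j ∈ range N, a j * (starRingEnd ℂ) (b j) := by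
  have h1 : ∀ θ : ℝ, (∑ j ∈ range N, a j * u θ ^ j) *
      (starRingEnd ℂ) (∑ k ∈ range N, b k * u θ ^ k) =
      ∑ j ∈ range N, ∑ k ∈ range N, (a j * (starRingEnd ℂ) (b k)) *
        (u θ ^ j * (starRingEnd ℂ) (u θ ^ k)) := by
    intro θ
    rw [map_sum, Finset.sum_mul_sum]
    refine Finset.sum_congr rfl fun j _ => Finset.sum_congr rfl fun k _ => ?_
    rw [map_mul]
    ring
  simp_rw [h1]
  have hc : ∀ j k : ℕ, Continuous fun θ : ℝ => (a j * (starRingEnd ℂ) (b k)) *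
        (u θ ^ j * (starRingEnd ℂ) (u θ ^ k)) := by
    intro j k
    have := u_cont
    fun_prop
  rw [intervalIntegral.integral_finsetSum]
  · rw [Finset.mul_sum]
    refine Finset.sum_congr rfl fun j hj => ?_
    rw [intervalIntegral.integral_finsetSum]
    · simp_rw [intervalIntegral.integral_const_mul, orth]
      rw [Finset.sum_eq_single j]
      · rw [if_pos rfl]; ring
      · intro k _ hk
        rw [if_neg (Ne.symm hk), mul_zero]
      · intro h; exact absurd hj h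
    · intro k _
      exact (hc j k).intervalIntegrable _ _
  · intro j _
    apply Continuous.intervalIntegrable
    exact continuous_finsetSum _ fun k _ => hc j k

/-- Parseval. -/
theorem parseval (N : ℕ) (a : ℕ → ℂ) :
    (∫ θ in (0:ℝ)..(2 * π), ‖∑ j ∈ range N, a j * u θ ^ j‖ ^ 2) =
    2 * π * ∑ j ∈ range N, ‖a j‖ ^ 2 := by
  have h := inner_formula N a a
  have h1 : ∀ θ : ℝ, (∑ j ∈ range N, a j * u θ ^ j) *
      (starRingEnd ℂ) (∑ k ∈ range N, a k * u θ ^ k) =
      ((‖∑ j ∈ range N, a j * u θ ^ j‖ ^ 2 : ℝ) : ℂ) := by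
    intro θ
    rw [Complex.mul_conj, Complex.normSq_eq_norm_sq]
  simp_rw [h1] at h
  rw [intervalIntegral.integral_ofReal] at h
  have h2 : ∀ j, a j * (starRingEnd ℂ) (a j) = ((‖a j‖ ^ 2 : ℝ) : ℂ) := by
    intro j
    rw [Complex.mul_conj, Complex.normSq_eq_norm_sq]
  simp_rw [h2] at h
  exact_mod_cast h

theorem eval_u (N : ℕ) (P : Polynomial ℂ) (hP : P.natDegree < N) (θ : ℝ) :
    P.eval (Complex.exp (θ * Complex.I)) = ∑ j ∈ range N, P.coeff j * u θ ^ j := by
  rw [Polynomial.eval_eq_sum_range' hP]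
  rfl

theorem parseval_poly (N : ℕ) (P : Polynomial ℂ) (hP : P.natDegree < N) :
    (∫ θ in (0:ℝ)..(2 * π), ‖P.eval (Complex.exp (θ * Complex.I))‖ ^ 2) =
    2 * π * ∑ j ∈ range N, ‖P.coeff j‖ ^ 2 := by
  simp_rw [eval_u N P hP]
  exact parseval N _

end Pool.Agent.CTR6
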