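import Pool.Agent.CTR6.Upper

/-!
# The kernel `V` and the norm of the polynomial `P`
-/

open MeasureTheory Real Finset
open Pool.Agent.Lib_helper21.CoeffTrunc

namespace Pool.Agent.CTR6

/-- The Dirichlet polynomial `1 + X + ... + X^{m-1}`. -/
noncomputable def Dr (m : ℕ) : Polynomial ℝ := ∑ i ∈ range m, Polynomial.X ^ i

/-- The kernel `D_M (D_s/s)^k`. -/
noncomputable def V (M s k : ℕ) : Polynomial ℝ := Dr M * (Polynomial.C (1 / (s:ℝ)) * Dr s) ^ k

theorem Dr_coeff (m j : ℕ) : (Dr m).coeff j = if j < m then 1 else 0 := by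
  unfold Dr
  rw [Polynomial.finsetSum_coeff]
  simp_rw [Polynomial.coeff_X_pow]
  rw [Finset.sum_ite_eq (range m) j fun _ => (1:ℝ)]
  simp

theorem V_succ_coeff (M s k j : ℕ) : (V M s (k + 1)).coeff j =
    (1 / (s:ℝ)) * ∑ i ∈ range s, if i ≤ j then (V M s k).coeff (j - i) else 0 := by
  have e : V M s (k + 1) = Polynomial.C (1 / (s:ℝ)) * (V M s k * Dr s) := by
    unfold V
    ring
  rw [e, Polynomial.coeff_C_mul]
  congr 1
  unfold Dr
  rw [Finset.mul_sum, Polynomial.finsetSum_coeff]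
  refine Finset.sum_congr rfl fun i _ => ?_
  rw [Polynomial.coeff_mul_X_pow']

theorem V_coeff_mem (M : ℕ) {s : ℕ} (hs : 1 ≤ s) (k j : ℕ) :
    0 ≤ (V M s k).coeff j ∧ (V M s k).coeff j ≤ 1 := by
  induction k generalizing j with
  | zero =>
    have : V M s 0 = Dr M := by unfold V; ring
    rw [this, Dr_coeff]
    split_ifs <;> norm_num
  | succ k ih =>
    have hs0 : (0:ℝ) < s := by exact_mod_cast hs
    rw [V_succ_coeff]
    constructor
    · apply mul_nonneg (by positivity)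
      apply Finset.sum_nonneg
      intro i _
      split_ifs
      · exact (ih _).1
      · exact le_refl _
    · have h1 : ∑ i ∈ range s, (if i ≤ j then (V M s k).coeff (j - i) else 0) ≤ s := by
        have := Finset.sum_le_card_nsmul (range s)
          (fun i => if i ≤ j then (V M s k).coeff (j - i) else 0) 1 (by
            intro i _
            split_ifs
            · exact (ih _).2
            · norm_num)
        simpa using this
      calc 1 / (s:ℝ) * ∑ i ∈ range s, (if i ≤ j then (V M s k).coeff (j - i) else 0)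
          ≤ 1 / (s:ℝ) * s := mul_le_mul_of_nonneg_left h1 (by positivity)
        _ = 1 := by field_simp

theorem V_coeff_one (M : ℕ) {s : ℕ} (hs : 1 ≤ s) (k j : ℕ) (h1 : k * s ≤ j + k) (h2 : j < M) :
    (V M s k).coeff j = 1 := by
  induction k generalizing j with
  | zero =>
    have : V M s 0 = Dr M := by unfold V; ring
    rw [this, Dr_coeff, if_pos h2]
  | succ k ih =>
    have hs0 : (s:ℝ) ≠ 0 := by exact_mod_cast (by omega : s ≠ 0)
    rw [V_succ_coeff]
    have h3 : (k + 1) * s = k * s + s := by ring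
    have h4 : ∀ i ∈ range s, (if i ≤ j then (V M s k).coeff (j - i) else 0) = 1 := by
      intro i hi
      rw [Finset.mem_range] at hi
      have hk : k ≤ k * s := Nat.le_mul_of_pos_right k hs
      rw [if_pos (by omega)]
      apply ih
      · omega
      · omega
    rw [Finset.sum_congr rfl h4]
    simp only [sum_const, card_range, nsmul_eq_mul, mul_one]
    field_simp

theorem Dr_natDegree (m : ℕ) : (Dr m).natDegree ≤ m - 1 := by
  rw [Polynomial.natDegree_le_iff_coeff_eq_zero]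
  intro N hN
  rw [Dr_coeff, if_neg (by omega)]

theorem V_natDegree {M s : ℕ} (hM : 1 ≤ M) (hs : 1 ≤ s) (k : ℕ) :
    (V M s k).natDegree < M + k * s := by
  have h1 : (V M s k).natDegree ≤ (Dr M).natDegree + k * (Dr s).natDegree := by
    unfold V
    refine Polynomial.natDegree_mul_le.trans (add_le_add le_rfl ?_)
    refine Polynomial.natDegree_pow_le.trans (Nat.mul_le_mul_left _ ?_)
    exact Polynomial.natDegree_C_mul_le _ _
  have h2 := Dr_natDegree M
  have h3 := Dr_natDegree s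
  have h4 : k * (Dr s).natDegree ≤ k * s := Nat.mul_le_mul_left _ (by omega)
  omega

/-- complex version of the kernel -/
noncomputable def Vc (M s k : ℕ) : Polynomial ℂ := (V M s k).map (algebraMap ℝ ℂ)

theorem Dr_eval_norm (m : ℕ) (θ : ℝ) :
    ‖((Dr m).map (algebraMap ℝ ℂ)).eval (Complex.exp (θ * Complex.I))‖ ≤ m := by
  unfold Dr
  rw [Polynomial.map_sum, Polynomial.eval_finsetSum]
  refine (norm_sum_le _ _).trans ?_
  have : ∀ i ∈ range m, ‖(Polynomial.map (algebraMap ℝ ℂ) (Polynomial.X ^ i)).eval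
      (Complex.exp (θ * Complex.I))‖ = 1 := by
    intro i _
    rw [Polynomial.map_pow, Polynomial.map_X, Polynomial.eval_pow, Polynomial.eval_X, norm_pow,
      Complex.norm_exp_ofReal_mul_I, one_pow]
  rw [Finset.sum_congr rfl this]
  simp

theorem M2_Dr {s : ℕ} (hs : 1 ≤ s) : M2 ((Dr s).map (algebraMap ℝ ℂ)) = 2 * π * s := by
  have h : ((Dr s).map (algebraMap ℝ ℂ)).natDegree < s := by
    have h1 := Dr_natDegree s
    have h2 : ((Dr s).map (algebraMap ℝ ℂ)).natDegree ≤ (Dr s).natDegree :=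
      Polynomial.natDegree_map_le
    omega
  rw [M2_eq h]
  congr 1
  have : ∀ j ∈ range s, ‖((Dr s).map (algebraMap ℝ ℂ)).coeff j‖ ^ 2 = 1 := by
    intro j hj
    rw [Finset.mem_range] at hj
    rw [Polynomial.coeff_map, Dr_coeff, if_pos hj]
    simp
  rw [Finset.sum_congr rfl this]
  simp

/-- The `p`-norm of the kernel. -/
theorem Jc_V_le {p : ℝ} (hp : 0 < p) {M s k : ℕ} (hs : 1 ≤ s) (hk : 2 ≤ k * p) :
    Jc p (Vc M s k) ≤ (M:ℝ) ^ p * (2 * π / s) := by
  have hpi : (0:ℝ) < 2 * π := by positivity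
  have hs0 : (0:ℝ) < s := by exact_mod_cast hs
  have hpt : ∀ θ : ℝ, ‖(Vc M s k).eval (Complex.exp (θ * Complex.I))‖ ^ p ≤
      (M:ℝ) ^ p * (‖((Dr s).map (algebraMap ℝ ℂ)).eval (Complex.exp (θ * Complex.I))‖ ^ 2 / s ^ 2) := by
    intro θ
    have e : ‖(Vc M s k).eval (Complex.exp (θ * Complex.I))‖ =
        ‖((Dr M).map (algebraMap ℝ ℂ)).eval (Complex.exp (θ * Complex.I))‖ *
        (‖((Dr s).map (algebraMap ℝ ℂ)).eval (Complex.exp (θ * Complex.I))‖ / s) ^ k := by
      unfold Vc V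
      rw [Polynomial.map_mul, Polynomial.map_pow, Polynomial.map_mul, Polynomial.map_C,
        Polynomial.eval_mul, Polynomial.eval_pow, Polynomial.eval_mul, Polynomial.eval_C,
        norm_mul, norm_pow, norm_mul]
      congr 2
      have : ‖(algebraMap ℝ ℂ) (1 / (s:ℝ))‖ = 1 / s := by
        change ‖((1 / (s:ℝ) : ℝ) : ℂ)‖ = 1 / s
        rw [Complex.norm_real, Real.norm_eq_abs, abs_of_nonneg (by positivity)]
      rw [this]
      ring
    set y := ‖((Dr s).map (algebraMap ℝ ℂ)).eval (Complex.exp (θ * Complex.I))‖ with hy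
    have hy0 : 0 ≤ y := norm_nonneg _
    have hys : y / s ≤ 1 := by
      rw [div_le_one hs0]
      exact Dr_eval_norm s θ
    have hys0 : 0 ≤ y / s := by positivity
    rw [e, Real.mul_rpow (norm_nonneg _) (by positivity)]
    apply mul_le_mul
    · exact Real.rpow_le_rpow (norm_nonneg _) (Dr_eval_norm M θ) hp.le
    · rw [← div_pow, ← Real.rpow_natCast, ← Real.rpow_mul hys0, ← Real.rpow_natCast]
      exact Real.rpow_le_rpow_of_exponent_ge' hys0 hys (by norm_num) (by exact_mod_cast hk)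
    · positivity
    · positivity
  have h1 : Jc p (Vc M s k) ≤ ∫ θ in (0:ℝ)..(2 * π), (M:ℝ) ^ p *
      (‖((Dr s).map (algebraMap ℝ ℂ)).eval (Complex.exp (θ * Complex.I))‖ ^ 2 / s ^ 2) := by
    unfold Jc
    apply intervalIntegral.integral_mono_on hpi.le
    · exact (evc_pow_cont hp _).intervalIntegrable _ _
    · apply Continuous.intervalIntegrable
      have := evc_sq_cont ((Dr s).map (algebraMap ℝ ℂ))
      fun_prop
    · intro θ _
      exact hpt θ
  rw [intervalIntegral.integral_const_mul, intervalIntegral.integral_div] at h1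
  have h2 := M2_Dr hs
  unfold M2 at h2
  rw [h2] at h1
  refine h1.trans (le_of_eq ?_)
  congr 1
  field_simp

/-! ### Periodic weights -/

theorem u_eq_one_iff (x : ℝ) : u x = 1 ↔ ∃ n : ℤ, x = 2 * π * n := by
  unfold u
  rw [Complex.exp_eq_one_iff]
  constructor
  · rintro ⟨n, hn⟩
    refine ⟨n, ?_⟩
    have h1 : (x : ℂ) * Complex.I = ((2 * π * n : ℝ) : ℂ) * Complex.I := by
      rw [hn]; push_cast; ring
    have h2 := mul_right_cancel₀ Complex.I_ne_zero h1
    exact_mod_cast h2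
  · rintro ⟨n, hn⟩
    refine ⟨n, ?_⟩
    rw [hn]
    push_cast
    ring

theorem orth_mod {q : ℕ} (hq : 0 < q) (j t : ℕ) :
    ∑ r ∈ range q, u (2 * π * (((j:ℝ) - t) / q)) ^ r = if j % q = t % q then (q:ℂ) else 0 := by
  have hq0 : (q:ℝ) ≠ 0 := by exact_mod_cast hq.ne'
  have key : u (2 * π * (((j:ℝ) - t) / q)) = 1 ↔ j % q = t % q := by
    rw [u_eq_one_iff]
    have hpi : (2 * π : ℝ) ≠ 0 := by positivity
    constructor
    · rintro ⟨n, hn⟩
      have h1 := mul_left_cancel₀ hpi hn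
      rw [div_eq_iff hq0] at h1
      have h2 : ((j:ℤ) - t) = n * q := by exact_mod_cast h1
      have h3 : (j:ℤ) ≡ t [ZMOD q] := by
        rw [Int.modEq_iff_dvd]
        exact ⟨-n, by linarith⟩
      have h4 := (Int.natCast_modEq_iff.1 h3)
      exact h4
    · intro h
      have h3 : (j:ℤ) ≡ t [ZMOD q] := Int.natCast_modEq_iff.2 h
      rw [Int.modEq_iff_dvd] at h3
      obtain ⟨n, hn⟩ := h3
      refine ⟨-n, ?_⟩
      congr 1
      rw [div_eq_iff hq0]
      have h5 : ((j:ℤ) - t) = -n * q := by linarith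
      exact_mod_cast h5
  split_ifs with h
  · rw [key.2 h]
    simp
  · have hne : u (2 * π * (((j:ℝ) - t) / q)) ≠ 1 := fun h0 => h (key.1 h0)
    rw [geom_sum_eq hne, ← u_natMul]
    have : u ((q:ℝ) * (2 * π * (((j:ℝ) - t) / q))) = 1 := by
      rw [u_eq_one_iff]
      refine ⟨(j:ℤ) - t, ?_⟩
      push_cast
      field_simp
    rw [this, sub_self, zero_div]

theorem periodic_mod {q : ℕ} {f : ℕ → ℝ} (hf : ∀ j, f (j + q) = f j) (j : ℕ) :
    f (j % q) = f j := by
  have h1 : ∀ k j, f (j + k * q) = f j := by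
    intro k
    induction k with
    | zero => intro j; simp
    | succ k ih =>
      intro j
      have : j + (k + 1) * q = (j + k * q) + q := by ring
      rw [this, hf, ih]
  conv_rhs => rw [← Nat.mod_add_div j q]
  rw [mul_comm q, h1]

/-- The Fourier coefficients of a function with period `q`. -/
noncomputable def fc (q : ℕ) (f : ℕ → ℝ) (r : ℕ) : ℂ :=
  (1 / (q:ℂ)) * ∑ t ∈ range q, (f t : ℂ) * u (-(2 * π * (r * t / q)))

theorem fc_inversion {q : ℕ} (hq : 0 < q) {f : ℕ → ℝ} (hf : ∀ j, f (j + q) = f j) (j : ℕ) :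
    (f j : ℂ) = ∑ r ∈ range q, fc q f r * u (2 * π * (r / q)) ^ j := by
  unfold fc
  have hq0 : (q:ℂ) ≠ 0 := by exact_mod_cast hq.ne'
  have h1 : ∀ r ∈ range q, (1 / (q:ℂ)) * (∑ t ∈ range q, (f t : ℂ) * u (-(2 * π * (r * t / q)))) *
      u (2 * π * (r / q)) ^ j = ∑ t ∈ range q, (1 / (q:ℂ)) * (f t : ℂ) *
        u (2 * π * (((j:ℝ) - t) / q)) ^ r := by
    intro r _
    rw [mul_assoc, Finset.sum_mul, Finset.mul_sum]
    refine Finset.sum_congr rfl fun t _ => ?_
    rw [← u_natMul, ← u_natMul, mul_assoc ((f t : ℂ)), ← u_add, mul_assoc (1 / (q:ℂ))]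
    congr 3
    ring
  rw [Finset.sum_congr rfl h1, Finset.sum_comm]
  simp_rw [← Finset.mul_sum, orth_mod hq]
  rw [Finset.sum_eq_single (j % q)]
  · rw [Nat.mod_mod, if_pos rfl, periodic_mod hf]
    field_simp
  · intro t ht hne
    rw [Finset.mem_range] at ht
    rw [Nat.mod_eq_of_lt ht, if_neg (Ne.symm hne), mul_zero]
  · intro h
    exact absurd (Finset.mem_range.2 (Nat.mod_lt _ hq)) h

theorem fc_norm {q : ℕ} (hq : 0 < q) {f : ℕ → ℝ} (hf : ∀ j, |f j| ≤ 1) (r : ℕ) :
    ‖fc q f r‖ ≤ 1 := by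
  unfold fc
  have hq0 : (0:ℝ) < q := by exact_mod_cast hq
  rw [norm_mul, norm_div, norm_one, Complex.norm_natCast]
  have h1 : ‖∑ t ∈ range q, (f t : ℂ) * u (-(2 * π * (r * t / q)))‖ ≤ q := by
    refine (norm_sum_le _ _).trans ?_
    have := Finset.sum_le_card_nsmul (range q)
      (fun t : ℕ => ‖(f t : ℂ) * u (-(2 * π * (r * t / q)))‖) 1 (by
        intro t _
        rw [norm_mul, norm_u, mul_one, Complex.norm_real]
        exact hf t)
    simpa using this
  calc 1 / (q:ℝ) * ‖∑ t ∈ range q, (f t : ℂ) * u (-(2 * π * (r * t / q)))‖ ≤ 1 / (q:ℝ) * q :=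
        mul_le_mul_of_nonneg_left h1 (by positivity)
    _ = 1 := by field_simp

/-- Pointwise bound for a periodically weighted polynomial. -/
theorem weighted_bound {q : ℕ} (hq : 0 < q) {f : ℕ → ℝ} (hf : ∀ j, f (j + q) = f j)
    (hf1 : ∀ j, |f j| ≤ 1) (N : ℕ) (κ : ℕ → ℂ) (θ : ℝ) :
    ‖∑ j ∈ range N, (κ j * (f j : ℂ)) * u θ ^ j‖ ≤
      ∑ r ∈ range q, ‖∑ j ∈ range N, κ j * u (θ + 2 * π * (r / q)) ^ j‖ := by
  have e : ∑ j ∈ range N, (κ j * (f j : ℂ)) * u θ ^ j =
      ∑ r ∈ range q, fc q f r * ∑ j ∈ range N, κ j * u (θ + 2 * π * (r / q)) ^ j := by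
    have h1 : ∀ j ∈ range N, (κ j * (f j : ℂ)) * u θ ^ j = ∑ r ∈ range q,
        fc q f r * (κ j * u (θ + 2 * π * (r / q)) ^ j) := by
      intro j _
      rw [fc_inversion hq hf j, Finset.mul_sum, Finset.sum_mul]
      refine Finset.sum_congr rfl fun r _ => ?_
      rw [u_add, mul_pow]
      ring
    rw [Finset.sum_congr rfl h1, Finset.sum_comm]
    refine Finset.sum_congr rfl fun r _ => ?_
    rw [Finset.mul_sum]
  rw [e]
  refine (norm_sum_le _ _).trans (Finset.sum_le_sum fun r _ => ?_)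
  rw [norm_mul]
  calc ‖fc q f r‖ * ‖∑ j ∈ range N, κ j * u (θ + 2 * π * (r / q)) ^ j‖
      ≤ 1 * ‖∑ j ∈ range N, κ j * u (θ + 2 * π * (r / q)) ^ j‖ :=
        mul_le_mul_of_nonneg_right (fc_norm hq hf1 r) (norm_nonneg _)
    _ = _ := one_mul _

theorem finset_rpow_le {ι : Type*} {p : ℝ} (hp : 0 < p) (A : Finset ι) {a : ι → ℝ}
    (ha : ∀ i, 0 ≤ a i) :
    (∑ i ∈ A, a i) ^ p ≤ (A.card : ℝ) ^ p * ∑ i ∈ A, a i ^ p := by
  rcases A.eq_empty_or_nonempty with rfl | hne
  · simp [Real.zero_rpow hp.ne']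
  obtain ⟨i0, hi0, hmax⟩ := Finset.exists_max_image A a hne
  have h1 : ∑ i ∈ A, a i ≤ A.card * a i0 := by
    have := Finset.sum_le_card_nsmul A a (a i0) hmax
    simpa using this
  have h2 : a i0 ^ p ≤ ∑ i ∈ A, a i ^ p :=
    Finset.single_le_sum (f := fun i => a i ^ p) (fun i _ => Real.rpow_nonneg (ha i) _) hi0
  calc (∑ i ∈ A, a i) ^ p ≤ (A.card * a i0) ^ p :=
        Real.rpow_le_rpow (Finset.sum_nonneg fun i _ => ha i) h1 hp.le
    _ = (A.card : ℝ) ^ p * a i0 ^ p := Real.mul_rpow (Nat.cast_nonneg _) (ha i0)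
    _ ≤ _ := mul_le_mul_of_nonneg_left h2 (by positivity)

theorem shift_integral {p : ℝ} (Q : Polynomial ℂ) (c : ℝ) :
    (∫ θ in (0:ℝ)..(2 * π), ‖Q.eval (u (θ + c))‖ ^ p) = Jc p Q := by
  unfold Jc
  have e1 : (∫ θ in (0:ℝ)..(2 * π), ‖Q.eval (u (θ + c))‖ ^ p) =
      ∫ θ in (0:ℝ)..(2 * π), (fun x => ‖Q.eval (u x)‖ ^ p) (θ + c) := rfl
  rw [e1, intervalIntegral.integral_comp_add_right (fun x => ‖Q.eval (u x)‖ ^ p)]
  have hper : Function.Periodic (fun x => ‖Q.eval (u x)‖ ^ p) (2 * π) := by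
    intro x
    simp only
    rw [u_period]
  have := hper.intervalIntegral_add_eq c 0
  rw [zero_add] at this
  rw [zero_add, add_comm (2 * π)]
  exact this

/-- The norm of the polynomial with coefficients `κ_j ∑_i f_i(j)`. -/
theorem Jc_P_le {p : ℝ} (hp : 0 < p) (W P : Polynomial ℂ) {N : ℕ} (hW : W.natDegree < N)
    (hP : P.natDegree < N) (S : Finset ℕ) (q : ℕ → ℕ) (f : ℕ → ℕ → ℝ) {Q : ℕ}
    (hS : S.card ≤ Q) (hq : ∀ i ∈ S, 0 < q i ∧ q i ≤ Q)
    (hf : ∀ i ∈ S, ∀ j, f i (j + q i) = f i j) (hf1 : ∀ i j, |f i j| ≤ 1)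
    (hPW : ∀ j, P.coeff j = W.coeff j * ((∑ i ∈ S, f i j : ℝ) : ℂ)) :
    Jc p P ≤ ((Q:ℝ) ^ 2) ^ p * ((Q:ℝ) ^ 2 * Jc p W) := by
  have hpi : (0:ℝ) < 2 * π := by positivity
  set A : Finset (Σ _ : ℕ, ℕ) := S.sigma fun i => range (q i) with hA
  have hcard : A.card ≤ Q ^ 2 := by
    rw [hA, Finset.card_sigma]
    have : ∑ i ∈ S, (range (q i)).card ≤ S.card * Q := by
      apply Finset.sum_le_card_nsmul
      intro i hi
      rw [Finset.card_range]
      exact (hq i hi).2
    calc ∑ i ∈ S, (range (q i)).card ≤ S.card * Q := this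
      _ ≤ Q * Q := Nat.mul_le_mul_right _ hS
      _ = Q ^ 2 := by ring
  have hpt : ∀ θ : ℝ, ‖P.eval (Complex.exp (θ * Complex.I))‖ ^ p ≤
      ((Q:ℝ) ^ 2) ^ p * ∑ x ∈ A, ‖W.eval (u (θ + 2 * π * ((x.2:ℝ) / q x.1)))‖ ^ p := by
    intro θ
    have h1 : ‖P.eval (Complex.exp (θ * Complex.I))‖ ≤
        ∑ x ∈ A, ‖W.eval (u (θ + 2 * π * ((x.2:ℝ) / q x.1)))‖ := by
      rw [hA, Finset.sum_sigma, eval_u N P hP]
      have e1 : ∑ j ∈ range N, P.coeff j * u θ ^ j =
          ∑ i ∈ S, ∑ j ∈ range N, (W.coeff j * (f i j : ℂ)) * u θ ^ j := by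
        rw [Finset.sum_comm]
        refine Finset.sum_congr rfl fun j _ => ?_
        rw [hPW, ← Finset.sum_mul, ← Finset.mul_sum]
        push_cast
        rfl
      rw [e1]
      refine (norm_sum_le _ _).trans (Finset.sum_le_sum fun i hi => ?_)
      refine (weighted_bound (hq i hi).1 (hf i hi) (hf1 i) N W.coeff θ).trans (le_of_eq ?_)
      refine Finset.sum_congr rfl fun r _ => ?_
      rw [Polynomial.eval_eq_sum_range' hW]
    calc ‖P.eval (Complex.exp (θ * Complex.I))‖ ^ p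
        ≤ (∑ x ∈ A, ‖W.eval (u (θ + 2 * π * ((x.2:ℝ) / q x.1)))‖) ^ p :=
          Real.rpow_le_rpow (norm_nonneg _) h1 hp.le
      _ ≤ (A.card : ℝ) ^ p * ∑ x ∈ A, ‖W.eval (u (θ + 2 * π * ((x.2:ℝ) / q x.1)))‖ ^ p :=
          finset_rpow_le hp A fun x => norm_nonneg _
      _ ≤ _ := by
          apply mul_le_mul_of_nonneg_right
          · apply Real.rpow_le_rpow (by positivity) _ hp.le
            exact_mod_cast hcard
          · exact Finset.sum_nonneg fun x _ => by positivity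
  have hcont : ∀ c : ℝ, Continuous fun θ : ℝ => ‖W.eval (u (θ + c))‖ ^ p := by
    intro c
    apply Continuous.rpow_const
    · apply Continuous.norm
      have h1 := W.continuous
      have h2 := u_cont
      exact h1.comp (h2.comp (continuous_id.add continuous_const))
    · intro x
      exact Or.inr hp.le
  have hint : Jc p P ≤ ∫ θ in (0:ℝ)..(2 * π),
      ((Q:ℝ) ^ 2) ^ p * ∑ x ∈ A, ‖W.eval (u (θ + 2 * π * ((x.2:ℝ) / q x.1)))‖ ^ p := by
    unfold Jc
    apply intervalIntegral.integral_mono_on hpi.le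
    · exact (evc_pow_cont hp _).intervalIntegrable _ _
    · apply Continuous.intervalIntegrable
      apply continuous_const.mul
      exact continuous_finsetSum _ fun x _ => hcont _
    · intro θ _
      exact hpt θ
  refine hint.trans ?_
  rw [intervalIntegral.integral_const_mul, intervalIntegral.integral_finsetSum
    (fun x _ => (hcont _).intervalIntegrable _ _)]
  apply mul_le_mul_of_nonneg_left _ (by positivity)
  simp_rw [shift_integral]
  rw [Finset.sum_const, nsmul_eq_mul]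
  apply mul_le_mul_of_nonneg_right _ (Jc_nonneg _)
  exact_mod_cast hcard

end Pool.Agent.CTR6
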