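import Mathlib

/-!
# Small pairwise coprime moduli with a large product, and the sequence `a_j`
-/

open Finset

namespace Pool.Agent.CTR6

theorem greedy {q : ℕ → ℕ} {Q X : ℕ} (hX : 1 ≤ X) (S : Finset ℕ)
    (hq : ∀ i ∈ S, 1 ≤ q i ∧ q i ≤ Q) (hprod : X ≤ ∏ i ∈ S, q i) (hQ : 1 ≤ Q) :
    ∃ T ⊆ S, X ≤ ∏ i ∈ T, q i ∧ ∏ i ∈ T, q i ≤ Q * X := by
  induction S using Finset.induction_on with
  | empty =>
    refine ⟨∅, subset_rfl, hprod, ?_⟩
    rw [Finset.prod_empty]
    exact Nat.succ_le_of_lt (Nat.mul_pos hQ hX)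
  | insert a S ha ih =>
    by_cases h : X ≤ ∏ i ∈ S, q i
    · obtain ⟨T, hT, h1, h2⟩ := ih (fun i hi => hq i (Finset.mem_insert_of_mem hi)) h
      exact ⟨T, hT.trans (Finset.subset_insert _ _), h1, h2⟩
    · refine ⟨insert a S, subset_rfl, hprod, ?_⟩
      rw [Finset.prod_insert ha]
      rw [not_le] at h
      exact Nat.mul_le_mul (hq a (Finset.mem_insert_self _ _)).2 h.le

theorem bezout_sum (S : Finset ℕ) (q : ℕ → ℕ) (hq : ∀ i ∈ S, 0 < q i)
    (hcop : ∀ i ∈ S, ∀ j ∈ S, i ≠ j → Nat.Coprime (q i) (q j)) :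
    ∃ (c : ℕ → ℤ) (z : ℤ), ∑ i ∈ S, (c i : ℝ) / q i = 1 / ((∏ i ∈ S, q i : ℕ) : ℝ) + z := by
  induction S using Finset.induction_on with
  | empty => exact ⟨fun _ => 0, -1, by simp⟩
  | insert a S ha ih =>
    obtain ⟨c, z, hc⟩ := ih (fun i hi => hq i (Finset.mem_insert_of_mem hi))
      (fun i hi j hj => hcop i (Finset.mem_insert_of_mem hi) j (Finset.mem_insert_of_mem hj))
    set v : ℕ := ∏ i ∈ S, q i with hv
    have hv0 : 0 < v := Finset.prod_pos fun i hi => hq i (Finset.mem_insert_of_mem hi)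
    have hqa : 0 < q a := hq a (Finset.mem_insert_self _ _)
    have hcopv : Nat.Coprime (q a) v := by
      apply Nat.Coprime.prod_right
      intro i hi
      apply hcop a (Finset.mem_insert_self _ _) i (Finset.mem_insert_of_mem hi)
      rintro rfl
      exact ha hi
    have hb := Nat.gcd_eq_gcd_ab (q a) v
    rw [hcopv] at hb
    set α := Nat.gcdA (q a) v
    set β := Nat.gcdB (q a) v
    -- 1 = q a * α + v * β
    have hbR : (1:ℝ) = (q a : ℝ) * α + (v : ℝ) * β := by
      have := congrArg (fun x : ℤ => (x : ℝ)) hb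
      push_cast at this
      exact_mod_cast this
    have hvR : (v : ℝ) ≠ 0 := by exact_mod_cast hv0.ne'
    have hqR : (q a : ℝ) ≠ 0 := by exact_mod_cast hqa.ne'
    refine ⟨fun i => if i = a then β else α * c i, α * z, ?_⟩
    rw [Finset.sum_insert ha, Finset.prod_insert ha]
    have h1 : ∑ i ∈ S, (((if i = a then β else α * c i : ℤ)) : ℝ) / q i =
        α * ∑ i ∈ S, (c i : ℝ) / q i := by
      rw [Finset.mul_sum]
      refine Finset.sum_congr rfl fun i hi => ?_
      have : i ≠ a := by rintro rfl; exact ha hi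
      rw [if_neg this]
      push_cast
      ring
    rw [h1, hc, ← hv]
    simp only [if_true]
    push_cast
    have h2 : (1:ℝ) / (q a * v) = α / v + β / q a := by
      field_simp
      linarith
    rw [h2]
    ring

/-- The sequence with few frequencies whose value modulo `1` is `j²/v`. -/
theorem exists_seq {X m : ℕ} (hX : 1 ≤ X) (hm : 1 ≤ m) (hXm : X ≤ 2 ^ m) :
    ∃ (S : Finset ℕ) (q : ℕ → ℕ) (f : ℕ → ℕ → ℝ) (v : ℕ),
      S.card ≤ 2 * m + 1 ∧ (∀ i ∈ S, 0 < q i ∧ q i ≤ 2 * m + 1) ∧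
      (∀ i ∈ S, ∀ j, f i (j + q i) = f i j) ∧ (∀ i j, 0 ≤ f i j ∧ f i j < 1) ∧
      X ≤ v ∧ v ≤ (2 * m + 1) * X ∧
      ∀ j : ℕ, ∃ z : ℤ, ∑ i ∈ S, f i j = (j:ℝ) ^ 2 / v + z := by
  set q : ℕ → ℕ := fun p => p ^ (Nat.centralBinom m).factorization p with hqdef
  have hq : ∀ i ∈ range (2 * m + 1), 1 ≤ q i ∧ q i ≤ 2 * m + 1 := by
    intro i _
    constructor
    · apply Nat.one_le_iff_ne_zero.2
      intro h
      rw [hqdef] at h
      simp only at h
      have h0 : i = 0 := by
        by_contra hi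
        exact (pow_ne_zero _ hi) h
      subst h0
      have : (Nat.centralBinom m).factorization 0 = 0 :=
        Nat.factorization_eq_zero_of_not_prime _ Nat.not_prime_zero
      rw [this] at h
      simp at h
    · have h2m : 2 * m ≠ 0 := by omega
      have := Nat.pow_factorization_choose_le (n := 2 * m) (k := m) (p := i) (by omega)
      have h3 : q i ≤ 2 * m := this
      omega
  have hprod : ∏ i ∈ range (2 * m + 1), q i = Nat.centralBinom m :=
    Nat.prod_pow_factorization_centralBinom m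
  have hge : X ≤ ∏ i ∈ range (2 * m + 1), q i := by
    rw [hprod]
    refine hXm.trans ?_
    have h4 := Nat.four_pow_le_two_mul_self_mul_centralBinom m hm
    have h5 : 2 * m ≤ 2 ^ m := by
      clear h4 hprod hq hqdef hXm
      induction m, hm using Nat.le_induction with
      | base => norm_num
      | succ k hk ih =>
        have : 2 ≤ 2 ^ k := by
          calc 2 = 2 ^ 1 := by norm_num
            _ ≤ 2 ^ k := Nat.pow_le_pow_right (by norm_num) hk
        rw [pow_succ]
        omega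
    have h6 : 2 ^ m * 2 ^ m ≤ 2 ^ m * Nat.centralBinom m := by
      calc 2 ^ m * 2 ^ m = 4 ^ m := by rw [← mul_pow]; norm_num
        _ ≤ 2 * m * Nat.centralBinom m := h4
        _ ≤ 2 ^ m * Nat.centralBinom m := Nat.mul_le_mul_right _ h5
    exact Nat.le_of_mul_le_mul_left h6 (by positivity)
  obtain ⟨S, hS, h1, h2⟩ := greedy hX (range (2 * m + 1)) hq hge (by omega)
  have hcop : ∀ i ∈ S, ∀ j ∈ S, i ≠ j → Nat.Coprime (q i) (q j) := by
    intro i _ j _ hij
    by_cases hi : i.Prime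
    · by_cases hj : j.Prime
      · exact Nat.coprime_pow_primes _ _ hi hj hij
      · have : (Nat.centralBinom m).factorization j = 0 :=
          Nat.factorization_eq_zero_of_not_prime _ hj
        rw [hqdef]
        simp only
        rw [this, pow_zero]
        exact Nat.coprime_one_right _
    · have : (Nat.centralBinom m).factorization i = 0 :=
        Nat.factorization_eq_zero_of_not_prime _ hi
      rw [hqdef]
      simp only
      rw [this, pow_zero]
      exact Nat.coprime_one_left _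
  obtain ⟨c, z, hc⟩ := bezout_sum S q (fun i hi => (hq i (hS hi)).1) hcop
  refine ⟨S, q, fun i j => Int.fract ((c i : ℝ) * j ^ 2 / q i), ∏ i ∈ S, q i, ?_, ?_, ?_, ?_, h1, h2, ?_⟩
  · calc S.card ≤ (range (2 * m + 1)).card := Finset.card_le_card hS
      _ = 2 * m + 1 := Finset.card_range _
  · intro i hi
    exact ⟨(hq i (hS hi)).1, (hq i (hS hi)).2⟩
  · intro i hi j
    have hqi : (q i : ℝ) ≠ 0 := by
      have := (hq i (hS hi)).1
      exact_mod_cast (by omega : q i ≠ 0)
    have : (c i : ℝ) * ((j + q i : ℕ) : ℝ) ^ 2 / q i =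
        (c i : ℝ) * j ^ 2 / q i + ((c i * (2 * j + q i) : ℤ) : ℝ) := by
      push_cast
      field_simp
      ring
    simp only
    rw [this, Int.fract_add_intCast]
  · intro i j
    exact ⟨Int.fract_nonneg _, Int.fract_lt_one _⟩
  · intro j
    refine ⟨z * j ^ 2 - ∑ i ∈ S, ⌊(c i : ℝ) * j ^ 2 / q i⌋, ?_⟩
    have e1 : ∑ i ∈ S, Int.fract ((c i : ℝ) * j ^ 2 / q i) =
        ∑ i ∈ S, (c i : ℝ) * j ^ 2 / q i - ∑ i ∈ S, (⌊(c i : ℝ) * j ^ 2 / q i⌋ : ℝ) := by
      rw [← Finset.sum_sub_distrib]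
      refine Finset.sum_congr rfl fun i _ => ?_
      rw [Int.fract]
    have e2 : ∑ i ∈ S, (c i : ℝ) * j ^ 2 / q i = j ^ 2 * ∑ i ∈ S, (c i : ℝ) / q i := by
      rw [Finset.mul_sum]
      refine Finset.sum_congr rfl fun i _ => ?_
      ring
    rw [e1, e2, hc]
    push_cast
    ring

end Pool.Agent.CTR6
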