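import Pool.Agent.CTR6.Base

/-!
# Weyl's bound for quadratic exponential sums (small leading coefficient)
-/

open Real Finset

namespace Pool.Agent.CTR6

theorem norm_sq_sum (x : ℕ → ℂ) (hx : ∀ j, ‖x j‖ = 1) (s : ℕ) :
    ‖∑ j ∈ range s, x j‖ ^ 2 =
      2 * (∑ j ∈ range s, ∑ k ∈ range (j + 1), x j * (starRingEnd ℂ) (x k)).re - s := by
  induction s with
  | zero => simp
  | succ s ih =>
    rw [Finset.sum_range_succ, Finset.sum_range_succ (fun j => ∑ k ∈ range (j + 1),
      x j * (starRingEnd ℂ) (x k)), Complex.add_re, mul_add]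
    have h1 : ∑ k ∈ range (s + 1), x s * (starRingEnd ℂ) (x k) =
        x s * (starRingEnd ℂ) (∑ k ∈ range s, x k) + 1 := by
      rw [Finset.sum_range_succ, map_sum, Finset.mul_sum]
      congr 1
      rw [Complex.mul_conj, Complex.normSq_eq_norm_sq, hx]
      simp
    rw [h1, Complex.add_re, Complex.one_re]
    have h2 : ‖∑ k ∈ range s, x k + x s‖ ^ 2 = ‖∑ k ∈ range s, x k‖ ^ 2 + 1 +
        2 * (x s * (starRingEnd ℂ) (∑ k ∈ range s, x k)).re := by
      set A := ∑ k ∈ range s, x k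
      rw [← Complex.normSq_eq_norm_sq, ← Complex.normSq_eq_norm_sq, Complex.normSq_add,
        Complex.normSq_eq_norm_sq (x s), hx, one_pow]
      have : (A * (starRingEnd ℂ) (x s)).re = (x s * (starRingEnd ℂ) A).re := by
        simp only [Complex.mul_re, Complex.conj_re, Complex.conj_im]
        ring
      rw [this]
    rw [h2, ih]
    push_cast
    ring

theorem regroup (F : ℕ → ℕ → ℂ) (s : ℕ) :
    ∑ j ∈ range s, ∑ k ∈ range (j + 1), F j k =
      ∑ h ∈ range s, ∑ b ∈ range (s - h), F (b + h) b := by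
  have h1 := Finset.sum_range_diag_flip s (fun h b => F (b + h) b)
  rw [← h1]
  refine Finset.sum_congr rfl fun j _ => ?_
  rw [← Finset.sum_range_reflect]
  refine Finset.sum_congr rfl fun k hk => ?_
  rw [Finset.mem_range] at hk
  have e1 : j + 1 - 1 - k = j - k := by omega
  rw [e1]
  congr 1
  omega

/-- norm of `u t - 1`. -/
theorem norm_u_sub_one (t : ℝ) : ‖u t - 1‖ = 2 * |Real.sin (t / 2)| := by
  have h := Complex.norm_exp_I_mul_ofReal_sub_one t
  unfold u
  rw [mul_comm (t : ℂ) Complex.I, h, Real.norm_eq_abs, abs_mul]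
  norm_num

theorem geom_bound (c w : ℂ) (hc : ‖c‖ = 1) (hw : ‖w‖ = 1) (hw1 : w ≠ 1) (n : ℕ) :
    ‖∑ b ∈ range n, c * w ^ b‖ ≤ 2 / ‖w - 1‖ := by
  rw [← Finset.mul_sum, norm_mul, hc, one_mul, geom_sum_eq hw1, norm_div]
  apply div_le_div_of_nonneg_right _ (norm_nonneg _)
  calc ‖w ^ n - 1‖ ≤ ‖w ^ n‖ + ‖(1:ℂ)‖ := norm_sub_le _ _
    _ = 2 := by rw [norm_pow, hw, one_pow, norm_one]; norm_num

theorem harm_bound (s : ℕ) (hs : 1 ≤ s) :
    ∑ h ∈ range (s - 1), (1:ℝ) / (h + 1) ≤ 1 + Real.log s := by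
  have h1 : ∑ h ∈ range (s - 1), (1:ℝ) / (h + 1) ≤ ∑ h ∈ range s, (1:ℝ) / (h + 1) := by
    apply Finset.sum_le_sum_of_subset_of_nonneg
    · exact Finset.range_subset_range.2 (Nat.sub_le _ _)
    · intro i _ _; positivity
  have h2 := harmonic_le_one_add_log s
  have h3 : ((harmonic s : ℚ) : ℝ) = ∑ h ∈ range s, (1:ℝ) / (h + 1) := by
    unfold harmonic
    push_cast
    refine Finset.sum_congr rfl fun i _ => ?_
    rw [one_div]
  rw [h3] at h2
  exact h1.trans h2

/-- **Weyl's inequality** for quadratic phases with small leading coefficient. -/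
theorem weyl {α β : ℝ} {s : ℕ} (hα : 0 < α) (hs : 1 ≤ s) (hαs : 4 * α * s ≤ 1) :
    ‖∑ j ∈ range s, u (2 * π * (α * j ^ 2) + β * j)‖ ^ 2 ≤ s + (1 + Real.log s) / (2 * α) := by
  set x : ℕ → ℂ := fun j => u (2 * π * (α * j ^ 2) + β * j) with hxdef
  have hx : ∀ j, ‖x j‖ = 1 := fun j => norm_u _
  have h1 := norm_sq_sum x hx s
  rw [regroup (fun j k => x j * (starRingEnd ℂ) (x k)) s] at h1
  have hsplit : ∑ h ∈ range s, ∑ b ∈ range (s - h), x (b + h) * (starRingEnd ℂ) (x b) =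
      ∑ h ∈ range (s - 1), ∑ b ∈ range (s - (h + 1)), x (b + (h + 1)) * (starRingEnd ℂ) (x b) + s := by
    obtain ⟨t, rfl⟩ : ∃ t, s = t + 1 := ⟨s - 1, by omega⟩
    rw [Finset.sum_range_succ', Nat.add_sub_cancel]
    congr 1
    rw [Nat.sub_zero]
    have : ∀ b ∈ range (t + 1), x (b + 0) * (starRingEnd ℂ) (x b) = 1 := by
      intro b _
      rw [Nat.add_zero, Complex.mul_conj, Complex.normSq_eq_norm_sq, hx]
      simp
    rw [Finset.sum_congr rfl this]
    simp
  have hkey : ∀ h ∈ range (s - 1), ‖∑ b ∈ range (s - (h + 1)),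
      x (b + (h + 1)) * (starRingEnd ℂ) (x b)‖ ≤ 1 / (4 * α) * (1 / (h + 1)) := by
    intro h hh
    rw [Finset.mem_range] at hh
    set c : ℂ := u (2 * π * (α * (h + 1 : ℝ) ^ 2) + β * (h + 1)) with hc
    set w : ℂ := u (4 * π * α * (h + 1)) with hw
    have e1 : ∀ b ∈ range (s - (h + 1)), x (b + (h + 1)) * (starRingEnd ℂ) (x b) = c * w ^ b := by
      intro b _
      rw [hxdef]
      simp only
      rw [conj_u, ← u_add, hw, ← u_natMul, hc, ← u_add]
      congr 1
      push_cast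
      ring
    rw [Finset.sum_congr rfl e1]
    have hh1 : ((h:ℝ) + 1) ≤ s := by exact_mod_cast (by omega : h + 1 ≤ s)
    have hh0 : (0:ℝ) < (h:ℝ) + 1 := by positivity
    have hlt : 2 * π * α * (h + 1) ≤ π / 2 := by
      have : 4 * α * (h + 1) ≤ 1 := by
        calc 4 * α * (h + 1) ≤ 4 * α * s := mul_le_mul_of_nonneg_left hh1 (by positivity)
          _ ≤ 1 := hαs
      nlinarith [Real.pi_pos]
    have hsin : 4 * α * (h + 1) ≤ Real.sin (2 * π * α * (h + 1)) := by
      have := Real.mul_le_sin (x := 2 * π * α * (h + 1)) (by positivity) hlt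
      calc 4 * α * (h + 1) = 2 / π * (2 * π * α * (h + 1)) := by
            have := Real.pi_pos.ne'
            field_simp
            ring
        _ ≤ _ := this
    have hnorm : 8 * α * (h + 1) ≤ ‖w - 1‖ := by
      rw [hw, norm_u_sub_one]
      have e2 : 4 * π * α * (h + 1) / 2 = 2 * π * α * (h + 1) := by ring
      rw [e2]
      have := le_abs_self (Real.sin (2 * π * α * (h + 1)))
      linarith
    have hw1 : w ≠ 1 := by
      intro h0
      rw [h0, sub_self, norm_zero] at hnorm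
      have : 0 < 8 * α * ((h:ℝ) + 1) := by positivity
      linarith
    refine (geom_bound c w (norm_u _) (norm_u _) hw1 _).trans ?_
    have h8 : 0 < 8 * α * ((h:ℝ) + 1) := by positivity
    calc 2 / ‖w - 1‖ ≤ 2 / (8 * α * (h + 1)) := div_le_div_of_nonneg_left (by norm_num) h8 hnorm
      _ = 1 / (4 * α) * (1 / (h + 1)) := by field_simp; norm_num
  have hre : (∑ h ∈ range (s - 1), ∑ b ∈ range (s - (h + 1)),
      x (b + (h + 1)) * (starRingEnd ℂ) (x b)).re ≤ 1 / (4 * α) * (1 + Real.log s) := by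
    refine (Complex.re_le_norm _).trans ((norm_sum_le _ _).trans ((Finset.sum_le_sum hkey).trans ?_))
    rw [← Finset.mul_sum]
    exact mul_le_mul_of_nonneg_left (harm_bound s hs) (by positivity)
  have hre2 : (∑ h ∈ range s, ∑ b ∈ range (s - h), x (b + h) * (starRingEnd ℂ) (x b)).re ≤
      1 / (4 * α) * (1 + Real.log s) + s := by
    rw [hsplit, Complex.add_re, Complex.natCast_re]
    linarith
  have e3 : 2 * (1 / (4 * α) * (1 + Real.log s)) = (1 + Real.log s) / (2 * α) := by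
    field_simp
    ring
  calc ‖∑ j ∈ range s, x j‖ ^ 2 = _ := h1
    _ ≤ 2 * (1 / (4 * α) * (1 + Real.log s) + s) - s := by linarith
    _ = s + 2 * (1 / (4 * α) * (1 + Real.log s)) := by ring
    _ = _ := by rw [e3]

/-- The shifted version. -/
theorem weyl_shift {α β : ℝ} {s : ℕ} (t0 : ℕ) (hα : 0 < α) (hs : 1 ≤ s) (hαs : 4 * α * s ≤ 1) :
    ‖∑ j ∈ range s, u (2 * π * (α * ((t0 + j : ℕ) : ℝ) ^ 2) + β * ((t0 + j : ℕ) : ℝ))‖ ^ 2 ≤
      s + (1 + Real.log s) / (2 * α) := by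
  have e : ∀ j : ℕ, u (2 * π * (α * ((t0 + j : ℕ) : ℝ) ^ 2) + β * ((t0 + j : ℕ) : ℝ)) =
      u (2 * π * (α * t0 ^ 2) + β * t0) *
        u (2 * π * (α * j ^ 2) + (4 * π * α * t0 + β) * j) := by
    intro j
    rw [← u_add]
    congr 1
    push_cast
    ring
  simp_rw [e]
  rw [← Finset.mul_sum, norm_mul, norm_u, one_mul]
  exact weyl hα hs hαs

end Pool.Agent.CTR6
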