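import Pool.Agent.CTR6.Kernel
import Pool.Agent.CTR6.Weyl
import Pool.Agent.CTR6.Moduli

/-!
# The hat functions, the choice of the truncation height, and lower bounds for `p`-norms
-/

open MeasureTheory Real Finset
open Pool.Agent.Lib_helper21.CoeffTrunc

namespace Pool.Agent.CTR6

/-- The hat function on `[k, k+1]` written through truncations. -/
noncomputable def hat (k : ℕ) (x : ℝ) : ℝ := -min x k + 2 * min x (k + 1 / 2) - min x (k + 1)

theorem hat_left {k : ℕ} {x : ℝ} (h : x ≤ k) : hat k x = 0 := by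
  unfold hat
  rw [min_eq_left h, min_eq_left (by linarith), min_eq_left (by linarith)]
  ring

theorem hat_right {k : ℕ} {x : ℝ} (h : (k:ℝ) + 1 ≤ x) : hat k x = 0 := by
  unfold hat
  rw [min_eq_right (by linarith), min_eq_right (by linarith), min_eq_right (by linarith)]
  ring

theorem hat_mid {k : ℕ} {x : ℝ} (h1 : (k:ℝ) ≤ x) (h2 : x ≤ k + 1) :
    hat k x = min (x - k) (k + 1 - x) := by
  unfold hat
  rw [min_eq_right h1, min_eq_left h2]
  rcases le_total x (k + 1 / 2) with h | h
  · rw [min_eq_left h, min_eq_left (by linarith)]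
    ring
  · rw [min_eq_right h, min_eq_right (by linarith)]
    ring

theorem sum_hat {K : ℕ} {x : ℝ} (h0 : 0 ≤ x) (hK : x < K) :
    ∑ k ∈ range K, hat k x = min (Int.fract x) (1 - Int.fract x) := by
  set f := ⌊x⌋₊ with hf
  have hf1 : (f:ℝ) ≤ x := Nat.floor_le h0
  have hf2 : x < f + 1 := Nat.lt_floor_add_one x
  have hfK : f < K := by
    have : (f:ℝ) < K := lt_of_le_of_lt hf1 hK
    exact_mod_cast this
  have hfr : Int.fract x = x - f := by
    have : (⌊x⌋ : ℝ) = f := by
      rw [hf]
      exact (natCast_floor_eq_intCast_floor h0).symm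
    rw [Int.fract, this]
  rw [Finset.sum_eq_single f]
  · rw [hat_mid hf1 hf2.le, hfr]
    congr 1
    ring
  · intro k _ hk
    rcases lt_or_gt_of_ne hk with h | h
    · apply hat_right
      have : (k:ℝ) + 1 ≤ f := by exact_mod_cast h
      linarith
    · apply hat_left
      have : (f:ℝ) + 1 ≤ k := by exact_mod_cast h
      linarith
  · intro h
    exact absurd (Finset.mem_range.2 hfK) h

theorem cos_fract (x : ℝ) : Real.cos (2 * π * x) = Real.cos (2 * π * min (Int.fract x) (1 - Int.fract x)) := by
  have h1 : Real.cos (2 * π * x) = Real.cos (2 * π * Int.fract x) := by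
    have : 2 * π * x = 2 * π * Int.fract x + ⌊x⌋ * (2 * π) := by
      have := Int.floor_add_fract x
      calc 2 * π * x = 2 * π * (⌊x⌋ + Int.fract x) := by rw [this]
        _ = _ := by ring
    rw [this, Real.cos_add_int_mul_two_pi]
  rw [h1]
  rcases le_total (Int.fract x) (1 - Int.fract x) with h | h
  · rw [min_eq_left h]
  · rw [min_eq_right h]
    have : 2 * π * (1 - Int.fract x) = 2 * π - 2 * π * Int.fract x := by ring
    rw [this, Real.cos_two_pi_sub]

/-- The key pointwise inequality. -/
theorem key_ineq (x : ℝ) :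
    min (Int.fract x) (1 - Int.fract x) * Real.cos (2 * π * x) ≤
      1 / 4 * Real.cos (2 * π * x) - 1 / (2 * π) * Real.cos (2 * π * x) ^ 2 := by
  rw [cos_fract]
  set t := min (Int.fract x) (1 - Int.fract x) with ht
  have hc : Real.cos (2 * π * t) = -Real.sin (2 * π * (t - 1 / 4)) := by
    have : 2 * π * t = 2 * π * (t - 1 / 4) + π / 2 := by ring
    rw [this, Real.cos_add_pi_div_two]
  rw [hc]
  set w := t - 1 / 4 with hw
  have h1 : |Real.sin (2 * π * w)| ≤ |2 * π * w| := Real.abs_sin_le_abs
  have h2 : Real.sin (2 * π * w) ^ 2 ≤ 2 * π * (w * Real.sin (2 * π * w)) := by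
    -- sin has the same sign as w
    have hpi := Real.pi_pos
    have ht0 : 0 ≤ t := by
      rw [ht]
      exact le_min (Int.fract_nonneg _) (by linarith [Int.fract_lt_one x])
    have ht1 : t ≤ 1 / 2 := by
      rw [ht]
      rcases le_total (Int.fract x) (1 - Int.fract x) with h | h
      · rw [min_eq_left h]; linarith
      · rw [min_eq_right h]; linarith
    rcases le_total 0 w with h | h
    · have hs : 0 ≤ Real.sin (2 * π * w) := by
        apply Real.sin_nonneg_of_nonneg_of_le_pi (by positivity)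
        nlinarith
      have hle : Real.sin (2 * π * w) ≤ 2 * π * w := Real.sin_le (by positivity)
      nlinarith
    · have hs : 0 ≤ Real.sin (2 * π * (-w)) := by
        apply Real.sin_nonneg_of_nonneg_of_le_pi
        · have : 0 ≤ -w := by linarith
          positivity
        · nlinarith
      have hle : Real.sin (2 * π * (-w)) ≤ 2 * π * (-w) := Real.sin_le (by
          have : 0 ≤ -w := by linarith
          positivity)
      have e : 2 * π * (-w) = -(2 * π * w) := by ring
      rw [e, Real.sin_neg] at hs hle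
      nlinarith
  have h3 : 1 / (2 * π) * Real.sin (2 * π * w) ^ 2 ≤ w * Real.sin (2 * π * w) := by
    have hpi : (0:ℝ) < 2 * π := by positivity
    calc 1 / (2 * π) * Real.sin (2 * π * w) ^ 2
        ≤ 1 / (2 * π) * (2 * π * (w * Real.sin (2 * π * w))) :=
          mul_le_mul_of_nonneg_left h2 (by positivity)
      _ = w * Real.sin (2 * π * w) := by field_simp
  have e1 : t = w + 1 / 4 := by rw [hw]; ring
  rw [e1]
  have e2 : (-Real.sin (2 * π * w)) ^ 2 = Real.sin (2 * π * w) ^ 2 := by ring
  rw [e2]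
  linarith

/-- The choice of the truncation height. -/
theorem exists_level {K : ℕ} (hK : 1 ≤ K) (c : ℝ → ℝ) {D : ℝ} (hD : 0 < D) (hc0 : c 0 = 0)
    (hsum : D ≤ |∑ k ∈ range K, (-c k + 2 * c (k + 1 / 2) - c (k + 1))|) :
    ∃ L : ℝ, 0 < L ∧ D / (4 * K) ≤ |c L| := by
  by_contra hcon
  push Not at hcon
  have hK0 : (0:ℝ) < K := by exact_mod_cast hK
  have hδ : 0 < D / (4 * K) := by positivity
  have hall : ∀ L : ℝ, 0 ≤ L → |c L| < D / (4 * K) := by
    intro L hL
    rcases hL.eq_or_lt with h | h
    · rw [← h, hc0, abs_zero]; exact hδ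
    · exact hcon L h
  have hterm : ∀ k ∈ range K, |(-c k + 2 * c (k + 1 / 2) - c (k + 1))| < 4 * (D / (4 * K)) := by
    intro k _
    have h1 := abs_lt.1 (hall k (by positivity))
    have h2 := abs_lt.1 (hall (k + 1 / 2) (by positivity))
    have h3 := abs_lt.1 (hall (k + 1) (by positivity))
    rw [abs_lt]
    constructor <;> linarith [h1.1, h1.2, h2.1, h2.2, h3.1, h3.2]
  have hne : (range K).Nonempty := ⟨0, Finset.mem_range.2 hK⟩
  have h4 : |∑ k ∈ range K, (-c k + 2 * c (k + 1 / 2) - c (k + 1))| < D := by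
    calc |∑ k ∈ range K, (-c k + 2 * c (k + 1 / 2) - c (k + 1))|
        ≤ ∑ k ∈ range K, |(-c k + 2 * c (k + 1 / 2) - c (k + 1))| := Finset.abs_sum_le_sum_abs _ _
      _ < ∑ _k ∈ range K, 4 * (D / (4 * K)) := Finset.sum_lt_sum_of_nonempty hne hterm
      _ = D := by
        rw [Finset.sum_const, Finset.card_range, nsmul_eq_mul]
        field_simp
  linarith

/-- A lower bound for `∫ |G|^p` from a lower bound of `∫ |G|` and an upper bound of `∫ |G|²`. -/
theorem Jc_lower {p : ℝ} (hp : 0 < p) (G : Polynomial ℂ) {a b A : ℝ} (ha : 0 < a) (hb : 0 < b)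
    (hA1 : (a / (8 * π)) ^ (1 - p) ≤ A) (hA2 : (4 * b / a) ^ (1 - p) ≤ A)
    (h1 : a ≤ ∫ θ in (0:ℝ)..(2 * π), ‖G.eval (Complex.exp (θ * Complex.I))‖) (h2 : M2 G ≤ b) :
    a / (2 * A) ≤ Jc p G := by
  have hpi : (0:ℝ) < 2 * π := by positivity
  set μ := a / (8 * π) with hμ
  set lam := 4 * b / a with hlam
  have hμ0 : 0 < μ := by positivity
  have hl0 : 0 < lam := by positivity
  have hA0 : 0 < A := lt_of_lt_of_le (Real.rpow_pos_of_pos hμ0 _) hA1
  have hpt : ∀ x : ℝ, 0 ≤ x → x ≤ μ + A * x ^ p + x ^ 2 / lam := by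
    intro x hx
    have t1 : 0 ≤ A * x ^ p := by positivity
    have t2 : 0 ≤ x ^ 2 / lam := by positivity
    rcases le_total x μ with h | h
    · linarith
    rcases le_total lam x with h' | h'
    · have : x ≤ x ^ 2 / lam := by
        rw [le_div_iff₀ hl0]
        nlinarith
      linarith
    · have hx0 : 0 < x := lt_of_lt_of_le hμ0 h
      have e : x = x ^ (1 - p) * x ^ p := by
        rw [← Real.rpow_add hx0]
        have : 1 - p + p = 1 := by ring
        rw [this, Real.rpow_one]
      have h3 : x ^ (1 - p) ≤ A := by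
        rcases le_total 0 (1 - p) with hq | hq
        · exact (Real.rpow_le_rpow hx h' hq).trans hA2
        · exact (Real.rpow_le_rpow_of_nonpos hμ0 h hq).trans hA1
      have : x ≤ A * x ^ p := by
        calc x = x ^ (1 - p) * x ^ p := e
          _ ≤ A * x ^ p := mul_le_mul_of_nonneg_right h3 (by positivity)
      linarith
  have hint : (∫ θ in (0:ℝ)..(2 * π), ‖G.eval (Complex.exp (θ * Complex.I))‖) ≤
      2 * π * μ + A * Jc p G + M2 G / lam := by
    have hc1 := evc_pow_cont hp G
    have hc2 := evc_sq_cont G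
    have h3 : (∫ θ in (0:ℝ)..(2 * π), ‖G.eval (Complex.exp (θ * Complex.I))‖) ≤
        ∫ θ in (0:ℝ)..(2 * π), (μ + A * ‖G.eval (Complex.exp (θ * Complex.I))‖ ^ p +
          ‖G.eval (Complex.exp (θ * Complex.I))‖ ^ 2 / lam) := by
      apply intervalIntegral.integral_mono_on hpi.le
      · exact (evc_cont G).intervalIntegrable _ _
      · apply Continuous.intervalIntegrable
        exact (continuous_const.add (continuous_const.mul hc1)).add (hc2.div_const _)
      · intro θ _
        exact hpt _ (norm_nonneg _)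
    refine h3.trans (le_of_eq ?_)
    have e3 : (∫ θ in (0:ℝ)..(2 * π), ‖G.eval (Complex.exp (θ * Complex.I))‖ ^ 2 / lam) =
        M2 G / lam := by
      rw [intervalIntegral.integral_div]
      rfl
    have e4 : (∫ _θ in (0:ℝ)..(2 * π), μ) = 2 * π * μ := by
      rw [intervalIntegral.integral_const]
      simp only [sub_zero, smul_eq_mul]
    have e5 : (∫ θ in (0:ℝ)..(2 * π), A * ‖G.eval (Complex.exp (θ * Complex.I))‖ ^ p) =
        A * Jc p G := by
      rw [intervalIntegral.integral_const_mul]
      rfl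
    rw [intervalIntegral.integral_add, intervalIntegral.integral_add, e3, e4, e5]
    · exact intervalIntegrable_const
    · exact (continuous_const.mul hc1).intervalIntegrable _ _
    · exact (continuous_const.add (continuous_const.mul hc1)).intervalIntegrable _ _
    · exact (hc2.div_const _).intervalIntegrable _ _
  have e1 : 2 * π * μ = a / 4 := by rw [hμ]; field_simp; norm_num
  have e2 : M2 G / lam ≤ a / 4 := by
    calc M2 G / lam ≤ b / lam := div_le_div_of_nonneg_right h2 hl0.le
      _ = a / 4 := by rw [hlam]; field_simp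
  have h5 : a / 2 ≤ A * Jc p G := by linarith
  rw [div_le_iff₀ (by positivity)]
  linarith

/-- Duality: `∫ |G|` from an inner product with a bounded test polynomial. -/
theorem int_lower (N : ℕ) (g h : ℕ → ℝ) {W : ℝ}
    (hW : ∀ θ : ℝ, ‖∑ j ∈ range N, (h j : ℂ) * u θ ^ j‖ ≤ W) :
    2 * π * |∑ j ∈ range N, g j * h j| ≤
      W * ∫ θ in (0:ℝ)..(2 * π), ‖∑ j ∈ range N, (g j : ℂ) * u θ ^ j‖ := by
  have hpi : (0:ℝ) < 2 * π := by positivity
  have h1 := inner_formula N (fun j => (g j : ℂ)) (fun j => (h j : ℂ))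
  have h2 : ‖(2 * π : ℂ) * ∑ j ∈ range N, (g j : ℂ) * (starRingEnd ℂ) (h j : ℂ)‖ =
      2 * π * |∑ j ∈ range N, g j * h j| := by
    have : (2 * π : ℂ) * ∑ j ∈ range N, (g j : ℂ) * (starRingEnd ℂ) (h j : ℂ) =
        ((2 * π * ∑ j ∈ range N, g j * h j : ℝ) : ℂ) := by
      push_cast
      simp only [Complex.conj_ofReal]
    rw [this, Complex.norm_real, Real.norm_eq_abs, abs_mul, abs_of_pos hpi]
  have hcg : Continuous fun θ : ℝ => ∑ j ∈ range N, (g j : ℂ) * u θ ^ j := by
    have := u_cont
    exact continuous_finsetSum _ fun j _ => continuous_const.mul (this.pow j)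
  have hch : Continuous fun θ : ℝ => ∑ j ∈ range N, (h j : ℂ) * u θ ^ j := by
    have := u_cont
    exact continuous_finsetSum _ fun j _ => continuous_const.mul (this.pow j)
  rw [← h2, ← h1]
  refine (intervalIntegral.norm_integral_le_integral_norm hpi.le).trans ?_
  rw [← intervalIntegral.integral_const_mul]
  apply intervalIntegral.integral_mono_on hpi.le
  · apply Continuous.intervalIntegrable
    exact (hcg.mul (Complex.continuous_conj.comp hch)).norm
  · exact (continuous_const.mul hcg.norm).intervalIntegrable _ _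
  · intro θ _
    rw [norm_mul, Complex.norm_conj, mul_comm]
    exact mul_le_mul_of_nonneg_right (hW θ) (norm_nonneg _)

end Pool.Agent.CTR6
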