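import Pool.Agent.CTR6.Level

/-!
# The lower bound
-/

open MeasureTheory Real Finset
open Pool.Agent.Lib_helper21.CoeffTrunc

namespace Pool.Agent.CTR6

/-- The quotient for a real polynomial with nonnegative coefficients, truncated at height `L`. -/
theorem ratio_lower {p : ℝ} (hp : 0 < p) {n : ℕ} {P : Polynomial ℝ} (hdeg : P.natDegree ≤ n)
    (hnn : ∀ j, 0 ≤ P.coeff j) {L : ℝ} (hL : 0 < L) {G : Polynomial ℂ}
    (hG : ∀ j, G.coeff j = ((min (P.coeff j) L : ℝ) : ℂ)) {r : ℝ} (hr : 0 < r)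
    (h : r * Jc p (P.map (algebraMap ℝ ℂ)) ≤ Jc p G) (hGpos : 0 < Jc p G) :
    ENNReal.ofReal (r ^ (1 / p)) ≤ NReal n p := by
  have hP0 : P ≠ 0 := by
    rintro rfl
    have : G = 0 := by
      ext j
      rw [hG]
      simp [hL.le]
    rw [this, Jc_zero hp] at hGpos
    exact lt_irrefl _ hGpos
  set P1 : Polynomial ℝ := Polynomial.C (L⁻¹) * P with hP1
  have hL' : L⁻¹ ≠ 0 := (inv_pos.2 hL).ne'
  have hP10 : P1 ≠ 0 := by
    rw [hP1]
    exact mul_ne_zero (Polynomial.C_ne_zero.2 hL') hP0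
  have hdeg1 : P1.natDegree ≤ n := (Polynomial.natDegree_C_mul_le _ _).trans hdeg
  have htr : trunc n (P1.map (algebraMap ℝ ℂ)) = Polynomial.C ((L⁻¹ : ℝ) : ℂ) * G := by
    ext j
    rw [trunc_coeff, Polynomial.coeff_C_mul, hG]
    by_cases hj : j ≤ n
    · rw [if_pos hj, Polynomial.coeff_map, hP1, Polynomial.coeff_C_mul]
      have h0 := hnn j
      set x := P.coeff j with hx
      have hcast : (algebraMap ℝ ℂ) (L⁻¹ * x) = ((L⁻¹ * x : ℝ) : ℂ) := rfl
      rw [hcast]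
      unfold clip
      have hnorm : ‖((L⁻¹ * x : ℝ) : ℂ)‖ = L⁻¹ * x := by
        rw [Complex.norm_real, Real.norm_eq_abs, abs_of_nonneg (by positivity)]
      rw [hnorm]
      split_ifs with hlt
      · have : x < L := by
          rw [inv_mul_lt_iff₀ hL, mul_one] at hlt
          exact hlt
        rw [min_eq_left this.le]
        push_cast
        ring
      · have : L ≤ x := by
          rw [not_lt] at hlt
          rwa [le_inv_mul_iff₀ hL, mul_one] at hlt
        rw [min_eq_right this]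
        have hx0 : 0 < x := lt_of_lt_of_le hL this
        have h1 : ((L⁻¹ * x : ℝ) : ℂ) ≠ 0 := by
          have : (L⁻¹ * x) ≠ 0 := by positivity
          exact_mod_cast this
        rw [div_self h1]
        have h2 : (L : ℂ) ≠ 0 := by exact_mod_cast hL.ne'
        push_cast
        field_simp
    · rw [if_neg hj]
      have : P.coeff j = 0 := Polynomial.coeff_eq_zero_of_natDegree_lt (by omega)
      rw [this, min_eq_left hL.le]
      simp
  have hmap : P1.map (algebraMap ℝ ℂ) = Polynomial.C ((L⁻¹ : ℝ) : ℂ) * P.map (algebraMap ℝ ℂ) := by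
    rw [hP1, Polynomial.map_mul, Polynomial.map_C]
    rfl
  have hnormL : ‖((L⁻¹ : ℝ) : ℂ)‖ = L⁻¹ := by
    rw [Complex.norm_real, Real.norm_eq_abs, abs_of_pos (inv_pos.2 hL)]
  have hLp : 0 < (L⁻¹) ^ p := Real.rpow_pos_of_pos (inv_pos.2 hL) _
  have hJ1 : Jc p (trunc n (P1.map (algebraMap ℝ ℂ))) = (L⁻¹) ^ p * Jc p G := by
    rw [htr, Jc_C_mul, hnormL]
  have hJ2 : Jc p (P1.map (algebraMap ℝ ℂ)) = (L⁻¹) ^ p * Jc p (P.map (algebraMap ℝ ℂ)) := by
    rw [hmap, Jc_C_mul, hnormL]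
  have hJPpos : 0 < Jc p (P.map (algebraMap ℝ ℂ)) := by
    rcases (Jc_nonneg (p := p) (P.map (algebraMap ℝ ℂ))).eq_or_lt with h0 | h0
    · exfalso
      have h3 : P.map (algebraMap ℝ ℂ) ≠ 0 :=
        (Polynomial.map_ne_zero_iff (algebraMap ℝ ℂ).injective).2 hP0
      -- the Nikolskii inequality gives a contradiction only for p < 2; use the M2 argument
      by_cases hp2 : p < 2
      · have h4 := M2_le_Jc hp hp2 (Q := P.map (algebraMap ℝ ℂ)) (n := n)
          (Polynomial.natDegree_map_le.trans hdeg)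
        rw [← h0, mul_zero] at h4
        have h5 : M2 (P.map (algebraMap ℝ ℂ)) = 0 := by
          rcases (M2_nonneg (P.map (algebraMap ℝ ℂ))).eq_or_lt with h6 | h6
          · exact h6.symm
          · have := Real.rpow_pos_of_pos h6 (p / 2)
            linarith
        exact h3 (eval_zero_of_M2 h5)
      · -- continuous nonnegative function with zero integral
        have hc := evc_pow_cont hp (P.map (algebraMap ℝ ℂ))
        obtain ⟨θ, hθ, hne⟩ : ∃ θ ∈ Set.Icc (0:ℝ) (2 * π),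
            0 < ‖(P.map (algebraMap ℝ ℂ)).eval (Complex.exp (θ * Complex.I))‖ ^ p := by
          by_contra hcon
          push Not at hcon
          have hz : ∀ θ ∈ Set.Icc (0:ℝ) (2 * π),
              (P.map (algebraMap ℝ ℂ)).eval (Complex.exp (θ * Complex.I)) = 0 := by
            intro θ hθ
            by_contra hne
            have := Real.rpow_pos_of_pos (norm_pos_iff.2 hne) p
            linarith [hcon θ hθ]
          have : M2 (P.map (algebraMap ℝ ℂ)) = 0 := by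
            unfold M2
            have hpi : (0:ℝ) ≤ 2 * π := by positivity
            have e : ∀ θ ∈ Set.uIcc (0:ℝ) (2 * π),
                ‖(P.map (algebraMap ℝ ℂ)).eval (Complex.exp (θ * Complex.I))‖ ^ 2 = 0 := by
              intro θ hθ
              rw [Set.uIcc_of_le hpi] at hθ
              rw [hz θ hθ]; simp
            rw [intervalIntegral.integral_congr e]
            simp
          exact h3 (eval_zero_of_M2 this)
        have hpos := intervalIntegral.integral_pos (a := 0) (b := 2 * π) (by positivity)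
          hc.continuousOn (fun θ _ => by positivity) ⟨θ, hθ, hne⟩
        have : Jc p (P.map (algebraMap ℝ ℂ)) = ∫ θ in (0:ℝ)..(2 * π),
            ‖(P.map (algebraMap ℝ ℂ)).eval (Complex.exp (θ * Complex.I))‖ ^ p := rfl
        rw [← this] at hpos
        linarith
    · exact h0
  have hfin : r ^ (1 / p) ≤ circleNorm p (trunc n (P1.map (algebraMap ℝ ℂ))) /
      circleNorm p (P1.map (algebraMap ℝ ℂ)) := by
    have e1 : circleNorm p (trunc n (P1.map (algebraMap ℝ ℂ))) =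
        (Jc p (trunc n (P1.map (algebraMap ℝ ℂ)))) ^ (1 / p) := rfl
    have e2 : circleNorm p (P1.map (algebraMap ℝ ℂ)) =
        (Jc p (P1.map (algebraMap ℝ ℂ))) ^ (1 / p) := rfl
    rw [e1, e2, hJ1, hJ2, ← Real.div_rpow (by positivity) (by positivity)]
    apply Real.rpow_le_rpow hr.le _ (one_div_nonneg.2 hp.le)
    rw [mul_div_mul_left _ _ hLp.ne', le_div_iff₀ hJPpos]
    exact h
  refine (ENNReal.ofReal_le_ofReal hfin).trans ?_
  unfold NReal
  refine le_trans ?_ (le_iSup _ P1)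
  exact le_iSup₂ (f := fun (_ : P1.natDegree ≤ n) (_ : P1 ≠ 0) =>
    ENNReal.ofReal (circleNorm p (trunc n (P1.map (algebraMap ℝ ℂ))) /
    circleNorm p (P1.map (algebraMap ℝ ℂ)))) hdeg1 hP10

theorem sum_window {α : Type*} [AddCommMonoid α] (N t0 s : ℕ) (h : t0 + s ≤ N) (F : ℕ → α) :
    ∑ j ∈ range N, (if t0 ≤ j ∧ j < t0 + s then F j else 0) = ∑ j ∈ range s, F (t0 + j) := by
  rw [← Finset.sum_filter]
  have : (range N).filter (fun j => t0 ≤ j ∧ j < t0 + s) = Finset.Ico t0 (t0 + s) := by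
    ext j
    rw [Finset.mem_filter, Finset.mem_range, Finset.mem_Ico]
    constructor
    · rintro ⟨_, h2⟩; exact h2
    · intro h2; exact ⟨by omega, h2⟩
  rw [this, Finset.sum_Ico_eq_sum_range]
  congr 2
  omega

theorem cos_eq_u (x : ℝ) : ((Real.cos x : ℝ) : ℂ) = (u x + u (-x)) / 2 := by
  unfold u
  rw [Complex.ofReal_cos, Complex.cos]
  push_cast
  ring_nf

theorem re_u (x : ℝ) : (u x).re = Real.cos x := by
  unfold u
  exact Complex.exp_ofReal_mul_I_re x

/-- numeric Weyl bound -/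
theorem weyl_num {v s Q t0 : ℕ} {α β : ℝ} (hs : 1 ≤ s) (hQ : 1 ≤ Q) (hv1 : 8 * s ≤ v)
    (hv2 : v ≤ Q * (8 * s)) (hlog : 1 + Real.log s ≤ Q) (hα : α = 1 / v ∨ α = 2 / v) :
    ‖∑ j ∈ range s, u (2 * π * (α * ((t0 + j : ℕ) : ℝ) ^ 2) + β * ((t0 + j : ℕ) : ℝ))‖ ≤
      3 * Real.sqrt s * Q := by
  have hv0 : (0:ℝ) < v := by
    have : 0 < v := by omega
    exact_mod_cast this
  have hs0 : (1:ℝ) ≤ s := by exact_mod_cast hs
  have hQ0 : (1:ℝ) ≤ Q := by exact_mod_cast hQ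
  have hv1' : (8:ℝ) * s ≤ v := by exact_mod_cast hv1
  have hv2' : (v:ℝ) ≤ Q * (8 * s) := by exact_mod_cast hv2
  have hα0 : 0 < α := by
    rcases hα with h | h <;> rw [h] <;> positivity
  have hα1 : 1 / v ≤ α := by
    rcases hα with h | h
    · rw [h]
    · rw [h]
      apply div_le_div_of_nonneg_right (by norm_num) hv0.le
  have hα2 : α ≤ 2 / v := by
    rcases hα with h | h
    · rw [h]
      apply div_le_div_of_nonneg_right (by norm_num) hv0.le
    · rw [h]
  have h4 : 4 * α * s ≤ 1 := by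
    calc 4 * α * s ≤ 4 * (2 / v) * s := by
          apply mul_le_mul_of_nonneg_right _ (by positivity)
          linarith
      _ = (8 * s) / v := by ring
      _ ≤ 1 := by rw [div_le_one hv0]; exact hv1'
  have h := weyl_shift (β := β) t0 hα0 hs h4
  have hlog0 : 0 ≤ Real.log s := Real.log_nonneg hs0
  have h5 : (1 + Real.log s) / (2 * α) ≤ 4 * s * Q ^ 2 := by
    rw [div_le_iff₀ (by positivity)]
    have h6 : 1 ≤ α * v := by
      rw [div_le_iff₀ hv0] at hα1
      exact hα1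
    have h7 : α * v ≤ α * (Q * (8 * s)) := mul_le_mul_of_nonneg_left hv2' hα0.le
    have h8 : (1:ℝ) ≤ α * (Q * (8 * s)) := h6.trans h7
    calc 1 + Real.log s ≤ Q * 1 := by rw [mul_one]; exact hlog
      _ ≤ Q * (α * (Q * (8 * s))) := mul_le_mul_of_nonneg_left h8 (by positivity)
      _ = 4 * s * Q ^ 2 * (2 * α) := by ring
  have h9 : (s:ℝ) + (1 + Real.log s) / (2 * α) ≤ (3 * Real.sqrt s * Q) ^ 2 := by
    have e : (3 * Real.sqrt s * Q) ^ 2 = 9 * s * Q ^ 2 := by
      rw [mul_pow, mul_pow, Real.sq_sqrt (by positivity)]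
      norm_num
    rw [e]
    have : (s:ℝ) ≤ s * Q ^ 2 := by
      have : (1:ℝ) ≤ Q ^ 2 := one_le_pow₀ hQ0
      nlinarith
    nlinarith
  exact abs_le_of_sq_le_sq' (h.trans h9) (by positivity) |>.2

/-- The polynomial `P`, the height `L` and the truncated polynomial `G`. -/
theorem core1 {p : ℝ} (hp : 0 < p) (hp2 : p < 2) {J s m : ℕ} (hJ : 2 ≤ J * p) (hs : 1 ≤ s)
    (hm1 : 1 ≤ m) (hm : 8 * s ≤ 2 ^ m) (hlog : 1 + Real.log s ≤ ((2 * m + 1 : ℕ) : ℝ))
    (hbig : 26 * ((2 * m + 1 : ℕ) : ℝ) ≤ Real.sqrt s) :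
    ∃ (P : Polynomial ℝ) (L : ℝ) (G : Polynomial ℂ), 0 < L ∧ P.natDegree < (2 * J + 1) * s ∧
      (∀ j, 0 ≤ P.coeff j) ∧ (∀ j, G.coeff j = ((min (P.coeff j) L : ℝ) : ℂ)) ∧
      Real.sqrt s / (96 * ((2 * m + 1 : ℕ) : ℝ) ^ 2) ≤
        (∫ θ in (0:ℝ)..(2 * π), ‖G.eval (Complex.exp (θ * Complex.I))‖) ∧
      M2 G ≤ 2 * π * ((2 * J + 1) * s * ((2 * m + 1 : ℕ) : ℝ) ^ 2) ∧
      Jc p (P.map (algebraMap ℝ ℂ)) ≤
        ((2 * m + 1 : ℕ) : ℝ) ^ 6 * (J + 1) ^ 2 * (2 * π) * (s:ℝ) ^ p / s := by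
  obtain ⟨S, q, f, v, hScard, hq, hf, hf1, hv1, hv2, hz⟩ :=
    exists_seq (X := 8 * s) (m := m) (by omega) hm1 hm
  set Q : ℕ := 2 * m + 1 with hQ
  have hQ1 : 1 ≤ Q := by omega
  have hQR : (1:ℝ) ≤ Q := by exact_mod_cast hQ1
  have hsR : (1:ℝ) ≤ s := by exact_mod_cast hs
  have hs0 : (0:ℝ) < s := by linarith
  have hpi := Real.pi_pos
  set σ := Real.sqrt s with hσ
  have hσ2 : σ ^ 2 = s := Real.sq_sqrt hs0.le
  have hσ0 : 0 < σ := Real.sqrt_pos.2 hs0
  set a : ℕ → ℝ := fun j => ∑ i ∈ S, f i j with ha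
  have ha0 : ∀ j, 0 ≤ a j := fun j => Finset.sum_nonneg fun i _ => (hf1 i j).1
  have haQ : ∀ j, a j ≤ Q := by
    intro j
    have h1 := Finset.sum_le_card_nsmul S (fun i => f i j) 1 (fun i _ => (hf1 i j).2.le)
    rw [nsmul_eq_mul, mul_one] at h1
    have h2 : (S.card : ℝ) ≤ Q := by exact_mod_cast hScard
    exact h1.trans h2
  set M : ℕ := (J + 1) * s with hM
  set N : ℕ := (2 * J + 1) * s with hN
  set t0 : ℕ := J * s with ht0
  have hMs : M = J * s + s := by rw [hM]; ring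
  have hNs : N = J * s + s + J * s := by rw [hN]; ring
  have hM1 : 1 ≤ M := by omega
  set κ : ℕ → ℝ := fun j => (V M s J).coeff j with hκ
  have hκ01 : ∀ j, 0 ≤ κ j ∧ κ j ≤ 1 := fun j => V_coeff_mem M hs J j
  have hκ1 : ∀ j, t0 ≤ j → j < t0 + s → κ j = 1 := by
    intro j h1 h2
    exact V_coeff_one M hs J j (by omega) (by omega)
  have hVdeg : (V M s J).natDegree < N := by
    have := V_natDegree hM1 hs J
    omega
  have hκ0 : ∀ j, N ≤ j → κ j = 0 := by
    intro j hj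
    exact Polynomial.coeff_eq_zero_of_natDegree_lt (by omega)
  -- the polynomial P
  set P : Polynomial ℝ := ∑ j ∈ range N, Polynomial.monomial j (κ j * a j) with hP
  have hPc : ∀ j, P.coeff j = κ j * a j := by
    intro j
    rw [hP, Polynomial.finsetSum_coeff]
    simp_rw [Polynomial.coeff_monomial]
    rw [Finset.sum_ite_eq' (range N) j fun i => κ i * a i]
    split_ifs with h
    · rfl
    · rw [Finset.mem_range, not_lt] at h
      rw [hκ0 j h, zero_mul]
  have hPdeg : P.natDegree < N := by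
    have h1 : P.natDegree ≤ N - 1 := by
      rw [Polynomial.natDegree_le_iff_coeff_eq_zero]
      intro k hk
      rw [hPc, hκ0 k (by omega), zero_mul]
    omega
  have hPnn : ∀ j, 0 ≤ P.coeff j := fun j => by
    rw [hPc]; exact mul_nonneg (hκ01 j).1 (ha0 j)
  have hPQ : ∀ j, P.coeff j ≤ Q := fun j => by
    rw [hPc]
    calc κ j * a j ≤ 1 * a j := mul_le_mul_of_nonneg_right (hκ01 j).2 (ha0 j)
      _ ≤ Q := by rw [one_mul]; exact haQ j
  -- cosines
  have hcos : ∀ j : ℕ, ∀ k : ℕ, Real.cos (2 * π * k * a j) = Real.cos (2 * π * (k / v * (j:ℝ) ^ 2)) := by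
    intro j k
    obtain ⟨z, hz⟩ := hz j
    have h1 : a j = (j:ℝ) ^ 2 / v + z := hz
    have h2 : 2 * π * k * a j = 2 * π * (k / v * (j:ℝ) ^ 2) + ((k * z : ℤ) : ℝ) * (2 * π) := by
      rw [h1]
      push_cast
      ring
    rw [h2, Real.cos_add_int_mul_two_pi]
  have hWre : ∀ (k : ℕ), (k = 1 ∨ k = 2) →
      |∑ j ∈ range s, Real.cos (2 * π * k * a (t0 + j))| ≤ 3 * σ * Q := by
    intro k hk
    have hα : ((k:ℝ) / v = 1 / v) ∨ ((k:ℝ) / v = 2 / v) := by
      rcases hk with h | h <;> rw [h]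
      · left; norm_num
      · right; norm_num
    have h1 := weyl_num (t0 := t0) (β := 0) hs hQ1 hv1 hv2 hlog hα
    have h2 : (∑ j ∈ range s, u (2 * π * ((k:ℝ) / v * ((t0 + j : ℕ) : ℝ) ^ 2) +
        0 * ((t0 + j : ℕ) : ℝ))).re = ∑ j ∈ range s, Real.cos (2 * π * k * a (t0 + j)) := by
      rw [Complex.re_sum]
      refine Finset.sum_congr rfl fun j _ => ?_
      rw [re_u, hcos, zero_mul, add_zero]
    rw [← h2]
    exact (Complex.abs_re_le_norm _).trans h1
  -- the test sequence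
  set h : ℕ → ℝ := fun j => if t0 ≤ j ∧ j < t0 + s then Real.cos (2 * π * a j) else 0 with hh
  have hNw : t0 + s ≤ N := by omega
  have hsup : ∀ θ : ℝ, ‖∑ j ∈ range N, (h j : ℂ) * u θ ^ j‖ ≤ 3 * σ * Q := by
    intro θ
    have e1 : ∑ j ∈ range N, (h j : ℂ) * u θ ^ j =
        ∑ j ∈ range s, ((Real.cos (2 * π * a (t0 + j)) : ℝ) : ℂ) * u θ ^ (t0 + j) := by
      rw [← sum_window N t0 s hNw (fun j => ((Real.cos (2 * π * a j) : ℝ) : ℂ) * u θ ^ j)]
      refine Finset.sum_congr rfl fun j _ => ?_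
      rw [hh]
      simp only
      split_ifs
      · rfl
      · simp
    have e2 : ∀ j : ℕ, ((Real.cos (2 * π * a j) : ℝ) : ℂ) * u θ ^ j =
        (u (2 * π * (1 / v * (j:ℝ) ^ 2) + θ * j) +
          (starRingEnd ℂ) (u (2 * π * (1 / v * (j:ℝ) ^ 2) + (-θ) * j))) / 2 := by
      intro j
      have h1 := hcos j 1
      rw [Nat.cast_one, mul_one] at h1
      rw [h1, cos_eq_u, conj_u, ← u_natMul]
      have h3 : u (2 * π * (1 / v * (j:ℝ) ^ 2) + θ * j) =
          u (2 * π * (1 / v * (j:ℝ) ^ 2)) * u (j * θ) := by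
        rw [← u_add]; congr 1; ring
      have h4 : u (-(2 * π * (1 / v * (j:ℝ) ^ 2) + (-θ) * j)) =
          u (-(2 * π * (1 / v * (j:ℝ) ^ 2))) * u (j * θ) := by
        rw [← u_add]; congr 1; ring
      rw [h3, h4]
      ring
    rw [e1]
    simp_rw [e2]
    rw [← Finset.sum_div, Finset.sum_add_distrib, ← map_sum, norm_div, Complex.norm_two]
    have h5 := weyl_num (t0 := t0) (β := θ) hs hQ1 hv1 hv2 hlog (Or.inl rfl)
    have h6 := weyl_num (t0 := t0) (β := -θ) hs hQ1 hv1 hv2 hlog (Or.inl rfl)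
    rw [div_le_iff₀ (by norm_num)]
    refine (norm_add_le _ _).trans ?_
    rw [Complex.norm_conj]
    linarith
  -- c(L)
  set c : ℝ → ℝ := fun L => ∑ j ∈ range N, min (P.coeff j) L * h j with hc
  have hcw : ∀ L, c L = ∑ j ∈ range s, min (a (t0 + j)) L * Real.cos (2 * π * a (t0 + j)) := by
    intro L
    rw [hc]
    simp only
    rw [← sum_window N t0 s hNw (fun j => min (a j) L * Real.cos (2 * π * a j))]
    refine Finset.sum_congr rfl fun j _ => ?_
    rw [hh]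
    simp only
    split_ifs with h1
    · rw [hPc, hκ1 j h1.1 h1.2, one_mul]
    · rw [mul_zero]
  have hc0 : c 0 = 0 := by
    rw [hcw]
    apply Finset.sum_eq_zero
    intro j _
    rw [min_eq_right (ha0 _), zero_mul]
  have hsumc : ∑ k ∈ range (Q + 1), (-c k + 2 * c (k + 1 / 2) - c (k + 1)) =
      ∑ j ∈ range s, min (Int.fract (a (t0 + j))) (1 - Int.fract (a (t0 + j))) *
        Real.cos (2 * π * a (t0 + j)) := by
    simp_rw [hcw]
    have e1 : ∀ k ∈ range (Q + 1), (-(∑ j ∈ range s, min (a (t0 + j)) k * Real.cos (2 * π * a (t0 + j))) +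
        2 * (∑ j ∈ range s, min (a (t0 + j)) (k + 1 / 2) * Real.cos (2 * π * a (t0 + j))) -
        ∑ j ∈ range s, min (a (t0 + j)) (k + 1) * Real.cos (2 * π * a (t0 + j))) =
        ∑ j ∈ range s, hat k (a (t0 + j)) * Real.cos (2 * π * a (t0 + j)) := by
      intro k _
      rw [Finset.mul_sum, ← Finset.sum_neg_distrib, ← Finset.sum_add_distrib,
        ← Finset.sum_sub_distrib]
      refine Finset.sum_congr rfl fun j _ => ?_
      unfold hat
      ring
    rw [Finset.sum_congr rfl e1, Finset.sum_comm]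
    refine Finset.sum_congr rfl fun j _ => ?_
    rw [← Finset.sum_mul, sum_hat (ha0 _)]
    have := haQ (t0 + j)
    push_cast
    linarith
  have hDsum : s / (8 * π) ≤ |∑ k ∈ range (Q + 1), (-c k + 2 * c (k + 1 / 2) - c (k + 1))| := by
    rw [hsumc]
    have h1 : ∑ j ∈ range s, min (Int.fract (a (t0 + j))) (1 - Int.fract (a (t0 + j))) *
        Real.cos (2 * π * a (t0 + j)) ≤ ∑ j ∈ range s, (1 / 4 * Real.cos (2 * π * a (t0 + j)) -
          1 / (2 * π) * Real.cos (2 * π * a (t0 + j)) ^ 2) :=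
      Finset.sum_le_sum fun j _ => key_ineq _
    have h2 : ∀ j ∈ range s, (1 / 4 * Real.cos (2 * π * a (t0 + j)) -
          1 / (2 * π) * Real.cos (2 * π * a (t0 + j)) ^ 2) =
        1 / 4 * Real.cos (2 * π * (1:ℕ) * a (t0 + j)) - 1 / (4 * π) -
          1 / (4 * π) * Real.cos (2 * π * (2:ℕ) * a (t0 + j)) := by
      intro j _
      have h3 : 2 * π * (2:ℕ) * a (t0 + j) = 2 * (2 * π * a (t0 + j)) := by push_cast; ring
      have h4 : 2 * π * (1:ℕ) * a (t0 + j) = 2 * π * a (t0 + j) := by push_cast; ring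
      rw [h3, h4, Real.cos_two_mul]
      field_simp
      ring
    rw [Finset.sum_congr rfl h2, Finset.sum_sub_distrib, Finset.sum_sub_distrib, ← Finset.mul_sum,
      ← Finset.mul_sum, Finset.sum_const, Finset.card_range, nsmul_eq_mul] at h1
    have w1 := abs_le.1 (hWre 1 (Or.inl rfl))
    have w2 := abs_le.1 (hWre 2 (Or.inr rfl))
    have h5 : 1 / (4 * π) * (-∑ j ∈ range s, Real.cos (2 * π * (2:ℕ) * a (t0 + j))) ≤
        1 / 12 * (3 * σ * Q) := by
      have hpi3 : 3 < π := Real.pi_gt_three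
      have h6 : 1 / (4 * π) ≤ 1 / 12 := by
        apply one_div_le_one_div_of_le (by norm_num)
        linarith
      calc 1 / (4 * π) * (-∑ j ∈ range s, Real.cos (2 * π * (2:ℕ) * a (t0 + j)))
          ≤ 1 / (4 * π) * (3 * σ * Q) := by
            apply mul_le_mul_of_nonneg_left _ (by positivity)
            linarith [w2.1]
        _ ≤ 1 / 12 * (3 * σ * Q) := mul_le_mul_of_nonneg_right h6 (by positivity)
    have h7 : σ * Q ≤ s / (8 * π) := by
      rw [le_div_iff₀ (by positivity)]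
      have hpi4 : π < 3.15 := Real.pi_lt_d2
      have h8 : 26 * (Q:ℝ) ≤ σ := hbig
      have h9 : 8 * π ≤ 26 := by linarith
      calc σ * Q * (8 * π) ≤ σ * Q * 26 := mul_le_mul_of_nonneg_left h9 (by positivity)
        _ = σ * (26 * Q) := by ring
        _ ≤ σ * σ := mul_le_mul_of_nonneg_left h8 hσ0.le
        _ = s := by rw [← hσ2]; ring
    have h10 : (s:ℝ) * (1 / (4 * π)) = s / (8 * π) + s / (8 * π) := by
      field_simp
      ring
    have h11 : ∑ j ∈ range s, min (Int.fract (a (t0 + j))) (1 - Int.fract (a (t0 + j))) *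
        Real.cos (2 * π * a (t0 + j)) ≤ -(s / (8 * π)) := by
      have w12 := w1.2
      generalize (∑ j ∈ range s, min (Int.fract (a (t0 + j))) (1 - Int.fract (a (t0 + j))) *
        Real.cos (2 * π * a (t0 + j))) = SS at h1 ⊢
      generalize (∑ j ∈ range s, Real.cos (2 * π * ((1:ℕ):ℝ) * a (t0 + j))) = C1 at h1 w12
      generalize (∑ j ∈ range s, Real.cos (2 * π * ((2:ℕ):ℝ) * a (t0 + j))) = C2 at h1 h5
      have h12 : 1 / (4 * π) * (-C2) = -(1 / (4 * π) * C2) := by ring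
      rw [h12] at h5
      rw [h10] at h1
      have h13 : 3 * σ * Q = 3 * (σ * Q) := by ring
      rw [h13] at h5 w12
      linarith
    rw [abs_of_nonpos]
    · linarith
    · have : 0 ≤ (s:ℝ) / (8 * π) := by positivity
      linarith
  obtain ⟨L, hL0, hL⟩ := exists_level (K := Q + 1) (by omega) c (D := s / (8 * π)) (by positivity)
    hc0 hDsum
  have hcL : s / (64 * π * Q) ≤ |c L| := by
    refine le_trans ?_ hL
    rw [div_div]
    apply div_le_div_of_nonneg_left hs0.le (by positivity)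
    push_cast
    nlinarith
  -- G
  set G : Polynomial ℂ := ∑ j ∈ range N, Polynomial.monomial j ((min (P.coeff j) L : ℝ) : ℂ) with hG
  have hGc : ∀ j, G.coeff j = ((min (P.coeff j) L : ℝ) : ℂ) := by
    intro j
    rw [hG, Polynomial.finsetSum_coeff]
    simp_rw [Polynomial.coeff_monomial]
    rw [Finset.sum_ite_eq' (range N) j fun i => ((min (P.coeff i) L : ℝ) : ℂ)]
    split_ifs with h1
    · rfl
    · rw [Finset.mem_range, not_lt] at h1
      rw [hPc, hκ0 j h1, zero_mul, min_eq_left hL0.le]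
      simp
  have hGdeg : G.natDegree < N := by
    have h1 : G.natDegree ≤ N - 1 := by
      rw [Polynomial.natDegree_le_iff_coeff_eq_zero]
      intro k hk
      rw [hGc, hPc, hκ0 k (by omega), zero_mul, min_eq_left hL0.le]
      simp
    omega
  set A0 : ℝ := σ / (96 * Q ^ 2) with hA0
  have hA0pos : 0 < A0 := by positivity
  have hint : A0 ≤ ∫ θ in (0:ℝ)..(2 * π), ‖G.eval (Complex.exp (θ * Complex.I))‖ := by
    have h1 := int_lower N (fun j => min (P.coeff j) L) h hsup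
    have h2 : ∀ θ : ℝ, G.eval (Complex.exp (θ * Complex.I)) =
        ∑ j ∈ range N, ((min (P.coeff j) L : ℝ) : ℂ) * u θ ^ j := by
      intro θ
      rw [eval_u N G hGdeg]
      refine Finset.sum_congr rfl fun j _ => ?_
      rw [hGc]
    simp_rw [h2]
    set I := ∫ θ in (0:ℝ)..(2 * π), ‖∑ j ∈ range N, ((min (P.coeff j) L : ℝ) : ℂ) * u θ ^ j‖ with hI
    have h3 : 2 * π * |c L| ≤ 3 * σ * Q * I := h1
    have h4 : 2 * π * (s / (64 * π * Q)) ≤ 3 * σ * Q * I :=
      (mul_le_mul_of_nonneg_left hcL (by positivity)).trans h3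
    have h5 : 2 * π * (s / (64 * π * Q)) = 3 * σ * Q * A0 := by
      rw [hA0, ← hσ2]
      field_simp
      norm_num
    rw [h5] at h4
    exact le_of_mul_le_mul_left h4 (by positivity)
  set b : ℝ := 2 * π * ((2 * J + 1) * s * Q ^ 2) with hb
  have hbpos : 0 < b := by positivity
  have hM2G : M2 G ≤ b := by
    rw [M2_eq hGdeg, hb]
    apply mul_le_mul_of_nonneg_left _ (by positivity)
    have h1 : ∀ j ∈ range N, ‖G.coeff j‖ ^ 2 ≤ (Q:ℝ) ^ 2 := by
      intro j _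
      rw [hGc, Complex.norm_real, Real.norm_eq_abs, abs_of_nonneg (le_min (hPnn j) hL0.le)]
      apply pow_le_pow_left₀ (le_min (hPnn j) hL0.le)
      exact (min_le_left _ _).trans (hPQ j)
    refine (Finset.sum_le_card_nsmul _ _ _ h1).trans (le_of_eq ?_)
    rw [Finset.card_range, nsmul_eq_mul, hN]
    push_cast
    ring
  have hQ2 : (1:ℝ) ≤ Q ^ 2 := one_le_pow₀ hQR
  have hJ0 : (0:ℝ) ≤ J := Nat.cast_nonneg J
  have hJP : Jc p (P.map (algebraMap ℝ ℂ)) ≤ Q ^ 6 * (J + 1) ^ 2 * (2 * π) * (s:ℝ) ^ p / s := by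
    have h1 := Jc_P_le hp (Vc M s J) (P.map (algebraMap ℝ ℂ)) (N := N)
      (lt_of_le_of_lt Polynomial.natDegree_map_le hVdeg)
      (lt_of_le_of_lt Polynomial.natDegree_map_le hPdeg) S q f (Q := Q) hScard hq hf
      (fun i j => by rw [abs_of_nonneg (hf1 i j).1]; exact (hf1 i j).2.le)
      (fun j => by
        unfold Vc
        rw [Polynomial.coeff_map, Polynomial.coeff_map, hPc]
        have : (algebraMap ℝ ℂ) (κ j * a j) = ((κ j * a j : ℝ) : ℂ) := rfl
        rw [this, Complex.ofReal_mul]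
        rfl)
    have h2 := Jc_V_le hp (M := M) (s := s) (k := J) hs hJ
    have h3 : ((Q:ℝ) ^ 2) ^ p ≤ Q ^ 4 := by
      calc ((Q:ℝ) ^ 2) ^ p ≤ ((Q:ℝ) ^ 2) ^ (2:ℝ) := Real.rpow_le_rpow_of_exponent_le hQ2 hp2.le
        _ = Q ^ 4 := by rw [Real.rpow_two]; ring
    have h4 : (M:ℝ) ^ p ≤ (J + 1) ^ 2 * (s:ℝ) ^ p := by
      have : (M:ℝ) = (J + 1) * s := by rw [hM]; push_cast; ring
      rw [this, Real.mul_rpow (by positivity) hs0.le]
      apply mul_le_mul_of_nonneg_right _ (by positivity)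
      calc ((J:ℝ) + 1) ^ p ≤ ((J:ℝ) + 1) ^ (2:ℝ) :=
            Real.rpow_le_rpow_of_exponent_le (by linarith) hp2.le
        _ = _ := Real.rpow_two _
    calc Jc p (P.map (algebraMap ℝ ℂ)) ≤ ((Q:ℝ) ^ 2) ^ p * ((Q:ℝ) ^ 2 * Jc p (Vc M s J)) := h1
      _ ≤ Q ^ 4 * ((Q:ℝ) ^ 2 * ((J + 1) ^ 2 * (s:ℝ) ^ p * (2 * π / s))) := by
          apply mul_le_mul h3 _ _ (by positivity)
          · apply mul_le_mul_of_nonneg_left _ (by positivity)
            exact h2.trans (mul_le_mul_of_nonneg_right h4 (by positivity))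
          · have := Jc_nonneg (p := p) (Vc M s J)
            positivity
      _ = _ := by ring
  exact ⟨P, L, G, hL0, hPdeg, hPnn, hGc, hint, hM2G, hJP⟩

theorem core {p : ℝ} (hp : 0 < p) (hp2 : p < 2) {J s m n : ℕ} (hJ : 2 ≤ J * p) (hs : 1 ≤ s)
    (hm1 : 1 ≤ m) (hm : 8 * s ≤ 2 ^ m) (hlog : 1 + Real.log s ≤ ((2 * m + 1 : ℕ) : ℝ))
    (hbig : 26 * ((2 * m + 1 : ℕ) : ℝ) ≤ Real.sqrt s) (hn : (2 * J + 1) * s ≤ n) :
    ENNReal.ofReal (((s:ℝ) ^ (1 - p / 2) /
      ((147456 * π * (2 * J + 1)) * (2 * π * (J + 1) ^ 2) * ((2 * m + 1 : ℕ) : ℝ) ^ 12)) ^ (1 / p)) ≤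
      NReal n p := by
  obtain ⟨P, L, G, hL0, hPdeg, hPnn, hGc, hint, hM2G, hJP⟩ := core1 hp hp2 hJ hs hm1 hm hlog hbig
  set Q : ℕ := 2 * m + 1 with hQ
  have hQ1 : 1 ≤ Q := by omega
  have hQR : (1:ℝ) ≤ Q := by exact_mod_cast hQ1
  have hsR : (1:ℝ) ≤ s := by exact_mod_cast hs
  have hs0 : (0:ℝ) < s := by linarith
  have hpi := Real.pi_pos
  set σ := Real.sqrt s with hσ
  have hσ2 : σ ^ 2 = s := Real.sq_sqrt hs0.le
  have hσ0 : 0 < σ := Real.sqrt_pos.2 hs0
  set A0 : ℝ := σ / (96 * Q ^ 2) with hA0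
  have hA0pos : 0 < A0 := by positivity
  set b : ℝ := 2 * π * ((2 * J + 1) * s * Q ^ 2) with hb
  have hbpos : 0 < b := by positivity
  set A : ℝ := 768 * π * (2 * J + 1) * Q ^ 4 * σ ^ (1 - p) with hA
  have hσp : 0 < σ ^ (1 - p) := Real.rpow_pos_of_pos hσ0 _
  have hQ2 : (1:ℝ) ≤ Q ^ 2 := one_le_pow₀ hQR
  have hQ24 : (Q:ℝ) ^ 2 ≤ Q ^ 4 := pow_le_pow_right₀ hQR (by norm_num)
  have hJ0 : (0:ℝ) ≤ J := Nat.cast_nonneg J
  have hpi1 : (1:ℝ) ≤ π := by linarith [Real.pi_gt_three]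
  have hAbig1 : (A0 / (8 * π)) ^ (1 - p) ≤ A := by
    have e1 : A0 / (8 * π) = σ * (768 * π * Q ^ 2)⁻¹ := by
      rw [hA0]; field_simp; norm_num
    have hB1 : (1:ℝ) ≤ 768 * π * Q ^ 2 := by nlinarith
    rw [e1, Real.mul_rpow hσ0.le (by positivity), Real.inv_rpow (by positivity),
      ← Real.rpow_neg (by positivity)]
    have h1 : (768 * π * (Q:ℝ) ^ 2) ^ (-(1 - p)) ≤ 768 * π * (Q:ℝ) ^ 2 := by
      calc (768 * π * (Q:ℝ) ^ 2) ^ (-(1 - p)) ≤ (768 * π * (Q:ℝ) ^ 2) ^ (1:ℝ) :=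
            Real.rpow_le_rpow_of_exponent_le hB1 (by linarith)
        _ = _ := Real.rpow_one _
    have h2 : 768 * π * (Q:ℝ) ^ 2 ≤ 768 * π * (2 * J + 1) * Q ^ 4 := by
      calc 768 * π * (Q:ℝ) ^ 2 = 768 * π * 1 * Q ^ 2 := by ring
        _ ≤ 768 * π * (2 * J + 1) * Q ^ 4 := by
          apply mul_le_mul _ hQ24 (by positivity) (by positivity)
          apply mul_le_mul_of_nonneg_left _ (by positivity)
          linarith
    calc σ ^ (1 - p) * (768 * π * (Q:ℝ) ^ 2) ^ (-(1 - p))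
        ≤ σ ^ (1 - p) * (768 * π * (2 * J + 1) * Q ^ 4) :=
          mul_le_mul_of_nonneg_left (h1.trans h2) hσp.le
      _ = A := by rw [hA]; ring
  have hAbig2 : (4 * b / A0) ^ (1 - p) ≤ A := by
    have e1 : 4 * b / A0 = σ * (768 * π * (2 * J + 1) * Q ^ 4) := by
      rw [hA0, hb, ← hσ2]; field_simp; norm_num
    have hB1 : (1:ℝ) ≤ 768 * π * (2 * J + 1) * Q ^ 4 := by
      have h1 : (1:ℝ) ≤ 768 * π := by linarith
      have h2 : (1:ℝ) ≤ 2 * J + 1 := by linarith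
      have h3 : (1:ℝ) ≤ Q ^ 4 := one_le_pow₀ hQR
      exact one_le_mul_of_one_le_of_one_le (one_le_mul_of_one_le_of_one_le h1 h2) h3
    rw [e1, Real.mul_rpow hσ0.le (by positivity)]
    have h1 : (768 * π * (2 * J + 1) * (Q:ℝ) ^ 4) ^ (1 - p) ≤ 768 * π * (2 * J + 1) * (Q:ℝ) ^ 4 := by
      calc (768 * π * (2 * J + 1) * (Q:ℝ) ^ 4) ^ (1 - p) ≤
            (768 * π * (2 * J + 1) * (Q:ℝ) ^ 4) ^ (1:ℝ) :=
            Real.rpow_le_rpow_of_exponent_le hB1 (by linarith)
        _ = _ := Real.rpow_one _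
    calc σ ^ (1 - p) * (768 * π * (2 * J + 1) * (Q:ℝ) ^ 4) ^ (1 - p)
        ≤ σ ^ (1 - p) * (768 * π * (2 * J + 1) * Q ^ 4) :=
          mul_le_mul_of_nonneg_left h1 hσp.le
      _ = A := by rw [hA]; ring
  have hJG := Jc_lower hp G hA0pos hbpos hAbig1 hAbig2 hint hM2G
  have hJGval : A0 / (2 * A) = σ ^ p / (147456 * π * (2 * J + 1) * Q ^ 6) := by
    have e1 : σ ^ p = σ / σ ^ (1 - p) := by
      rw [eq_div_iff hσp.ne', ← Real.rpow_add hσ0]
      have : p + (1 - p) = 1 := by ring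
      rw [this, Real.rpow_one]
    rw [e1, hA0, hA]
    field_simp
    norm_num
  rw [hJGval] at hJG
  -- conclusion
  have hsp : 0 < (s:ℝ) ^ p := Real.rpow_pos_of_pos hs0 _
  have hσpp : 0 < σ ^ p := Real.rpow_pos_of_pos hσ0 _
  apply ratio_lower hp (P := P) (by omega) hPnn hL0 hGc
  · positivity
  · have h1 : (s:ℝ) ^ (1 - p / 2) = σ ^ p * (s / s ^ p) := by
      have e1 : σ ^ p = (s:ℝ) ^ (p / 2) := by
        rw [hσ, Real.sqrt_eq_rpow, ← Real.rpow_mul hs0.le]
        congr 1; ring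
      rw [e1, mul_div_assoc', eq_div_iff hsp.ne', ← Real.rpow_add hs0]
      have e2 : (s:ℝ) ^ (p / 2) * s = (s:ℝ) ^ (p / 2 + 1) := by
        rw [Real.rpow_add hs0, Real.rpow_one]
      rw [e2]
      congr 1; ring
    calc (s:ℝ) ^ (1 - p / 2) / (147456 * π * (2 * J + 1) * (2 * π * (J + 1) ^ 2) * (Q:ℝ) ^ 12) *
          Jc p (P.map (algebraMap ℝ ℂ))
        ≤ (s:ℝ) ^ (1 - p / 2) / (147456 * π * (2 * J + 1) * (2 * π * (J + 1) ^ 2) * (Q:ℝ) ^ 12) *
          (Q ^ 6 * (J + 1) ^ 2 * (2 * π) * (s:ℝ) ^ p / s) :=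
          mul_le_mul_of_nonneg_left hJP (by positivity)
      _ = σ ^ p / (147456 * π * (2 * J + 1) * Q ^ 6) := by
          rw [h1]
          field_simp
      _ ≤ Jc p G := hJG
  · refine lt_of_lt_of_le ?_ hJG
    positivity

end Pool.Agent.CTR6
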