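import Pool.Agent.CTR6.Lower

/-!
# The order of growth up to powers of the logarithm
-/

open MeasureTheory Real Finset Filter
open Pool.Agent.Lib_helper21.CoeffTrunc

namespace Pool.Agent.CTR6

theorem one_le_NReal {p : ℝ} (hp : 0 < p) (n : ℕ) : 1 ≤ NReal n p := by
  have htr : trunc n ((1 : Polynomial ℝ).map (algebraMap ℝ ℂ)) = 1 := by
    ext j
    rw [trunc_coeff, Polynomial.map_one, Polynomial.coeff_one]
    by_cases hj : j = 0
    · subst hj
      rw [if_pos (Nat.zero_le _), if_pos rfl]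
      unfold clip
      rw [norm_one]
      simp
    · simp only [if_neg hj]
      have h0 : clip 0 = 0 := by
        unfold clip
        simp
      rw [h0]
      simp
  have hJ : Jc p 1 = 2 * π := by
    unfold Jc
    simp
  have hc : circleNorm p 1 = (2 * π) ^ (1 / p) := by
    have : circleNorm p 1 = (Jc p 1) ^ (1 / p) := rfl
    rw [this, hJ]
  have h1 : circleNorm p (trunc n ((1 : Polynomial ℝ).map (algebraMap ℝ ℂ))) /
      circleNorm p ((1 : Polynomial ℝ).map (algebraMap ℝ ℂ)) = 1 := by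
    rw [htr, Polynomial.map_one, hc]
    have : 0 < (2 * π) ^ (1 / p) := Real.rpow_pos_of_pos (by positivity) _
    field_simp
  have h2 : (1 : ENNReal) = ENNReal.ofReal (circleNorm p (trunc n ((1 : Polynomial ℝ).map
      (algebraMap ℝ ℂ))) / circleNorm p ((1 : Polynomial ℝ).map (algebraMap ℝ ℂ))) := by
    rw [h1, ENNReal.ofReal_one]
  rw [h2]
  unfold NReal
  refine le_trans ?_ (le_iSup _ (1 : Polynomial ℝ))
  exact le_iSup₂ (f := fun (_ : (1 : Polynomial ℝ).natDegree ≤ n) (_ : (1 : Polynomial ℝ) ≠ 0) =>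
    ENNReal.ofReal (circleNorm p (trunc n ((1 : Polynomial ℝ).map (algebraMap ℝ ℂ))) /
    circleNorm p ((1 : Polynomial ℝ).map (algebraMap ℝ ℂ)))) (by simp) one_ne_zero

/-- the threshold -/
theorem eventually_big (K : ℝ) (hK : 0 < K) :
    ∀ᶠ n : ℕ in atTop, 416 * Real.log n ≤ Real.sqrt (n / K) := by
  have h1 := (isLittleO_log_rpow_atTop (r := 1 / 2) (by norm_num)).def
    (c := 1 / (416 * Real.sqrt K)) (by positivity)
  have h2 := tendsto_natCast_atTop_atTop (R := ℝ) |>.eventually h1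
  filter_upwards [h2, eventually_ge_atTop 1] with n hn hn1
  have hn0 : (1:ℝ) ≤ n := by exact_mod_cast hn1
  have hlog : 0 ≤ Real.log n := Real.log_nonneg hn0
  rw [Real.norm_of_nonneg hlog, Real.norm_of_nonneg (by positivity), ← Real.sqrt_eq_rpow] at hn
  have hsK : 0 < Real.sqrt K := Real.sqrt_pos.2 hK
  rw [Real.sqrt_div (by positivity)]
  rw [le_div_iff₀ hsK]
  calc 416 * Real.log n * Real.sqrt K ≤ 416 * (1 / (416 * Real.sqrt K) * Real.sqrt n) *
        Real.sqrt K := by
        apply mul_le_mul_of_nonneg_right _ hsK.le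
        exact mul_le_mul_of_nonneg_left hn (by norm_num)
    _ = Real.sqrt n := by field_simp

/-- **The order of growth, up to powers of the logarithm.** -/
theorem growth {p : ℝ} (hp : 0 < p) (hp2 : p < 2) : ∃ c : ℝ, 0 < c ∧ ∀ n : ℕ, 2 ≤ n →
    ENNReal.ofReal (c * (n:ℝ) ^ (1 / p - 1 / 2) / (Real.log n) ^ (12 / p)) ≤ NReal n p := by
  set J : ℕ := ⌈2 / p⌉₊ with hJdef
  have hJ : 2 ≤ J * p := by
    have h1 : 2 / p ≤ J := Nat.le_ceil _
    rw [div_le_iff₀ hp] at h1
    exact h1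
  set KJ : ℝ := 2 * (2 * J + 1) with hKJ
  have hKJ0 : 0 < KJ := by positivity
  have hKJ1 : 1 ≤ KJ := by
    have : (0:ℝ) ≤ J := Nat.cast_nonneg J
    rw [hKJ]; linarith
  set CJ : ℝ := (147456 * π * (2 * J + 1)) * (2 * π * (J + 1) ^ 2) with hCJ
  have hCJ0 : 0 < CJ := by positivity
  obtain ⟨n1, hn1⟩ := eventually_atTop.1 (eventually_big KJ hKJ0)
  set n0 : ℕ := max n1 (2 * (2 * J + 1)) with hn0
  set C' : ℝ := KJ * CJ * 16 ^ 12 with hC'
  have hC'0 : 0 < C' := by positivity
  set c1 : ℝ := (1 / C') ^ (1 / p) with hc1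
  have hc10 : 0 < c1 := Real.rpow_pos_of_pos (by positivity) _
  have hn0pos : (1:ℝ) ≤ n0 := by
    have : 1 ≤ n0 := by
      have := le_max_right n1 (2 * (2 * J + 1))
      omega
    exact_mod_cast this
  have he0 : 0 ≤ 1 / p - 1 / 2 := by
    have : 1 / 2 ≤ 1 / p := one_div_le_one_div_of_le hp hp2.le
    linarith
  set c2 : ℝ := (Real.log 2) ^ (12 / p) / (n0:ℝ) ^ (1 / p - 1 / 2) with hc2
  have hlog2 : 0 < Real.log 2 := Real.log_pos (by norm_num)
  have hc20 : 0 < c2 := by
    have h1 : 0 < (Real.log 2) ^ (12 / p) := Real.rpow_pos_of_pos hlog2 _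
    have h2 : 0 < (n0:ℝ) ^ (1 / p - 1 / 2) := Real.rpow_pos_of_pos (by linarith) _
    exact div_pos h1 h2
  refine ⟨min c1 c2, lt_min hc10 hc20, fun n hn => ?_⟩
  have hnR : (2:ℝ) ≤ n := by exact_mod_cast hn
  have hnpos : (0:ℝ) < n := by linarith
  have hlogn : 0 < Real.log n := Real.log_pos (by linarith)
  have hLp : 0 < (Real.log n) ^ (12 / p) := Real.rpow_pos_of_pos hlogn _
  have hnp : 0 < (n:ℝ) ^ (1 / p - 1 / 2) := Real.rpow_pos_of_pos hnpos _
  rcases lt_or_ge n n0 with hlt | hge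
  · -- small n
    refine le_trans ?_ (one_le_NReal hp n)
    rw [← ENNReal.ofReal_one]
    apply ENNReal.ofReal_le_ofReal
    rw [div_le_one hLp]
    have h1 : (n:ℝ) ^ (1 / p - 1 / 2) ≤ (n0:ℝ) ^ (1 / p - 1 / 2) :=
      Real.rpow_le_rpow hnpos.le (by exact_mod_cast hlt.le) he0
    have h2 : (Real.log 2) ^ (12 / p) ≤ (Real.log n) ^ (12 / p) := by
      apply Real.rpow_le_rpow hlog2.le _ (by positivity)
      exact Real.log_le_log (by norm_num) hnR
    calc min c1 c2 * (n:ℝ) ^ (1 / p - 1 / 2) ≤ c2 * (n0:ℝ) ^ (1 / p - 1 / 2) :=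
          mul_le_mul (min_le_right _ _) h1 hnp.le hc20.le
      _ = (Real.log 2) ^ (12 / p) := by
          rw [hc2]
          have : (0:ℝ) < (n0:ℝ) ^ (1 / p - 1 / 2) := Real.rpow_pos_of_pos (by linarith) _
          field_simp
      _ ≤ _ := h2
  · -- large n
    set s : ℕ := n / (2 * J + 1) with hs
    set lg : ℕ := Nat.log 2 n with hlg
    set m : ℕ := lg + 4 with hm
    have hn2 : 2 * (2 * J + 1) ≤ n := (le_max_right _ _).trans hge
    have hs1 : 1 ≤ s := by
      rw [hs, Nat.le_div_iff_mul_le (by omega)]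
      omega
    have hsn : (2 * J + 1) * s ≤ n := Nat.mul_div_le n (2 * J + 1)
    have hsle : s ≤ n := Nat.div_le_self _ _
    have hslow : (n:ℝ) / KJ ≤ s := by
      have h1 : n < (2 * J + 1) * (s + 1) := by
        have := Nat.lt_mul_div_succ n (show 0 < 2 * J + 1 by omega)
        rw [hs]
        exact this
      have h2 : (2 * J + 1) * (s + 1) ≤ (2 * J + 1) * (2 * s) := Nat.mul_le_mul_left _ (by omega)
      have h3 : (n:ℝ) ≤ (2 * J + 1) * (2 * s) := by exact_mod_cast (h1.le.trans h2)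
      rw [div_le_iff₀ hKJ0, hKJ]
      linarith
    have hpow : n < 2 ^ (lg + 1) := Nat.lt_pow_succ_log_self (by norm_num) n
    have hm8 : 8 * s ≤ 2 ^ m := by
      have : 2 ^ m = 8 * 2 ^ (lg + 1) := by
        rw [hm]; ring
      rw [this]
      omega
    have hs0 : (0:ℝ) < s := by exact_mod_cast hs1
    have hlgle : (lg:ℝ) * Real.log 2 ≤ Real.log n := by
      have h1 : 2 ^ lg ≤ n := Nat.pow_log_le_self 2 (by omega)
      have h2 : ((2:ℝ) ^ lg) ≤ n := by exact_mod_cast h1
      have := Real.log_le_log (by positivity) h2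
      rwa [Real.log_pow] at this
    have hlogsQ : 1 + Real.log s ≤ ((2 * m + 1 : ℕ) : ℝ) := by
      have h1 : Real.log s ≤ Real.log ((2:ℝ) ^ (lg + 1)) := by
        apply Real.log_le_log hs0
        have : s ≤ 2 ^ (lg + 1) := hsle.trans hpow.le
        exact_mod_cast this
      rw [Real.log_pow] at h1
      have h2 : Real.log 2 ≤ 1 := by
        have := Real.log_two_lt_d9
        linarith
      have h3 : ((lg + 1 : ℕ) : ℝ) * Real.log 2 ≤ ((lg + 1 : ℕ) : ℝ) * 1 :=
        mul_le_mul_of_nonneg_left h2 (by positivity)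
      rw [hm]
      push_cast at h1 h3 ⊢
      have : (0:ℝ) ≤ lg := Nat.cast_nonneg _
      linarith
    have hQlog : ((2 * m + 1 : ℕ) : ℝ) ≤ 16 * Real.log n := by
      have h2 : (0.6931471803:ℝ) < Real.log 2 := Real.log_two_gt_d9
      have h3 : Real.log 2 ≤ Real.log n := Real.log_le_log (by norm_num) hnR
      have h4 : (lg:ℝ) * 0.69 ≤ Real.log n := by
        refine le_trans ?_ hlgle
        apply mul_le_mul_of_nonneg_left _ (by positivity)
        linarith
      rw [hm]
      push_cast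
      linarith
    have hbig : 26 * ((2 * m + 1 : ℕ) : ℝ) ≤ Real.sqrt s := by
      have h1 := hn1 n ((le_max_left _ _).trans hge)
      calc 26 * ((2 * m + 1 : ℕ) : ℝ) ≤ 26 * (16 * Real.log n) :=
            mul_le_mul_of_nonneg_left hQlog (by norm_num)
        _ = 416 * Real.log n := by ring
        _ ≤ Real.sqrt (n / KJ) := h1
        _ ≤ Real.sqrt s := Real.sqrt_le_sqrt hslow
    have hcore := core hp hp2 hJ hs1 (by omega : 1 ≤ m) hm8 hlogsQ hbig hsn
    refine le_trans (ENNReal.ofReal_le_ofReal ?_) hcore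
    set Q : ℝ := ((2 * m + 1 : ℕ) : ℝ) with hQ
    have hQ0 : 0 < Q := by positivity
    have h1 : (n:ℝ) ^ (1 - p / 2) / (C' * (Real.log n) ^ 12) ≤
        (s:ℝ) ^ (1 - p / 2) / (CJ * Q ^ 12) := by
      have h2 : (n:ℝ) ^ (1 - p / 2) / KJ ≤ (s:ℝ) ^ (1 - p / 2) := by
        have h3 : ((n:ℝ) / KJ) ^ (1 - p / 2) ≤ (s:ℝ) ^ (1 - p / 2) :=
          Real.rpow_le_rpow (by positivity) hslow (by linarith)
        refine le_trans ?_ h3
        rw [Real.div_rpow hnpos.le hKJ0.le]
        apply div_le_div_of_nonneg_left (by positivity) (by positivity)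
        calc KJ ^ (1 - p / 2) ≤ KJ ^ (1:ℝ) :=
              Real.rpow_le_rpow_of_exponent_le hKJ1 (by linarith)
          _ = KJ := Real.rpow_one _
      have h4 : Q ^ 12 ≤ 16 ^ 12 * (Real.log n) ^ 12 := by
        rw [← mul_pow]
        exact pow_le_pow_left₀ hQ0.le hQlog 12
      calc (n:ℝ) ^ (1 - p / 2) / (C' * (Real.log n) ^ 12)
          = ((n:ℝ) ^ (1 - p / 2) / KJ) / (CJ * (16 ^ 12 * (Real.log n) ^ 12)) := by
            rw [hC', div_div]
            congr 1
            ring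
        _ ≤ (s:ℝ) ^ (1 - p / 2) / (CJ * Q ^ 12) := by
            apply div_le_div₀ (by positivity) h2 (by positivity)
            exact mul_le_mul_of_nonneg_left h4 hCJ0.le
    have h5 := Real.rpow_le_rpow (by positivity) h1 (one_div_nonneg.2 hp.le)
    refine le_trans ?_ h5
    have h6 : ((n:ℝ) ^ (1 - p / 2) / (C' * (Real.log n) ^ 12)) ^ (1 / p) =
        c1 * (n:ℝ) ^ (1 / p - 1 / 2) / (Real.log n) ^ (12 / p) := by
      have e1 : (n:ℝ) ^ (1 - p / 2) / (C' * (Real.log n) ^ 12) =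
          (1 / C') * (n:ℝ) ^ (1 - p / 2) / (Real.log n) ^ (12:ℝ) := by
        have : (Real.log n) ^ (12:ℝ) = (Real.log n) ^ 12 := by
          rw [← Real.rpow_natCast]; norm_num
        rw [this]
        field_simp
      rw [e1, Real.div_rpow (by positivity) (by positivity), Real.mul_rpow (by positivity)
        (by positivity), ← Real.rpow_mul hnpos.le, ← Real.rpow_mul hlogn.le]
      have e2 : (1 - p / 2) * (1 / p) = 1 / p - 1 / 2 := by field_simp
      have e3 : (12:ℝ) * (1 / p) = 12 / p := by ring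
      rw [e2, e3]
    rw [h6]
    apply div_le_div_of_nonneg_right _ hLp.le
    exact mul_le_mul_of_nonneg_right (min_le_left _ _) hnp.le

end Pool.Agent.CTR6
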