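import Pool.Agent.CTR6.Kernel

/-!
# Multipliers of trigonometric polynomials with small norm, Bernstein approximation of the
truncation
-/

open MeasureTheory Real Finset
open Pool.Agent.Lib_helper21.CoeffTrunc

namespace Pool.Agent.CTR6

/-- The trigonometric polynomial with the coefficients `a j`, `j < N`. -/
noncomputable def F (N : ℕ) (a : ℕ → ℂ) (θ : ℝ) : ℂ := ∑ j ∈ range N, a j * u θ ^ j

/-- The integral of its `p`-th power. -/
noncomputable def Ip (p : ℝ) (N : ℕ) (a : ℕ → ℂ) : ℝ := ∫ θ in (0:ℝ)..(2 * π), ‖F N a θ‖ ^ p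

theorem F_cont (N : ℕ) (a : ℕ → ℂ) : Continuous (F N a) := by
  unfold F
  have := u_cont
  exact continuous_finsetSum _ fun j _ => continuous_const.mul (this.pow j)

theorem F_norm_cont (N : ℕ) (a : ℕ → ℂ) : Continuous fun θ => ‖F N a θ‖ := (F_cont N a).norm

theorem F_pow_cont {p : ℝ} (hp : 0 < p) (N : ℕ) (a : ℕ → ℂ) :
    Continuous fun θ => ‖F N a θ‖ ^ p :=
  (F_norm_cont N a).rpow_const (fun _ => Or.inr hp.le)

theorem Ip_nonneg (p : ℝ) (N : ℕ) (a : ℕ → ℂ) : 0 ≤ Ip p N a := by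
  unfold Ip
  apply intervalIntegral.integral_nonneg (by positivity)
  intro θ _
  positivity

/-- `x` is a multiplier of norm at most `A`. -/
def MB (p : ℝ) (N : ℕ) (A : ℝ) (x : ℕ → ℂ) : Prop :=
  ∀ a : ℕ → ℂ, Ip p N (fun j => x j * a j) ≤ A ^ p * Ip p N a

theorem MB_mono {p : ℝ} (hp : 0 < p) {N : ℕ} {A B : ℝ} (hA : 0 ≤ A) (hAB : A ≤ B) {x : ℕ → ℂ}
    (h : MB p N A x) : MB p N B x := fun a =>
  (h a).trans (mul_le_mul_of_nonneg_right (Real.rpow_le_rpow hA hAB hp.le) (Ip_nonneg _ _ _))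

theorem MB_mul {p : ℝ} {N : ℕ} {A B : ℝ} (hA : 0 ≤ A) (hB : 0 ≤ B) {x y : ℕ → ℂ}
    (hx : MB p N A x) (hy : MB p N B y) : MB p N (A * B) (fun j => x j * y j) := by
  intro a
  have h1 := hx (fun j => y j * a j)
  have h2 := hy a
  have e : (fun j => x j * y j * a j) = fun j => x j * (y j * a j) := by
    funext j; ring
  rw [e, Real.mul_rpow hA hB, mul_assoc]
  exact h1.trans (mul_le_mul_of_nonneg_left h2 (Real.rpow_nonneg hA _))

theorem MB_const {p : ℝ} (N : ℕ) (c : ℂ) : MB p N ‖c‖ (fun _ => c) := by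
  intro a
  have e : ∀ θ, ‖F N (fun j => c * a j) θ‖ ^ p = ‖c‖ ^ p * ‖F N a θ‖ ^ p := by
    intro θ
    have : F N (fun j => c * a j) θ = c * F N a θ := by
      unfold F
      rw [Finset.mul_sum]
      refine Finset.sum_congr rfl fun j _ => ?_
      ring
    rw [this, norm_mul, Real.mul_rpow (norm_nonneg _) (norm_nonneg _)]
  unfold Ip
  simp_rw [e]
  rw [intervalIntegral.integral_const_mul]

theorem MB_rot {p : ℝ} (N : ℕ) (t : ℝ) : MB p N 1 (fun j => u t ^ j) := by
  intro a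
  rw [Real.one_rpow, one_mul]
  have e : ∀ θ, F N (fun j => u t ^ j * a j) θ = F N a (θ + t) := by
    intro θ
    unfold F
    refine Finset.sum_congr rfl fun j _ => ?_
    rw [u_add, mul_pow]
    ring
  unfold Ip
  simp_rw [e]
  have e1 : (∫ θ in (0:ℝ)..(2 * π), ‖F N a (θ + t)‖ ^ p) =
      ∫ θ in (0:ℝ)..(2 * π), (fun x => ‖F N a x‖ ^ p) (θ + t) := rfl
  rw [e1, intervalIntegral.integral_comp_add_right (fun x => ‖F N a x‖ ^ p)]
  have hper : Function.Periodic (fun x => ‖F N a x‖ ^ p) (2 * π) := by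
    intro x
    simp only
    unfold F
    rw [u_period]
  have := hper.intervalIntegral_add_eq t 0
  rw [zero_add] at this
  rw [zero_add, add_comm (2 * π)]
  exact this.le

theorem MB_zero {p : ℝ} (hp : 0 < p) (N : ℕ) {A : ℝ} (hA : 0 ≤ A) : MB p N A (fun _ => 0) := by
  intro a
  have e : ∀ θ, ‖F N (fun j => 0 * a j) θ‖ ^ p = 0 := by
    intro θ
    unfold F
    simp [Real.zero_rpow hp.ne']
  unfold Ip
  simp_rw [e]
  rw [intervalIntegral.integral_zero]
  have := Ip_nonneg p N a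
  unfold Ip at this
  positivity

theorem conv2 {p A B x y : ℝ} (hp : 1 ≤ p) (hA : 0 < A) (hB : 0 < B) (hx : 0 ≤ x) (hy : 0 ≤ y) :
    (x + y) ^ p ≤ (A + B) ^ (p - 1) * (A ^ (1 - p) * x ^ p + B ^ (1 - p) * y ^ p) := by
  have hAB : 0 < A + B := by positivity
  have h := (convexOn_rpow hp).2 (Set.mem_Ici.2 (show 0 ≤ x / A by positivity))
    (Set.mem_Ici.2 (show 0 ≤ y / B by positivity)) (show 0 ≤ A / (A + B) by positivity)
    (show 0 ≤ B / (A + B) by positivity) (by field_simp)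
  simp only [smul_eq_mul] at h
  have e1 : A / (A + B) * (x / A) + B / (A + B) * (y / B) = (x + y) / (A + B) := by
    field_simp
  rw [e1, Real.div_rpow (by positivity) hAB.le, Real.div_rpow hx hA.le,
    Real.div_rpow hy hB.le] at h
  have hABp : 0 < (A + B) ^ p := Real.rpow_pos_of_pos hAB _
  rw [div_le_iff₀ hABp] at h
  refine h.trans (le_of_eq ?_)
  rw [Real.rpow_sub hAB, Real.rpow_one, Real.rpow_sub hA, Real.rpow_one, Real.rpow_sub hB,
    Real.rpow_one]
  have h1 : A ^ p ≠ 0 := (Real.rpow_pos_of_pos hA _).ne'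
  have h2 : B ^ p ≠ 0 := (Real.rpow_pos_of_pos hB _).ne'
  field_simp

theorem MB_add {p : ℝ} (hp : 1 ≤ p) {N : ℕ} {A B : ℝ} (hA : 0 < A) (hB : 0 < B) {x y : ℕ → ℂ}
    (hx : MB p N A x) (hy : MB p N B y) : MB p N (A + B) (fun j => x j + y j) := by
  intro a
  have hp0 : 0 < p := by linarith
  have hpi : (0:ℝ) ≤ 2 * π := by positivity
  have h1 := hx a
  have h2 := hy a
  have hpt : ∀ θ, ‖F N (fun j => (x j + y j) * a j) θ‖ ^ p ≤ (A + B) ^ (p - 1) *
      (A ^ (1 - p) * ‖F N (fun j => x j * a j) θ‖ ^ p +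
        B ^ (1 - p) * ‖F N (fun j => y j * a j) θ‖ ^ p) := by
    intro θ
    have e : F N (fun j => (x j + y j) * a j) θ =
        F N (fun j => x j * a j) θ + F N (fun j => y j * a j) θ := by
      unfold F
      rw [← Finset.sum_add_distrib]
      refine Finset.sum_congr rfl fun j _ => ?_
      ring
    rw [e]
    refine (Real.rpow_le_rpow (norm_nonneg _) (norm_add_le _ _) hp0.le).trans ?_
    exact conv2 hp hA hB (norm_nonneg _) (norm_nonneg _)
  have h3 : Ip p N (fun j => (x j + y j) * a j) ≤ (A + B) ^ (p - 1) *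
      (A ^ (1 - p) * Ip p N (fun j => x j * a j) + B ^ (1 - p) * Ip p N (fun j => y j * a j)) := by
    unfold Ip
    rw [← intervalIntegral.integral_const_mul, ← intervalIntegral.integral_const_mul,
      ← intervalIntegral.integral_add, ← intervalIntegral.integral_const_mul]
    · apply intervalIntegral.integral_mono_on hpi
      · exact (F_pow_cont hp0 _ _).intervalIntegrable _ _
      · apply Continuous.intervalIntegrable
        exact continuous_const.mul ((continuous_const.mul (F_pow_cont hp0 _ _)).add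
          (continuous_const.mul (F_pow_cont hp0 _ _)))
      · intro θ _
        exact hpt θ
    · exact (continuous_const.mul (F_pow_cont hp0 _ _)).intervalIntegrable _ _
    · exact (continuous_const.mul (F_pow_cont hp0 _ _)).intervalIntegrable _ _
  have hA1 : A ^ (1 - p) * A ^ p = A := by
    rw [← Real.rpow_add hA]
    have : 1 - p + p = 1 := by ring
    rw [this, Real.rpow_one]
  have hB1 : B ^ (1 - p) * B ^ p = B := by
    rw [← Real.rpow_add hB]
    have : 1 - p + p = 1 := by ring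
    rw [this, Real.rpow_one]
  have hAB1 : (A + B) ^ (p - 1) * (A + B) = (A + B) ^ p := by
    have h4 := Real.rpow_add (show 0 < A + B by positivity) (p - 1) 1
    rw [Real.rpow_one] at h4
    rw [← h4]
    congr 1; ring
  refine h3.trans ?_
  calc (A + B) ^ (p - 1) *
      (A ^ (1 - p) * Ip p N (fun j => x j * a j) + B ^ (1 - p) * Ip p N (fun j => y j * a j))
      ≤ (A + B) ^ (p - 1) * (A ^ (1 - p) * (A ^ p * Ip p N a) + B ^ (1 - p) * (B ^ p * Ip p N a)) := by
        apply mul_le_mul_of_nonneg_left _ (by positivity)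
        apply add_le_add
        · exact mul_le_mul_of_nonneg_left h1 (by positivity)
        · exact mul_le_mul_of_nonneg_left h2 (by positivity)
    _ = (A + B) ^ (p - 1) * ((A ^ (1 - p) * A ^ p + B ^ (1 - p) * B ^ p) * Ip p N a) := by ring
    _ = (A + B) ^ (p - 1) * (A + B) * Ip p N a := by rw [hA1, hB1]; ring
    _ = (A + B) ^ p * Ip p N a := by rw [hAB1]

theorem MB_sum {ι : Type*} {p : ℝ} (hp : 1 ≤ p) {N : ℕ} (s : Finset ι) (hs : s.Nonempty)
    (A : ι → ℝ) (x : ι → ℕ → ℂ) (hA : ∀ i ∈ s, 0 < A i) (h : ∀ i ∈ s, MB p N (A i) (x i)) :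
    MB p N (∑ i ∈ s, A i) (fun j => ∑ i ∈ s, x i j) := by
  classical
  induction hs using Finset.Nonempty.cons_induction with
  | singleton a =>
    simp only [Finset.sum_singleton]
    exact h a (Finset.mem_singleton_self a)
  | cons a s ha hs ih =>
    simp only [Finset.sum_cons]
    apply MB_add hp
    · exact hA a (Finset.mem_cons_self _ _)
    · exact Finset.sum_pos (fun i hi => hA i (Finset.mem_cons_of_mem hi)) hs
    · exact h a (Finset.mem_cons_self _ _)
    · exact ih (fun i hi => hA i (Finset.mem_cons_of_mem hi))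
        (fun i hi => h i (Finset.mem_cons_of_mem hi))

theorem MB_pow {p : ℝ} {N : ℕ} {A : ℝ} (hA : 0 ≤ A) {x : ℕ → ℂ} (hx : MB p N A x) (k : ℕ) :
    MB p N (A ^ k) (fun j => x j ^ k) := by
  induction k with
  | zero =>
    simp only [pow_zero]
    have := MB_const (p := p) N (1:ℂ)
    rwa [norm_one] at this
  | succ k ih =>
    have := MB_mul (pow_nonneg hA k) hA ih hx
    simpa only [pow_succ] using this

/-- An exponential sum is a multiplier. -/
theorem MB_expsum {p : ℝ} (hp : 1 ≤ p) (N : ℕ) (T : Finset ℕ) (w : ℕ → ℂ) (t : ℕ → ℝ)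
    (hw : ∀ k ∈ T, w k ≠ 0) {R : ℝ} (hR : 0 ≤ R) (hsum : ∑ k ∈ T, ‖w k‖ ≤ R) :
    MB p N R (fun j => ∑ k ∈ T, w k * u (t k) ^ j) := by
  have hp0 : 0 < p := by linarith
  rcases T.eq_empty_or_nonempty with rfl | hT
  · simp only [Finset.sum_empty]
    exact MB_zero hp0 N hR
  · apply MB_mono hp0 _ hsum
    · apply MB_sum hp T hT (fun k => ‖w k‖) (fun k j => w k * u (t k) ^ j)
      · intro k hk
        exact norm_pos_iff.2 (hw k hk)
      · intro k _
        have := MB_mul (norm_nonneg (w k)) zero_le_one (MB_const (p := p) N (w k))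
          (MB_rot (p := p) N (t k))
        rwa [mul_one] at this
    · exact Finset.sum_nonneg fun k _ => norm_nonneg _

/-- The Bernstein polynomial of a multiplier of norm one. -/
theorem MB_bernstein {p : ℝ} (hp : 1 ≤ p) {N : ℕ} {x : ℕ → ℂ} (hx : MB p N 1 x) (D : ℕ)
    (g : ℕ → ℝ) (hg : ∀ k, 0 < g k ∧ g k ≤ 1) :
    MB p N (3 ^ D) (fun j => ∑ k ∈ range (D + 1),
      (((g k * D.choose k : ℝ)) : ℂ) * (x j ^ k * (1 - x j) ^ (D - k))) := by
  have hp0 : 0 < p := by linarith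
  have h1x : MB p N 2 (fun j => 1 - x j) := by
    have h1 := MB_const (p := p) N (1:ℂ)
    rw [norm_one] at h1
    have h2 := MB_mul (p := p) (N := N) (A := 1) (B := 1) zero_le_one zero_le_one (by
      have := MB_const (p := p) N (-1:ℂ)
      rwa [norm_neg, norm_one] at this) hx
    have h3 := MB_add hp one_pos (by norm_num : (0:ℝ) < 1 * 1) h1 h2
    have e : (fun j => (1:ℂ) + -1 * x j) = fun j => 1 - x j := by funext j; ring
    rw [e] at h3
    norm_num at h3
    exact h3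
  have hterm : ∀ k ∈ range (D + 1), MB p N ((D.choose k : ℝ) * 2 ^ (D - k)) (fun j =>
      (((g k * D.choose k : ℝ)) : ℂ) * (x j ^ k * (1 - x j) ^ (D - k))) := by
    intro k _
    have h1 := MB_pow (p := p) (N := N) zero_le_one hx k
    have h2 := MB_pow (p := p) (N := N) (by norm_num : (0:ℝ) ≤ 2) h1x (D - k)
    have h3 := MB_mul (by positivity) (by positivity) h1 h2
    have h4 := MB_mul (norm_nonneg _) (by positivity)
      (MB_const (p := p) N (((g k * D.choose k : ℝ)) : ℂ)) h3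
    apply MB_mono hp0 _ _ h4
    · positivity
    · rw [one_pow, one_mul, Complex.norm_real, Real.norm_eq_abs, abs_of_nonneg (by
        have := (hg k).1
        positivity)]
      apply mul_le_mul_of_nonneg_right _ (by positivity)
      calc g k * (D.choose k : ℝ) ≤ 1 * D.choose k :=
            mul_le_mul_of_nonneg_right (hg k).2 (by positivity)
        _ = _ := one_mul _
  have hs := MB_sum hp (range (D + 1)) ⟨0, Finset.mem_range.2 (Nat.succ_pos D)⟩
    (fun k => (D.choose k : ℝ) * 2 ^ (D - k)) (fun k j =>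
      (((g k * D.choose k : ℝ)) : ℂ) * (x j ^ k * (1 - x j) ^ (D - k)))
    (fun k hk => by
      have : 0 < D.choose k := Nat.choose_pos (by rw [Finset.mem_range] at hk; omega)
      have : (0:ℝ) < D.choose k := by exact_mod_cast this
      positivity) hterm
  have e : ∑ k ∈ range (D + 1), (D.choose k : ℝ) * 2 ^ (D - k) = 3 ^ D := by
    have h5 := add_pow (1:ℝ) 2 D
    rw [show (1:ℝ) + 2 = 3 by norm_num] at h5
    rw [h5]
    refine Finset.sum_congr rfl fun k _ => ?_
    rw [one_pow, one_mul, mul_comm]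
  rw [e] at hs
  exact hs

/-! ### The truncation -/

/-- `clip z = cg (‖z‖²) z`. -/
noncomputable def cg (y : ℝ) : ℝ := (Real.sqrt (max 1 y))⁻¹

theorem cg_pos (y : ℝ) : 0 < cg y := by
  unfold cg
  have : 0 < max 1 y := lt_of_lt_of_le one_pos (le_max_left _ _)
  positivity

theorem cg_le_one (y : ℝ) : cg y ≤ 1 := by
  unfold cg
  apply inv_le_one_of_one_le₀
  rw [Real.one_le_sqrt]
  exact le_max_left _ _

theorem cg_wlip (y z : ℝ) : y * |cg y - cg z| ≤ |y - z| := by
  unfold cg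
  set a := max 1 y with ha
  set b := max 1 z with hb
  have ha1 : 1 ≤ a := le_max_left _ _
  have hb1 : 1 ≤ b := le_max_left _ _
  have hya : y ≤ a := le_max_right _ _
  have hab : |a - b| ≤ |y - z| := by
    rw [ha, hb]
    have := abs_max_sub_max_le_max 1 y 1 z
    simpa using this
  refine le_trans ?_ hab
  set s := Real.sqrt a with hs
  set t := Real.sqrt b with ht
  have hs1 : 1 ≤ s := by rw [hs, Real.one_le_sqrt]; exact ha1
  have ht1 : 1 ≤ t := by rw [ht, Real.one_le_sqrt]; exact hb1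
  have hsa : a = s ^ 2 := (Real.sq_sqrt (by linarith)).symm
  have htb : b = t ^ 2 := (Real.sq_sqrt (by linarith)).symm
  have h1 : y * |s⁻¹ - t⁻¹| ≤ s ^ 2 * |s⁻¹ - t⁻¹| := by
    apply mul_le_mul_of_nonneg_right _ (abs_nonneg _)
    rw [← hsa]
    exact hya
  refine h1.trans ?_
  rw [hsa, htb]
  have e1 : s⁻¹ - t⁻¹ = (t - s) / (s * t) := by
    field_simp
  have e2 : s ^ 2 - t ^ 2 = -((t - s) * (s + t)) := by ring
  have hst : 0 < s * t := by positivity
  have hst2 : 0 < s + t := by positivity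
  rw [e1, e2, abs_neg, abs_div, abs_mul (t - s) (s + t), abs_of_pos hst, abs_of_pos hst2]
  have e3 : s ^ 2 * (|t - s| / (s * t)) = |t - s| * (s / t) := by
    field_simp
  rw [e3]
  apply mul_le_mul_of_nonneg_left _ (abs_nonneg _)
  rw [div_le_iff₀ (by linarith)]
  nlinarith

theorem clip_eq (z : ℂ) : clip z = ((cg (‖z‖ ^ 2) : ℝ) : ℂ) * z := by
  unfold clip cg
  split_ifs with h
  · have : max 1 (‖z‖ ^ 2) = 1 := max_eq_left (by nlinarith [norm_nonneg z])
    rw [this]
    simp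
  · rw [not_lt] at h
    have : max 1 (‖z‖ ^ 2) = ‖z‖ ^ 2 := max_eq_right (by nlinarith [norm_nonneg z])
    rw [this, Real.sqrt_sq (norm_nonneg z)]
    push_cast
    ring

/-- The truncation is a contraction. -/
theorem clip_lip (a b : ℂ) : ‖clip a - clip b‖ ≤ ‖a - b‖ := by
  wlog hab : ‖a‖ ≤ ‖b‖ generalizing a b
  · have := this b a (le_of_lt (not_le.1 hab))
    rwa [norm_sub_rev, norm_sub_rev b a] at this
  have key : ∀ x y : ℂ, ‖x - y‖ ^ 2 = ‖x‖ ^ 2 + ‖y‖ ^ 2 - 2 * (x * (starRingEnd ℂ) y).re := by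
    intro x y
    rw [← Complex.normSq_eq_norm_sq, ← Complex.normSq_eq_norm_sq, ← Complex.normSq_eq_norm_sq,
      Complex.normSq_sub]
  have hre : (a * (starRingEnd ℂ) b).re ≤ ‖a‖ * ‖b‖ := by
    calc (a * (starRingEnd ℂ) b).re ≤ ‖a * (starRingEnd ℂ) b‖ := Complex.re_le_norm _
      _ = ‖a‖ * ‖b‖ := by rw [norm_mul, Complex.norm_conj]
  by_cases hb : ‖b‖ < 1
  · have ha : ‖a‖ < 1 := lt_of_le_of_lt hab hb
    unfold clip
    rw [if_pos ha, if_pos hb]
  rw [not_lt] at hb
  have hb0 : 0 < ‖b‖ := by linarith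
  apply le_of_sq_le_sq _ (norm_nonneg _)
  rw [key, key]
  have hcb : clip b = ((‖b‖⁻¹ : ℝ) : ℂ) * b := by
    unfold clip
    rw [if_neg (not_lt.2 hb)]
    push_cast
    ring
  have hnb : ‖clip b‖ = 1 := by
    rw [hcb, norm_mul, Complex.norm_real, Real.norm_eq_abs, abs_of_pos (inv_pos.2 hb0)]
    field_simp
  by_cases ha : ‖a‖ < 1
  · have hca : clip a = a := by unfold clip; rw [if_pos ha]
    have e1 : (clip a * (starRingEnd ℂ) (clip b)).re = ‖b‖⁻¹ * (a * (starRingEnd ℂ) b).re := by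
      rw [hca, hcb, map_mul, Complex.conj_ofReal]
      have : a * (((‖b‖⁻¹ : ℝ) : ℂ) * (starRingEnd ℂ) b) =
          ((‖b‖⁻¹ : ℝ) : ℂ) * (a * (starRingEnd ℂ) b) := by ring
      rw [this, Complex.re_ofReal_mul]
    rw [e1, hnb, hca]
    set r := (a * (starRingEnd ℂ) b).re with hr
    have hr2 : r ≤ ‖b‖ := by
      calc r ≤ ‖a‖ * ‖b‖ := hre
        _ ≤ 1 * ‖b‖ := mul_le_mul_of_nonneg_right ha.le hb0.le
        _ = ‖b‖ := one_mul _
    have e2 : r - ‖b‖⁻¹ * r ≤ ‖b‖ - 1 := by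
      have e3 : r - ‖b‖⁻¹ * r = r * (1 - ‖b‖⁻¹) := by ring
      have e4 : ‖b‖ - 1 = ‖b‖ * (1 - ‖b‖⁻¹) := by field_simp
      rw [e3, e4]
      apply mul_le_mul_of_nonneg_right hr2
      have : ‖b‖⁻¹ ≤ 1 := inv_le_one_of_one_le₀ hb
      linarith
    nlinarith
  · rw [not_lt] at ha
    have ha0 : 0 < ‖a‖ := by linarith
    have hca : clip a = ((‖a‖⁻¹ : ℝ) : ℂ) * a := by
      unfold clip
      rw [if_neg (not_lt.2 ha)]
      push_cast
      ring
    have hna : ‖clip a‖ = 1 := by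
      rw [hca, norm_mul, Complex.norm_real, Real.norm_eq_abs, abs_of_pos (inv_pos.2 ha0)]
      field_simp
    have e1 : (clip a * (starRingEnd ℂ) (clip b)).re =
        (‖a‖⁻¹ * ‖b‖⁻¹) * (a * (starRingEnd ℂ) b).re := by
      rw [hca, hcb, map_mul, Complex.conj_ofReal]
      have : ((‖a‖⁻¹ : ℝ) : ℂ) * a * (((‖b‖⁻¹ : ℝ) : ℂ) * (starRingEnd ℂ) b) =
          ((‖a‖⁻¹ * ‖b‖⁻¹ : ℝ) : ℂ) * (a * (starRingEnd ℂ) b) := by push_cast; ring
      rw [this, Complex.re_ofReal_mul]
    rw [e1, hnb, hna]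
    set r := (a * (starRingEnd ℂ) b).re with hr
    have e2 : r - ‖a‖⁻¹ * ‖b‖⁻¹ * r ≤ ‖a‖ * ‖b‖ - 1 := by
      have e3 : r - ‖a‖⁻¹ * ‖b‖⁻¹ * r = r * (1 - ‖a‖⁻¹ * ‖b‖⁻¹) := by ring
      have e4 : ‖a‖ * ‖b‖ - 1 = ‖a‖ * ‖b‖ * (1 - ‖a‖⁻¹ * ‖b‖⁻¹) := by field_simp
      rw [e3, e4]
      apply mul_le_mul_of_nonneg_right hre
      have h1 : ‖b‖⁻¹ ≤ 1 := inv_le_one_of_one_le₀ hb
      have h2 : ‖a‖⁻¹ ≤ 1 := inv_le_one_of_one_le₀ ha
      have h3 : 0 < ‖b‖⁻¹ := inv_pos.2 hb0
      have h4 : 0 < ‖a‖⁻¹ := inv_pos.2 ha0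
      nlinarith
    nlinarith [sq_nonneg (‖a‖ - ‖b‖)]

/-- Bernstein approximation at a point where the function is Lipschitz. -/
theorem bernstein_err {h : ℝ → ℝ} {K x : ℝ} (hK : 0 ≤ K) (hlip : ∀ z, |h x - h z| ≤ K * |x - z|)
    {D : ℕ} (hD : 1 ≤ D) (hx0 : 0 ≤ x) (hx1 : x ≤ 1) :
    |h x - ∑ k ∈ range (D + 1), h (k / D) * D.choose k * (x ^ k * (1 - x) ^ (D - k))| ≤
      K * Real.sqrt (x / D) := by
  have hD0 : (0:ℝ) < D := by exact_mod_cast hD
  set X : unitInterval := ⟨x, hx0, hx1⟩ with hX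
  have hsum := bernstein.probability D X
  have hvar := bernstein.variance (n := D) (by omega) X
  rw [Fin.sum_univ_eq_sum_range (fun k => bernstein D k X) (D + 1)] at hsum
  have hvar' : ∑ k ∈ range (D + 1), (x - k / D) ^ 2 * bernstein D k X = x * (1 - x) / D := by
    rw [← hvar, ← Fin.sum_univ_eq_sum_range (fun k => (x - (k:ℝ) / D) ^ 2 * bernstein D k X) (D + 1)]
    rfl
  have hb0 : ∀ k, 0 ≤ bernstein D k X := fun k => bernstein_nonneg
  have e1 : h x - ∑ k ∈ range (D + 1), h (k / D) * D.choose k * (x ^ k * (1 - x) ^ (D - k)) =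
      ∑ k ∈ range (D + 1), (h x - h (k / D)) * bernstein D k X := by
    have : ∑ k ∈ range (D + 1), (h x - h (k / D)) * bernstein D k X =
        h x * ∑ k ∈ range (D + 1), bernstein D k X -
          ∑ k ∈ range (D + 1), h (k / D) * bernstein D k X := by
      rw [Finset.mul_sum, ← Finset.sum_sub_distrib]
      refine Finset.sum_congr rfl fun k _ => ?_
      ring
    rw [this, hsum, mul_one]
    congr 1
    refine Finset.sum_congr rfl fun k _ => ?_
    rw [bernstein_apply]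
    ring
  rw [e1]
  have h1 : |∑ k ∈ range (D + 1), (h x - h (k / D)) * bernstein D k X| ≤
      K * ∑ k ∈ range (D + 1), |x - k / D| * bernstein D k X := by
    refine (Finset.abs_sum_le_sum_abs _ _).trans ?_
    rw [Finset.mul_sum]
    apply Finset.sum_le_sum
    intro k _
    rw [abs_mul, abs_of_nonneg (hb0 k), ← mul_assoc]
    exact mul_le_mul_of_nonneg_right (hlip _) (hb0 k)
  have h2 : (∑ k ∈ range (D + 1), |x - k / D| * bernstein D k X) ^ 2 ≤
      ∑ k ∈ range (D + 1), (x - k / D) ^ 2 * bernstein D k X := by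
    have hcs := Finset.sum_mul_sq_le_sq_mul_sq (range (D + 1))
      (fun k => |x - (k:ℝ) / D| * Real.sqrt (bernstein D k X))
      (fun k => Real.sqrt (bernstein D k X))
    have e2 : ∀ k ∈ range (D + 1), |x - (k:ℝ) / D| * Real.sqrt (bernstein D k X) *
        Real.sqrt (bernstein D k X) = |x - k / D| * bernstein D k X := by
      intro k _
      rw [mul_assoc, Real.mul_self_sqrt (hb0 k)]
    have e3 : ∀ k ∈ range (D + 1), (|x - (k:ℝ) / D| * Real.sqrt (bernstein D k X)) ^ 2 =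
        (x - k / D) ^ 2 * bernstein D k X := by
      intro k _
      rw [mul_pow, sq_abs, Real.sq_sqrt (hb0 k)]
    have e4 : ∀ k ∈ range (D + 1), (Real.sqrt (bernstein D k X)) ^ 2 = bernstein D k X := by
      intro k _
      rw [Real.sq_sqrt (hb0 k)]
    rw [Finset.sum_congr rfl e2, Finset.sum_congr rfl e3, Finset.sum_congr rfl e4, hsum,
      mul_one] at hcs
    exact hcs
  rw [hvar'] at h2
  have h3 : ∑ k ∈ range (D + 1), |x - k / D| * bernstein D k X ≤ Real.sqrt (x / D) := by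
    have h4 : x * (1 - x) / D ≤ (Real.sqrt (x / D)) ^ 2 := by
      rw [Real.sq_sqrt (by positivity)]
      apply div_le_div_of_nonneg_right _ hD0.le
      nlinarith
    exact (abs_le_of_sq_le_sq' (h2.trans h4) (by positivity)).2
  calc |∑ k ∈ range (D + 1), (h x - h (k / D)) * bernstein D k X|
      ≤ K * ∑ k ∈ range (D + 1), |x - k / D| * bernstein D k X := h1
    _ ≤ K * Real.sqrt (x / D) := mul_le_mul_of_nonneg_left h3 hK

end Pool.Agent.CTR6
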