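import Pool.Agent.CTR6.Base

/-!
# The upper bound `N^comp_{n,p} ≤ (n+1)^{1/p-1/2}`
-/

open MeasureTheory Real Finset
open Pool.Agent.Lib_helper21.CoeffTrunc

namespace Pool.Agent.CTR6

/-- Integral of the square of the modulus. -/
noncomputable def M2 (Q : Polynomial ℂ) : ℝ :=
  ∫ θ in (0:ℝ)..(2 * π), ‖Q.eval (Complex.exp (θ * Complex.I))‖ ^ 2

theorem M2_nonneg (Q : Polynomial ℂ) : 0 ≤ M2 Q := by
  unfold M2
  apply intervalIntegral.integral_nonneg (by positivity)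
  intro θ _
  positivity

theorem M2_eq {N : ℕ} {Q : Polynomial ℂ} (h : Q.natDegree < N) :
    M2 Q = 2 * π * ∑ j ∈ range N, ‖Q.coeff j‖ ^ 2 := parseval_poly N Q h

theorem evc_sq_cont (Q : Polynomial ℂ) :
    Continuous fun θ : ℝ => ‖Q.eval (Complex.exp (θ * Complex.I))‖ ^ 2 :=
  (evc_cont Q).pow 2

/-- `x^p ≤ t^p ((p/2) x²/t² + (1-p/2))`. -/
theorem young {p x t : ℝ} (hp : 0 < p) (hp2 : p < 2) (hx : 0 ≤ x) (ht : 0 < t) :
    x ^ p ≤ t ^ p * (p / 2 * (x ^ 2 / t ^ 2) + (1 - p / 2)) := by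
  have h := Real.geom_mean_le_arith_mean2_weighted (w₁ := p / 2) (w₂ := 1 - p / 2)
    (p₁ := x ^ 2 / t ^ 2) (p₂ := 1) (by linarith) (by linarith) (by positivity) (by norm_num)
    (by ring)
  rw [Real.one_rpow, mul_one, mul_one] at h
  have e : x ^ p = t ^ p * (x ^ 2 / t ^ 2) ^ (p / 2) := by
    rw [Real.div_rpow (by positivity) (by positivity), ← Real.rpow_natCast, ← Real.rpow_natCast,
      ← Real.rpow_mul hx, ← Real.rpow_mul ht.le]
    have : ((2:ℕ):ℝ) * (p / 2) = p := by push_cast; ring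
    rw [this]
    have := (Real.rpow_pos_of_pos ht p).ne'
    field_simp
  rw [e]
  exact mul_le_mul_of_nonneg_left h (by positivity)

theorem eval_zero_of_M2 {Q : Polynomial ℂ} (h : M2 Q = 0) : Q = 0 := by
  rw [M2_eq (Nat.lt_succ_self _)] at h
  have h1 : ∑ j ∈ range (Q.natDegree + 1), ‖Q.coeff j‖ ^ 2 = 0 := by
    have : (2 * π : ℝ) ≠ 0 := by positivity
    exact (mul_eq_zero.1 h).resolve_left this
  rw [Finset.sum_eq_zero_iff_of_nonneg (fun i _ => by positivity)] at h1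
  ext j
  by_cases hj : j < Q.natDegree + 1
  · have := h1 j (Finset.mem_range.2 hj)
    have : ‖Q.coeff j‖ = 0 := by simpa using this
    simpa using this
  · rw [Polynomial.coeff_eq_zero_of_natDegree_lt (by omega)]
    simp

theorem Jc_zero {p : ℝ} (hp : 0 < p) : Jc p 0 = 0 := by
  unfold Jc
  simp [Real.zero_rpow hp.ne']

/-- Hölder's inequality between `p` and `2`. -/
theorem Jc_le_M2 {p : ℝ} (hp : 0 < p) (hp2 : p < 2) (Q : Polynomial ℂ) :
    Jc p Q ≤ (2 * π) ^ (1 - p / 2) * (M2 Q) ^ (p / 2) := by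
  have hpi : (0:ℝ) < 2 * π := by positivity
  rcases (M2_nonneg Q).eq_or_lt with h0 | h0
  · rw [eval_zero_of_M2 h0.symm, Jc_zero hp]
    have := M2_nonneg 0
    positivity
  set t := Real.sqrt (M2 Q / (2 * π)) with ht
  have ht0 : 0 < t := Real.sqrt_pos.2 (by positivity)
  have ht2 : t ^ 2 = M2 Q / (2 * π) := Real.sq_sqrt (by positivity)
  have h1 : Jc p Q ≤ ∫ θ in (0:ℝ)..(2 * π), t ^ p *
      (p / 2 * (‖Q.eval (Complex.exp (θ * Complex.I))‖ ^ 2 / t ^ 2) + (1 - p / 2)) := by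
    unfold Jc
    apply intervalIntegral.integral_mono_on hpi.le
    · exact (evc_pow_cont hp Q).intervalIntegrable _ _
    · apply Continuous.intervalIntegrable
      have := evc_sq_cont Q
      fun_prop
    · intro θ _
      exact young hp hp2 (norm_nonneg _) ht0
  have h2 : (∫ θ in (0:ℝ)..(2 * π), t ^ p *
      (p / 2 * (‖Q.eval (Complex.exp (θ * Complex.I))‖ ^ 2 / t ^ 2) + (1 - p / 2))) =
      t ^ p * (p / 2 * (M2 Q / t ^ 2) + (1 - p / 2) * (2 * π)) := by
    rw [intervalIntegral.integral_const_mul, intervalIntegral.integral_add]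
    · rw [intervalIntegral.integral_const_mul, intervalIntegral.integral_div,
        intervalIntegral.integral_const]
      simp only [sub_zero, smul_eq_mul]
      unfold M2
      ring
    · apply Continuous.intervalIntegrable
      have := evc_sq_cont Q
      fun_prop
    · exact intervalIntegrable_const
  rw [h2] at h1
  refine h1.trans (le_of_eq ?_)
  rw [ht2]
  have h3 : M2 Q / (M2 Q / (2 * π)) = 2 * π := by
    field_simp
  rw [h3]
  have h4 : t ^ p = (M2 Q) ^ (p / 2) * ((2 * π) ^ (p / 2))⁻¹ := by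
    have : t ^ p = (t ^ 2) ^ (p / 2) := by
      rw [← Real.rpow_natCast, ← Real.rpow_mul ht0.le]
      congr 1; push_cast; ring
    rw [this, ht2, Real.div_rpow h0.le hpi.le, div_eq_mul_inv]
  rw [h4, Real.rpow_sub hpi, Real.rpow_one]
  ring

/-- The sup bound. -/
theorem sup_bound {n : ℕ} {Q : Polynomial ℂ} (h : Q.natDegree ≤ n) (θ : ℝ) :
    ‖Q.eval (Complex.exp (θ * Complex.I))‖ ^ 2 ≤ (n + 1) / (2 * π) * M2 Q := by
  have hN : Q.natDegree < n + 1 := by omega
  rw [M2_eq hN, eval_u (n + 1) Q hN]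
  have h1 : ‖∑ j ∈ range (n + 1), Q.coeff j * u θ ^ j‖ ≤ ∑ j ∈ range (n + 1), ‖Q.coeff j‖ := by
    refine (norm_sum_le _ _).trans (le_of_eq (Finset.sum_congr rfl fun j _ => ?_))
    rw [norm_mul, norm_pow, norm_u, one_pow, mul_one]
  have h2 : (∑ j ∈ range (n + 1), ‖Q.coeff j‖) ^ 2 ≤
      (n + 1) * ∑ j ∈ range (n + 1), ‖Q.coeff j‖ ^ 2 := by
    have := sq_sum_le_card_mul_sum_sq (s := range (n + 1)) (f := fun j => ‖Q.coeff j‖)
    simpa using this
  have h3 : ‖∑ j ∈ range (n + 1), Q.coeff j * u θ ^ j‖ ^ 2 ≤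
      (∑ j ∈ range (n + 1), ‖Q.coeff j‖) ^ 2 :=
    pow_le_pow_left₀ (norm_nonneg _) h1 2
  have h4 : (n + 1 : ℝ) / (2 * π) * (2 * π * ∑ j ∈ range (n + 1), ‖Q.coeff j‖ ^ 2) =
      (n + 1) * ∑ j ∈ range (n + 1), ‖Q.coeff j‖ ^ 2 := by
    field_simp
  rw [h4]
  exact h3.trans h2

/-- Nikolskii's inequality between `2` and `p`. -/
theorem M2_le_Jc {p : ℝ} (hp : 0 < p) (hp2 : p < 2) {n : ℕ} {Q : Polynomial ℂ}
    (h : Q.natDegree ≤ n) :
    (M2 Q) ^ (p / 2) ≤ ((n + 1) / (2 * π)) ^ (1 - p / 2) * Jc p Q := by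
  have hpi : (0:ℝ) < 2 * π := by positivity
  rcases (M2_nonneg Q).eq_or_lt with h0 | h0
  · rw [← h0, Real.zero_rpow (by linarith)]
    have := Jc_nonneg (p := p) Q
    positivity
  set B : ℝ := (n + 1) / (2 * π) * M2 Q with hB
  have hB0 : 0 < B := by positivity
  have hpt : ∀ θ : ℝ, ‖Q.eval (Complex.exp (θ * Complex.I))‖ ^ 2 ≤
      B ^ (1 - p / 2) * ‖Q.eval (Complex.exp (θ * Complex.I))‖ ^ p := by
    intro θ
    set x := ‖Q.eval (Complex.exp (θ * Complex.I))‖ with hx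
    have hx0 : 0 ≤ x := norm_nonneg _
    have hs := sup_bound h θ
    rw [← hx, ← hB] at hs
    rcases hx0.eq_or_lt with h1 | h1
    · rw [← h1, Real.zero_rpow hp.ne']
      simp
    have e1 : x ^ 2 = (x ^ 2) ^ (1 - p / 2) * x ^ p := by
      rw [← Real.rpow_natCast, ← Real.rpow_mul hx0, ← Real.rpow_add h1]
      congr 1
      push_cast
      ring
    calc x ^ 2 = (x ^ 2) ^ (1 - p / 2) * x ^ p := e1
      _ ≤ B ^ (1 - p / 2) * x ^ p := by
          apply mul_le_mul_of_nonneg_right _ (by positivity)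
          exact Real.rpow_le_rpow (by positivity) hs (by linarith)
  have h1 : M2 Q ≤ B ^ (1 - p / 2) * Jc p Q := by
    unfold M2 Jc
    rw [← intervalIntegral.integral_const_mul]
    apply intervalIntegral.integral_mono_on hpi.le
    · exact (evc_sq_cont Q).intervalIntegrable _ _
    · exact (continuous_const.mul (evc_pow_cont hp Q)).intervalIntegrable _ _
    · intro θ _
      exact hpt θ
  have e2 : B ^ (1 - p / 2) = ((n + 1) / (2 * π)) ^ (1 - p / 2) * (M2 Q) ^ (1 - p / 2) := by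
    rw [hB, Real.mul_rpow (by positivity) h0.le]
  have e3 : M2 Q = (M2 Q) ^ (p / 2) * (M2 Q) ^ (1 - p / 2) := by
    rw [← Real.rpow_add h0]
    have : p / 2 + (1 - p / 2) = 1 := by ring
    rw [this, Real.rpow_one]
  have h5 : (M2 Q) ^ (p / 2) * (M2 Q) ^ (1 - p / 2) ≤
      (((n + 1) / (2 * π)) ^ (1 - p / 2) * Jc p Q) * (M2 Q) ^ (1 - p / 2) := by
    rw [← e3]
    calc M2 Q ≤ B ^ (1 - p / 2) * Jc p Q := h1
      _ = _ := by rw [e2]; ring
  exact le_of_mul_le_mul_right h5 (Real.rpow_pos_of_pos h0 _)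

theorem norm_clip_le (a : ℂ) : ‖clip a‖ ≤ ‖a‖ := by
  unfold clip
  split_ifs with h
  · exact le_refl _
  · rw [not_lt] at h
    rw [norm_div, Complex.norm_real, norm_norm, div_self (by linarith)]
    exact h

theorem norm_clip_le_one (a : ℂ) : ‖clip a‖ ≤ 1 := by
  unfold clip
  split_ifs with h
  · exact h.le
  · rw [not_lt] at h
    rw [norm_div, Complex.norm_real, norm_norm, div_self (by linarith)]

theorem trunc_natDegree (n : ℕ) (Q : Polynomial ℂ) : (trunc n Q).natDegree ≤ n := by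
  rw [Polynomial.natDegree_le_iff_coeff_eq_zero]
  intro N hN
  rw [trunc_coeff, if_neg (by omega)]

theorem M2_trunc_le {n : ℕ} {Q : Polynomial ℂ} (h : Q.natDegree ≤ n) :
    M2 (trunc n Q) ≤ M2 Q := by
  have h1 := trunc_natDegree n Q
  rw [M2_eq (N := n + 1) (by omega), M2_eq (N := n + 1) (by omega)]
  apply mul_le_mul_of_nonneg_left _ (by positivity)
  apply Finset.sum_le_sum
  intro j hj
  rw [Finset.mem_range] at hj
  rw [trunc_coeff, if_pos (by omega)]
  exact pow_le_pow_left₀ (norm_nonneg _) (norm_clip_le _) 2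

theorem Jc_trunc_le {p : ℝ} (hp : 0 < p) (hp2 : p < 2) {n : ℕ} {Q : Polynomial ℂ}
    (h : Q.natDegree ≤ n) :
    Jc p (trunc n Q) ≤ (n + 1 : ℝ) ^ (1 - p / 2) * Jc p Q := by
  have hpi : (0:ℝ) < 2 * π := by positivity
  calc Jc p (trunc n Q) ≤ (2 * π) ^ (1 - p / 2) * (M2 (trunc n Q)) ^ (p / 2) :=
        Jc_le_M2 hp hp2 _
    _ ≤ (2 * π) ^ (1 - p / 2) * (M2 Q) ^ (p / 2) := by
        apply mul_le_mul_of_nonneg_left _ (by positivity)
        exact Real.rpow_le_rpow (M2_nonneg _) (M2_trunc_le h) (by linarith)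
    _ ≤ (2 * π) ^ (1 - p / 2) * (((n + 1) / (2 * π)) ^ (1 - p / 2) * Jc p Q) := by
        apply mul_le_mul_of_nonneg_left _ (by positivity)
        exact M2_le_Jc hp hp2 h
    _ = (n + 1 : ℝ) ^ (1 - p / 2) * Jc p Q := by
        rw [← mul_assoc, ← Real.mul_rpow hpi.le (by positivity)]
        congr 2
        field_simp

theorem circleNorm_trunc_le {p : ℝ} (hp : 0 < p) (hp2 : p < 2) {n : ℕ} {Q : Polynomial ℂ}
    (h : Q.natDegree ≤ n) :
    circleNorm p (trunc n Q) ≤ (n + 1 : ℝ) ^ (1 / p - 1 / 2) * circleNorm p Q := by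
  have h1 := Real.rpow_le_rpow (Jc_nonneg _) (Jc_trunc_le hp hp2 h) (one_div_nonneg.2 hp.le)
  rw [Real.mul_rpow (by positivity) (Jc_nonneg _), ← Real.rpow_mul (by positivity)] at h1
  have e : (1 - p / 2) * (1 / p) = 1 / p - 1 / 2 := by field_simp
  rw [e] at h1
  exact h1

theorem NComp_le {p : ℝ} (hp : 0 < p) (hp2 : p < 2) (n : ℕ) :
    NComp n p ≤ ENNReal.ofReal ((n + 1 : ℝ) ^ (1 / p - 1 / 2)) := by
  unfold NComp
  refine iSup_le fun P => iSup₂_le fun h1 _ => ?_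
  apply ENNReal.ofReal_le_ofReal
  apply div_le_of_le_mul₀
  · exact Real.rpow_nonneg (Jc_nonneg _) _
  · positivity
  · exact circleNorm_trunc_le hp hp2 h1

end Pool.Agent.CTR6
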