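import Pool.Agent.CTR6.U1
import Pool.Agent.CTR6.Upper
import Pool.Agent.CTR6.Weyl

/-!
# Sampling, discrete Fourier inversion, the norm of the Dirichlet kernel
-/

open MeasureTheory Real Finset
open Pool.Agent.Lib_helper21.CoeffTrunc

namespace Pool.Agent.CTR6

theorem F_rot (N : ℕ) (a : ℕ → ℂ) (t θ : ℝ) :
    F N (fun j => u t ^ j * a j) θ = F N a (θ + t) := by
  unfold F
  refine Finset.sum_congr rfl fun j _ => ?_
  rw [u_add, mul_pow]
  ring

theorem Ip_rot {p : ℝ} (N : ℕ) (a : ℕ → ℂ) (t : ℝ) :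
    Ip p N (fun j => u t ^ j * a j) = Ip p N a := by
  unfold Ip
  simp_rw [F_rot]
  have e1 : (∫ θ in (0:ℝ)..(2 * π), ‖F N a (θ + t)‖ ^ p) =
      ∫ θ in (0:ℝ)..(2 * π), (fun x => ‖F N a x‖ ^ p) (θ + t) := rfl
  rw [e1, intervalIntegral.integral_comp_add_right (fun x => ‖F N a x‖ ^ p)]
  have hper : Function.Periodic (fun x => ‖F N a x‖ ^ p) (2 * π) := by
    intro x
    simp only
    unfold F
    rw [u_period]
  have := hper.intervalIntegral_add_eq t 0
  rw [zero_add] at this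
  rw [zero_add, add_comm (2 * π)]
  exact this

/-- Some translate of the grid is no worse than the average. -/
theorem sample {p : ℝ} (hp : 0 < p) (N : ℕ) (a : ℕ → ℂ) : ∃ φ : ℝ,
    ∑ k ∈ range N, ‖F N a (2 * π * (k / N) + φ)‖ ^ p ≤ N / (2 * π) * Ip p N a := by
  by_contra hcon
  push Not at hcon
  have hpi : (0:ℝ) < 2 * π := by positivity
  have hc : ∀ k : ℕ, Continuous fun φ => ‖F N a (2 * π * (k / N) + φ)‖ ^ p := by
    intro k
    exact (F_pow_cont hp N a).comp (continuous_const.add continuous_id)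
  have h1 : (∫ φ in (0:ℝ)..(2 * π), ∑ k ∈ range N, ‖F N a (2 * π * (k / N) + φ)‖ ^ p) =
      N * Ip p N a := by
    rw [intervalIntegral.integral_finsetSum (fun k _ => (hc k).intervalIntegrable _ _)]
    have : ∀ k ∈ range N, (∫ φ in (0:ℝ)..(2 * π), ‖F N a (2 * π * (k / N) + φ)‖ ^ p) =
        Ip p N a := by
      intro k _
      rw [← Ip_rot N a (2 * π * (k / N))]
      unfold Ip
      simp_rw [F_rot, add_comm]
    rw [Finset.sum_congr rfl this]
    simp
  have hcs : Continuous fun φ => ∑ k ∈ range N, ‖F N a (2 * π * (k / N) + φ)‖ ^ p :=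
    continuous_finsetSum _ fun k _ => hc k
  have h2 : 0 < ∫ φ in (0:ℝ)..(2 * π), (∑ k ∈ range N, ‖F N a (2 * π * (k / N) + φ)‖ ^ p -
      N / (2 * π) * Ip p N a) := by
    apply intervalIntegral.intervalIntegral_pos_of_pos
    · exact (hcs.sub continuous_const).intervalIntegrable _ _
    · intro φ
      have := hcon φ
      linarith
    · exact hpi
  rw [intervalIntegral.integral_sub (hcs.intervalIntegrable _ _) intervalIntegrable_const, h1,
    intervalIntegral.integral_const] at h2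
  simp only [sub_zero, smul_eq_mul] at h2
  have h3 : 2 * π * (N / (2 * π) * Ip p N a) = N * Ip p N a := by
    field_simp
  rw [h3, sub_self] at h2
  exact lt_irrefl _ h2

theorem clip_rot {ω : ℂ} (a : ℂ) (h : ‖ω‖ = 1) : clip (ω * a) = ω * clip a := by
  unfold clip
  rw [norm_mul, h, one_mul]
  split_ifs
  · rfl
  · rw [mul_div_assoc]

/-- The discrete Fourier coefficients. -/
noncomputable def wk (N : ℕ) (a : ℕ → ℂ) (k : ℕ) : ℂ := F N a (2 * π * (k / N)) / N

theorem u_swap (N k i j : ℕ) : u (2 * π * (k / N)) ^ i * u (-(2 * π * (k / N))) ^ j =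
    u (2 * π * (((i:ℝ) - j) / N)) ^ k := by
  rw [← u_natMul, ← u_natMul, ← u_natMul, ← u_add]
  congr 1
  ring

theorem orth_N {N : ℕ} (hN : 0 < N) {j t : ℕ} (hj : j < N) (ht : t < N) :
    ∑ k ∈ range N, u (2 * π * (((j:ℝ) - t) / N)) ^ k = if j = t then (N:ℂ) else 0 := by
  rw [orth_mod hN, Nat.mod_eq_of_lt hj, Nat.mod_eq_of_lt ht]

theorem wk_inv {N : ℕ} (hN : 0 < N) (a : ℕ → ℂ) {j : ℕ} (hj : j < N) :
    ∑ k ∈ range N, wk N a k * u (-(2 * π * (k / N))) ^ j = a j := by
  have hN0 : (N:ℂ) ≠ 0 := by exact_mod_cast hN.ne'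
  have h1 : ∀ k ∈ range N, wk N a k * u (-(2 * π * (k / N))) ^ j =
      ∑ i ∈ range N, (a i / N) * u (2 * π * (((i:ℝ) - j) / N)) ^ k := by
    intro k _
    unfold wk F
    rw [Finset.sum_div, Finset.sum_mul]
    refine Finset.sum_congr rfl fun i _ => ?_
    rw [← u_swap]
    ring
  rw [Finset.sum_congr rfl h1, Finset.sum_comm]
  have h2 : ∀ i ∈ range N, ∑ k ∈ range N, (a i / N) * u (2 * π * (((i:ℝ) - j) / N)) ^ k =
      if i = j then a i else 0 := by
    intro i hi
    rw [← Finset.mul_sum, orth_N hN (Finset.mem_range.1 hi) hj]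
    split_ifs
    · field_simp
    · ring
  rw [Finset.sum_congr rfl h2, Finset.sum_ite_eq' (range N) j, if_pos (Finset.mem_range.2 hj)]

theorem dparseval {N : ℕ} (hN : 0 < N) (c : ℕ → ℂ) :
    ∑ j ∈ range N, ‖∑ k ∈ range N, c k * u (-(2 * π * (k / N))) ^ j‖ ^ 2 =
      N * ∑ k ∈ range N, ‖c k‖ ^ 2 := by
  have h : (∑ j ∈ range N, (∑ k ∈ range N, c k * u (-(2 * π * (k / N))) ^ j) *
      (starRingEnd ℂ) (∑ l ∈ range N, c l * u (-(2 * π * (l / N))) ^ j)) =
      N * ∑ k ∈ range N, c k * (starRingEnd ℂ) (c k) := by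
    have h1 : ∀ j ∈ range N, (∑ k ∈ range N, c k * u (-(2 * π * (k / N))) ^ j) *
        (starRingEnd ℂ) (∑ l ∈ range N, c l * u (-(2 * π * (l / N))) ^ j) =
        ∑ k ∈ range N, ∑ l ∈ range N, (c k * (starRingEnd ℂ) (c l)) *
          u (2 * π * (((l:ℝ) - k) / N)) ^ j := by
      intro j _
      rw [map_sum, Finset.sum_mul_sum]
      refine Finset.sum_congr rfl fun k _ => Finset.sum_congr rfl fun l _ => ?_
      rw [map_mul, map_pow, conj_u, neg_neg]
      have : u (-(2 * π * (k / N))) ^ j * u (2 * π * (l / N)) ^ j =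
          u (2 * π * (((l:ℝ) - k) / N)) ^ j := by
        rw [← mul_pow, ← u_add]
        congr 2
        ring
      rw [← this]
      ring
    rw [Finset.sum_congr rfl h1, Finset.sum_comm, Finset.mul_sum]
    refine Finset.sum_congr rfl fun k hk => ?_
    rw [Finset.sum_comm]
    have h2 : ∀ l ∈ range N, ∑ j ∈ range N, (c k * (starRingEnd ℂ) (c l)) *
        u (2 * π * (((l:ℝ) - k) / N)) ^ j =
        if l = k then (c k * (starRingEnd ℂ) (c l)) * N else 0 := by
      intro l hl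
      rw [← Finset.mul_sum, orth_N hN (Finset.mem_range.1 hl) (Finset.mem_range.1 hk)]
      split_ifs
      · rfl
      · ring
    rw [Finset.sum_congr rfl h2, Finset.sum_ite_eq' (range N) k, if_pos hk]
    ring
  have h2 : ∀ z : ℂ, z * (starRingEnd ℂ) z = ((‖z‖ ^ 2 : ℝ) : ℂ) := by
    intro z
    rw [Complex.mul_conj, Complex.normSq_eq_norm_sq]
  simp_rw [h2] at h
  exact_mod_cast h

/-- The polynomial with the given coefficients. -/
noncomputable def pol (N : ℕ) (a : ℕ → ℂ) : Polynomial ℂ :=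
  ∑ j ∈ range N, Polynomial.monomial j (a j)

theorem pol_eval (N : ℕ) (a : ℕ → ℂ) (θ : ℝ) :
    (pol N a).eval (Complex.exp (θ * Complex.I)) = F N a θ := by
  unfold pol F
  rw [Polynomial.eval_finsetSum]
  refine Finset.sum_congr rfl fun j _ => ?_
  rw [Polynomial.eval_monomial]
  rfl

theorem Ip_le_sq {p : ℝ} (hp : 0 < p) (hp2 : p < 2) (N : ℕ) (a : ℕ → ℂ) :
    Ip p N a ≤ 2 * π * (∑ j ∈ range N, ‖a j‖ ^ 2) ^ (p / 2) := by
  have h := Jc_le_M2 hp hp2 (pol N a)
  have e1 : Jc p (pol N a) = Ip p N a := by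
    unfold Jc Ip
    simp_rw [pol_eval]
  have e2 : M2 (pol N a) = 2 * π * ∑ j ∈ range N, ‖a j‖ ^ 2 := by
    unfold M2
    simp_rw [pol_eval]
    exact parseval N a
  rw [e1, e2, Real.mul_rpow (by positivity) (Finset.sum_nonneg fun _ _ => by positivity),
    ← mul_assoc, ← Real.rpow_add (by positivity)] at h
  have : 1 - p / 2 + p / 2 = 1 := by ring
  rw [this, Real.rpow_one] at h
  exact h

theorem Ip_add_le {p : ℝ} (hp : 1 ≤ p) (N : ℕ) (x y : ℕ → ℂ) :
    Ip p N (fun j => x j + y j) ≤ 2 ^ (p - 1) * (Ip p N x + Ip p N y) := by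
  have hp0 : 0 < p := by linarith
  have hpi : (0:ℝ) ≤ 2 * π := by positivity
  unfold Ip
  rw [← intervalIntegral.integral_add ((F_pow_cont hp0 _ _).intervalIntegrable _ _)
    ((F_pow_cont hp0 _ _).intervalIntegrable _ _), ← intervalIntegral.integral_const_mul]
  apply intervalIntegral.integral_mono_on hpi
  · exact (F_pow_cont hp0 _ _).intervalIntegrable _ _
  · exact (continuous_const.mul ((F_pow_cont hp0 _ _).add
      (F_pow_cont hp0 _ _))).intervalIntegrable _ _
  · intro θ _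
    have e : F N (fun j => x j + y j) θ = F N x θ + F N y θ := by
      unfold F
      rw [← Finset.sum_add_distrib]
      refine Finset.sum_congr rfl fun j _ => ?_
      ring
    rw [e]
    refine (Real.rpow_le_rpow (norm_nonneg _) (norm_add_le _ _) hp0.le).trans ?_
    have h := conv2 hp one_pos one_pos (norm_nonneg (F N x θ)) (norm_nonneg (F N y θ))
    rw [Real.one_rpow, one_mul, one_mul] at h
    norm_num at h
    exact h

/-! ### The Dirichlet kernel -/

theorem dir_far (N : ℕ) {θ0 θ : ℝ} (h0 : 0 < θ0) (h1 : θ0 ≤ θ) (h2 : θ ≤ 2 * π - θ0) :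
    ‖F N (fun _ => 1) θ‖ ≤ π / θ0 := by
  have hpi := Real.pi_pos
  have hs : θ0 / π ≤ Real.sin (θ / 2) := by
    rcases le_total (θ / 2) (π / 2) with h | h
    · have h3 := Real.mul_le_sin (by linarith : 0 ≤ θ / 2) h
      have e : 2 / π * (θ / 2) = θ / π := by ring
      rw [e] at h3
      exact (div_le_div_of_nonneg_right h1 hpi.le).trans h3
    · have h3 := Real.mul_le_sin (by linarith : 0 ≤ π - θ / 2) (by linarith)
      rw [Real.sin_pi_sub] at h3
      have e : 2 / π * (π - θ / 2) = (2 * π - θ) / π := by ring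
      rw [e] at h3
      exact (div_le_div_of_nonneg_right (by linarith) hpi.le).trans h3
  have hs0 : 0 < θ0 / π := by positivity
  have hnorm : ‖u θ - 1‖ = 2 * Real.sin (θ / 2) := by
    rw [norm_u_sub_one, abs_of_pos (lt_of_lt_of_le hs0 hs)]
  have hne : u θ ≠ 1 := by
    intro h
    rw [h, sub_self, norm_zero] at hnorm
    linarith
  have h4 := geom_bound 1 (u θ) norm_one (norm_u θ) hne N
  unfold F
  refine h4.trans ?_
  rw [hnorm]
  have e : π / θ0 = 2 / (2 * (θ0 / π)) := by field_simp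
  rw [e]
  apply div_le_div_of_nonneg_left (by norm_num) (by positivity)
  linarith

theorem rpow_le_split {p x t : ℝ} (hp : 0 < p) (hp2 : p < 2) (hx : 0 ≤ x) (ht : 0 < t) :
    x ^ p ≤ t ^ (p - 2) * x ^ 2 + t ^ p := by
  rcases le_total x t with h | h
  · have h1 : x ^ p ≤ t ^ p := Real.rpow_le_rpow hx h hp.le
    have h2 : 0 ≤ t ^ (p - 2) * x ^ 2 := by positivity
    linarith
  · have hx0 : 0 < x := lt_of_lt_of_le ht h
    have h1 : x ^ p = x ^ (p - 2) * x ^ 2 := by
      rw [← Real.rpow_natCast, ← Real.rpow_add hx0]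
      congr 1
      push_cast
      ring
    have h2 : x ^ (p - 2) ≤ t ^ (p - 2) :=
      Real.rpow_le_rpow_of_nonpos ht h (by linarith)
    have h3 : 0 ≤ t ^ p := by positivity
    rw [h1]
    have := mul_le_mul_of_nonneg_right h2 (by positivity : 0 ≤ x ^ 2)
    linarith

theorem dir_bound {p : ℝ} (hp : 1 ≤ p) (hp2 : p < 2) {N : ℕ} (hN : 1 ≤ N) :
    Ip p N (fun _ => 1) ≤ 80 * (N:ℝ) ^ (p / 2 - (2 - p) / 8) := by
  have hp0 : 0 < p := by linarith
  have hpi := Real.pi_pos
  have hpi3 := Real.pi_gt_three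
  have hN1 : (1:ℝ) ≤ N := by exact_mod_cast hN
  have hN0 : (0:ℝ) < N := by linarith
  set θ0 : ℝ := (N:ℝ) ^ (-(1/4) : ℝ) with hθ0
  have hθ : 0 < θ0 := Real.rpow_pos_of_pos hN0 _
  have hθ1 : θ0 ≤ 1 := Real.rpow_le_one_of_one_le_of_nonpos hN1 (by norm_num)
  set t : ℝ := ((N:ℝ) / θ0) ^ (1/2 : ℝ) with ht
  have ht0 : 0 < t := Real.rpow_pos_of_pos (by positivity) _
  set X : ℝ := (N:ℝ) ^ (p / 2 - (2 - p) / 8) with hX
  have hX0 : 0 < X := Real.rpow_pos_of_pos hN0 _
  set f : ℝ → ℝ := fun θ => ‖F N (fun _ => 1) θ‖ ^ p with hf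
  set g : ℝ → ℝ := fun θ => ‖F N (fun _ => 1) θ‖ ^ 2 with hg
  have hfc : Continuous f := F_pow_cont hp0 N _
  have hgc : Continuous g := (F_norm_cont N _).pow 2
  have hg0 : ∀ θ, 0 ≤ g θ := fun θ => by simp only [hg]; positivity
  have hpt : ∀ θ, f θ ≤ t ^ (p - 2) * g θ + t ^ p := fun θ =>
    rpow_le_split hp0 hp2 (norm_nonneg _) ht0
  have hnear : ∀ x y : ℝ, x ≤ y → (∫ θ in x..y, f θ) ≤
      t ^ (p - 2) * (∫ θ in x..y, g θ) + (y - x) * t ^ p := by
    intro x y hxy
    have h1 : (∫ θ in x..y, f θ) ≤ ∫ θ in x..y, (t ^ (p - 2) * g θ + t ^ p) := by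
      apply intervalIntegral.integral_mono_on hxy
      · exact hfc.intervalIntegrable _ _
      · exact ((continuous_const.mul hgc).add continuous_const).intervalIntegrable _ _
      · intro θ _
        exact hpt θ
    have hcg : Continuous fun θ => t ^ (p - 2) * g θ := continuous_const.mul hgc
    rw [intervalIntegral.integral_add (hcg.intervalIntegrable _ _)
      intervalIntegrable_const, intervalIntegral.integral_const_mul,
      intervalIntegral.integral_const, smul_eq_mul] at h1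
    exact h1
  have hfar : (∫ θ in θ0..(2 * π - θ0), f θ) ≤ 2 * π * (π / θ0) ^ p := by
    have h1 : (∫ θ in θ0..(2 * π - θ0), f θ) ≤ ∫ θ in θ0..(2 * π - θ0), (π / θ0) ^ p := by
      apply intervalIntegral.integral_mono_on (by linarith)
      · exact hfc.intervalIntegrable _ _
      · exact intervalIntegrable_const
      · intro θ hθm
        simp only [hf]
        exact Real.rpow_le_rpow (norm_nonneg _) (dir_far N hθ hθm.1 hθm.2) hp0.le
    rw [intervalIntegral.integral_const, smul_eq_mul] at h1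
    refine h1.trans (mul_le_mul_of_nonneg_right (by linarith) (by positivity))
  have hg2 : (∫ θ in (0:ℝ)..(2 * π), g θ) = 2 * π * N := by
    have h := parseval N (fun _ => (1:ℂ))
    simp only [norm_one, one_pow, Finset.sum_const, Finset.card_range, nsmul_eq_mul,
      mul_one] at h
    exact h
  have hsplitf : (∫ θ in (0:ℝ)..(2 * π), f θ) = (∫ θ in (0:ℝ)..θ0, f θ) +
      (∫ θ in θ0..(2 * π - θ0), f θ) + ∫ θ in (2 * π - θ0)..(2 * π), f θ := by
    rw [intervalIntegral.integral_add_adjacent_intervals (hfc.intervalIntegrable _ _)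
      (hfc.intervalIntegrable _ _), intervalIntegral.integral_add_adjacent_intervals
      (hfc.intervalIntegrable _ _) (hfc.intervalIntegrable _ _)]
  have hsplitg : (∫ θ in (0:ℝ)..(2 * π), g θ) = (∫ θ in (0:ℝ)..θ0, g θ) +
      (∫ θ in θ0..(2 * π - θ0), g θ) + ∫ θ in (2 * π - θ0)..(2 * π), g θ := by
    rw [intervalIntegral.integral_add_adjacent_intervals (hgc.intervalIntegrable _ _)
      (hgc.intervalIntegrable _ _), intervalIntegral.integral_add_adjacent_intervals
      (hgc.intervalIntegrable _ _) (hgc.intervalIntegrable _ _)]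
  have hgm : 0 ≤ ∫ θ in θ0..(2 * π - θ0), g θ :=
    intervalIntegral.integral_nonneg (by linarith) fun θ _ => hg0 θ
  have h1 := hnear 0 θ0 hθ.le
  have h2 := hnear (2 * π - θ0) (2 * π) (by linarith)
  have htp : 0 < t ^ (p - 2) := Real.rpow_pos_of_pos ht0 _
  have hIp : Ip p N (fun _ => 1) = ∫ θ in (0:ℝ)..(2 * π), f θ := rfl
  have h3 : Ip p N (fun _ => 1) ≤ t ^ (p - 2) * (2 * π * N) + 2 * (θ0 * t ^ p) +
      2 * π * (π / θ0) ^ p := by
    rw [hIp, hsplitf]
    have h4 : t ^ (p - 2) * ((∫ θ in (0:ℝ)..θ0, g θ) + ∫ θ in (2 * π - θ0)..(2 * π), g θ) ≤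
        t ^ (p - 2) * (2 * π * N) := by
      apply mul_le_mul_of_nonneg_left _ htp.le
      rw [← hg2, hsplitg]
      linarith
    rw [mul_add] at h4
    have e1 : (θ0 - 0) * t ^ p = θ0 * t ^ p := by ring
    have e2 : (2 * π - (2 * π - θ0)) * t ^ p = θ0 * t ^ p := by ring
    rw [e1] at h1
    rw [e2] at h2
    linarith
  have hθX : ∀ s : ℝ, θ0 ^ s = (N:ℝ) ^ (-(s / 4)) := by
    intro s
    rw [hθ0, ← Real.rpow_mul hN0.le]
    congr 1
    ring
  have htX : ∀ s : ℝ, t ^ s = (N:ℝ) ^ (5 * s / 8) := by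
    intro s
    have e1 : (N:ℝ) / θ0 = (N:ℝ) ^ (5 / 4 : ℝ) := by
      rw [hθ0, div_eq_mul_inv, ← Real.rpow_neg hN0.le]
      nth_rewrite 1 [← Real.rpow_one (N:ℝ)]
      rw [← Real.rpow_add hN0]
      norm_num
    rw [ht, e1, ← Real.rpow_mul hN0.le, ← Real.rpow_mul hN0.le]
    congr 1
    ring
  have e1 : t ^ (p - 2) * (2 * π * N) = 2 * π * X := by
    have : t ^ (p - 2) * N = X := by
      rw [htX, hX]
      nth_rewrite 2 [← Real.rpow_one (N:ℝ)]
      rw [← Real.rpow_add hN0]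
      congr 1
      ring
    calc t ^ (p - 2) * (2 * π * N) = 2 * π * (t ^ (p - 2) * N) := by ring
      _ = _ := by rw [this]
  have e2 : θ0 * t ^ p = X := by
    rw [htX, hθ0, hX, ← Real.rpow_add hN0]
    congr 1
    ring
  have e3 : (π / θ0) ^ p ≤ π ^ 2 * X := by
    rw [Real.div_rpow hpi.le hθ.le, hθX, div_eq_mul_inv, ← Real.rpow_neg hN0.le]
    have h4 : π ^ p ≤ π ^ 2 := by
      rw [← Real.rpow_natCast]
      apply Real.rpow_le_rpow_of_exponent_le (by linarith)
      push_cast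
      linarith
    have h5 : (N:ℝ) ^ (-(-(p / 4))) ≤ X := by
      rw [hX]
      apply Real.rpow_le_rpow_of_exponent_le hN1
      linarith
    exact mul_le_mul h4 h5 (by positivity) (by positivity)
  rw [e1, e2] at h3
  have hpi4 : π < 3.15 := by linarith [Real.pi_lt_d2]
  have h6 : 2 * π * (π / θ0) ^ p ≤ 2 * π * (π ^ 2 * X) :=
    mul_le_mul_of_nonneg_left e3 (by positivity)
  have h7 : π ^ 3 ≤ 31.3 := by
    calc π ^ 3 ≤ 3.15 ^ 3 := pow_le_pow_left₀ hpi.le hpi4.le 3
      _ ≤ 31.3 := by norm_num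
  calc Ip p N (fun _ => 1) ≤ 2 * π * X + 2 * X + 2 * π * (π ^ 2 * X) := by linarith
    _ = (2 * π + 2 + 2 * π ^ 3) * X := by ring
    _ ≤ 80 * X := by
        apply mul_le_mul_of_nonneg_right _ hX0.le
        linarith

end Pool.Agent.CTR6
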