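import Pool.Agent.CTR6.U2

/-!
# The main estimate for the truncation of a polynomial
-/

open MeasureTheory Real Finset
open Pool.Agent.Lib_helper21.CoeffTrunc

namespace Pool.Agent.CTR6

theorem core_up {p : ℝ} (hp : 1 ≤ p) (hp2 : p < 2) {N : ℕ} (hN : 0 < N) (a : ℕ → ℂ) {Λ τ : ℝ}
    (hΛ : 0 < Λ) (hτ : 0 < τ) {D : ℕ} (hD : 1 ≤ D)
    (hw : ∑ k ∈ range N, ‖wk N a k‖ ^ p ≤ Λ ^ p) :
    Ip p N (fun j => clip (a j)) ≤ 2 ^ (p - 1) *
      (((τ ^ (1 - p) * Λ) * 3 ^ D) ^ p * Ip p N (fun _ => 1) +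
      2 * π * (2 * (N * Λ ^ 2 * (τ ^ (2 - p) + (τ ^ (1 - p)) ^ 2 / D))) ^ (p / 2)) := by
  classical
  have hp0 : 0 < p := by linarith
  have hD0 : (0:ℝ) < D := by exact_mod_cast hD
  have hN0 : (0:ℝ) < N := by exact_mod_cast hN
  set w : ℕ → ℂ := wk N a with hwdef
  set δ : ℝ := τ * Λ with hδ
  have hδ0 : 0 < δ := by positivity
  set R : ℝ := τ ^ (1 - p) * Λ with hR
  have hR0 : 0 < R := by
    have : 0 < τ ^ (1 - p) := Real.rpow_pos_of_pos hτ _
    positivity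
  set T : Finset ℕ := (range N).filter (fun k => δ < ‖w k‖) with hT
  have hwT : ∀ k ∈ T, w k ≠ 0 := by
    intro k hk h0
    have := (Finset.mem_filter.1 hk).2
    rw [h0, norm_zero] at this
    linarith
  have hwpow : ∀ k, 0 ≤ ‖w k‖ ^ p := fun k => by positivity
  have hTsub : T ⊆ range N := Finset.filter_subset _ _
  have hTp : ∑ k ∈ T, ‖w k‖ ^ p ≤ Λ ^ p :=
    (Finset.sum_le_sum_of_subset_of_nonneg hTsub fun k _ _ => hwpow k).trans hw
  -- sums
  have hT1 : ∑ k ∈ T, ‖w k‖ ≤ R := by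
    have h1 : ∀ k ∈ T, ‖w k‖ ≤ δ ^ (1 - p) * ‖w k‖ ^ p := by
      intro k hk
      have hk2 := (Finset.mem_filter.1 hk).2
      have hk0 : 0 < ‖w k‖ := by linarith
      have e : ‖w k‖ = ‖w k‖ ^ (1 - p) * ‖w k‖ ^ p := by
        rw [← Real.rpow_add hk0]
        have : 1 - p + p = 1 := by ring
        rw [this, Real.rpow_one]
      calc ‖w k‖ = ‖w k‖ ^ (1 - p) * ‖w k‖ ^ p := e
        _ ≤ δ ^ (1 - p) * ‖w k‖ ^ p := by
            apply mul_le_mul_of_nonneg_right _ (hwpow k)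
            exact Real.rpow_le_rpow_of_nonpos hδ0 hk2.le (by linarith)
    calc ∑ k ∈ T, ‖w k‖ ≤ ∑ k ∈ T, δ ^ (1 - p) * ‖w k‖ ^ p := Finset.sum_le_sum h1
      _ = δ ^ (1 - p) * ∑ k ∈ T, ‖w k‖ ^ p := by rw [Finset.mul_sum]
      _ ≤ δ ^ (1 - p) * Λ ^ p := mul_le_mul_of_nonneg_left hTp (by positivity)
      _ = R := by
          rw [hδ, Real.mul_rpow hτ.le hΛ.le, hR, mul_assoc, ← Real.rpow_add hΛ]
          have : 1 - p + p = 1 := by ring
          rw [this, Real.rpow_one]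
  have hsq : ∀ (k : ℕ) (M : ℝ), 0 < M → ‖w k‖ ≤ M → ‖w k‖ ^ 2 ≤ M ^ (2 - p) * ‖w k‖ ^ p := by
    intro k M hM hk
    rcases (norm_nonneg (w k)).eq_or_lt with h0 | h0
    · rw [← h0]
      have : 0 ≤ M ^ (2 - p) * (0:ℝ) ^ p := by positivity
      simpa using this
    · have e : ‖w k‖ ^ 2 = ‖w k‖ ^ (2 - p) * ‖w k‖ ^ p := by
        rw [← Real.rpow_natCast, ← Real.rpow_add h0]
        congr 1
        push_cast
        ring
      rw [e]
      apply mul_le_mul_of_nonneg_right _ (hwpow k)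
      exact Real.rpow_le_rpow h0.le hk (by linarith)
  set c1 : ℕ → ℂ := fun k => if δ < ‖w k‖ then w k else 0 with hc1
  set c2 : ℕ → ℂ := fun k => if δ < ‖w k‖ then 0 else w k with hc2
  have hc12 : ∀ k, w k = c1 k + c2 k := by
    intro k
    simp only [hc1, hc2]
    split_ifs <;> simp
  have hS2 : ∑ k ∈ range N, ‖c2 k‖ ^ 2 ≤ τ ^ (2 - p) * Λ ^ 2 := by
    have h1 : ∀ k ∈ range N, ‖c2 k‖ ^ 2 ≤ δ ^ (2 - p) * ‖w k‖ ^ p := by
      intro k _
      simp only [hc2]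
      split_ifs with h
      · rw [norm_zero]
        have : 0 ≤ δ ^ (2 - p) * ‖w k‖ ^ p := by positivity
        simpa using this
      · exact hsq k δ hδ0 (not_lt.1 h)
    calc ∑ k ∈ range N, ‖c2 k‖ ^ 2 ≤ ∑ k ∈ range N, δ ^ (2 - p) * ‖w k‖ ^ p :=
          Finset.sum_le_sum h1
      _ = δ ^ (2 - p) * ∑ k ∈ range N, ‖w k‖ ^ p := by rw [Finset.mul_sum]
      _ ≤ δ ^ (2 - p) * Λ ^ p := mul_le_mul_of_nonneg_left hw (by positivity)
      _ = τ ^ (2 - p) * Λ ^ 2 := by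
          rw [hδ, Real.mul_rpow hτ.le hΛ.le, mul_assoc, ← Real.rpow_add hΛ, ← Real.rpow_natCast]
          congr 2
          push_cast
          ring
  -- the two parts
  set b1 : ℕ → ℂ := fun j => ∑ k ∈ range N, c1 k * u (-(2 * π * (k / N))) ^ j with hb1
  set b2 : ℕ → ℂ := fun j => ∑ k ∈ range N, c2 k * u (-(2 * π * (k / N))) ^ j with hb2
  have hab : ∀ j < N, a j = b1 j + b2 j := by
    intro j hj
    rw [← wk_inv hN a hj]
    simp only [hb1, hb2]
    rw [← Finset.sum_add_distrib]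
    refine Finset.sum_congr rfl fun k _ => ?_
    rw [← hwdef, hc12 k, add_mul]
  have hb1T : ∀ j, b1 j = ∑ k ∈ T, w k * u (-(2 * π * (k / N))) ^ j := by
    intro j
    simp only [hb1, hT, hc1]
    rw [Finset.sum_filter]
    refine Finset.sum_congr rfl fun k _ => ?_
    split_ifs
    · rfl
    · rw [zero_mul]
  have hb1R : ∀ j, ‖b1 j‖ ≤ R := by
    intro j
    rw [hb1T]
    refine (norm_sum_le _ _).trans (le_trans (le_of_eq ?_) hT1)
    refine Finset.sum_congr rfl fun k _ => ?_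
    rw [norm_mul, norm_pow, norm_u, one_pow, mul_one]
  have hMB1 : MB p N R b1 := by
    have h := MB_expsum hp N T w (fun k => -(2 * π * (k / N))) hwT hR0.le hT1
    have e : b1 = fun j => ∑ k ∈ T, w k * u (-(2 * π * (k / N))) ^ j := by
      funext j
      exact hb1T j
    rw [e]
    exact h
  have hMB1c : MB p N R (fun j => (starRingEnd ℂ) (b1 j)) := by
    have h := MB_expsum hp N T (fun k => (starRingEnd ℂ) (w k)) (fun k => 2 * π * (k / N))
      (fun k hk h0 => hwT k hk (by simpa using h0)) hR0.le (by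
        simp only [Complex.norm_conj]
        exact hT1)
    have e : (fun j => (starRingEnd ℂ) (b1 j)) =
        fun j => ∑ k ∈ T, (starRingEnd ℂ) (w k) * u (2 * π * (k / N)) ^ j := by
      funext j
      rw [hb1T, map_sum]
      refine Finset.sum_congr rfl fun k _ => ?_
      rw [map_mul, map_pow, conj_u, neg_neg]
    rw [e]
    exact h
  set x : ℕ → ℝ := fun j => ‖b1 j‖ ^ 2 / R ^ 2 with hx
  have hx0 : ∀ j, 0 ≤ x j := fun j => by simp only [hx]; positivity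
  have hx1 : ∀ j, x j ≤ 1 := by
    intro j
    simp only [hx]
    rw [div_le_one (by positivity)]
    exact pow_le_pow_left₀ (norm_nonneg _) (hb1R j) 2
  have hMBx : MB p N 1 (fun j => ((x j : ℝ) : ℂ)) := by
    have h1 := MB_mul (norm_nonneg _) (by positivity : 0 ≤ R * R)
      (MB_const (p := p) N ((1 / R ^ 2 : ℝ) : ℂ)) (MB_mul hR0.le hR0.le hMB1 hMB1c)
    have e1 : ‖((1 / R ^ 2 : ℝ) : ℂ)‖ * (R * R) = 1 := by
      rw [Complex.norm_real, Real.norm_eq_abs, abs_of_pos (by positivity)]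
      field_simp
    rw [e1] at h1
    have e2 : (fun j => ((x j : ℝ) : ℂ)) =
        fun j => ((1 / R ^ 2 : ℝ) : ℂ) * (b1 j * (starRingEnd ℂ) (b1 j)) := by
      funext j
      rw [Complex.mul_conj, Complex.normSq_eq_norm_sq, ← Complex.ofReal_mul]
      simp only [hx]
      congr 1
      ring
    rw [e2]
    exact h1
  set h : ℝ → ℝ := fun s => cg (R ^ 2 * s) with hh
  have hlip : ∀ s, 0 < s → ∀ z, |h s - h z| ≤ 1 / s * |s - z| := by
    intro s hs z
    simp only [hh]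
    have h1 := cg_wlip (R ^ 2 * s) (R ^ 2 * z)
    rw [← mul_sub, abs_mul, abs_of_pos (by positivity : 0 < R ^ 2), mul_assoc] at h1
    have h2 := le_of_mul_le_mul_left h1 (by positivity)
    rw [one_div, inv_mul_eq_div, le_div_iff₀ hs, mul_comm]
    exact h2
  have hMBB := MB_bernstein hp hMBx D (fun k => h (k / D)) (fun k => ⟨cg_pos _, cg_le_one _⟩)
  set B : ℕ → ℝ := fun j => ∑ k ∈ range (D + 1), h (k / D) * D.choose k *
    (x j ^ k * (1 - x j) ^ (D - k)) with hB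
  have hBc : ∀ j, ((B j : ℝ) : ℂ) = ∑ k ∈ range (D + 1),
      (((h (k / D) * D.choose k : ℝ)) : ℂ) * (((x j : ℝ) : ℂ) ^ k *
        (1 - ((x j : ℝ) : ℂ)) ^ (D - k)) := by
    intro j
    simp only [hB]
    push_cast
    rfl
  have hMBB' : MB p N (3 ^ D) (fun j => ((B j : ℝ) : ℂ)) := by
    have e : (fun j => ((B j : ℝ) : ℂ)) = fun j => ∑ k ∈ range (D + 1),
      (((h (k / D) * D.choose k : ℝ)) : ℂ) * (((x j : ℝ) : ℂ) ^ k *
        (1 - ((x j : ℝ) : ℂ)) ^ (D - k)) := by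
      funext j
      exact hBc j
    rw [e]
    exact hMBB
  have hMBy : MB p N (R * 3 ^ D) (fun j => b1 j * ((B j : ℝ) : ℂ)) :=
    MB_mul hR0.le (by positivity) hMB1 hMBB'
  set y : ℕ → ℂ := fun j => b1 j * ((B j : ℝ) : ℂ) with hy
  have hclipb1 : ∀ j, clip (b1 j) - y j = b1 j * ((h (x j) - B j : ℝ) : ℂ) := by
    intro j
    rw [clip_eq]
    have e : R ^ 2 * x j = ‖b1 j‖ ^ 2 := by
      simp only [hx]
      field_simp
    simp only [hy, hh]
    rw [e]
    push_cast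
    ring
  have hBerr : ∀ j, ‖clip (b1 j) - y j‖ ^ 2 ≤ R ^ 2 / D := by
    intro j
    rw [hclipb1, norm_mul, Complex.norm_real, Real.norm_eq_abs, mul_pow]
    rcases (hx0 j).eq_or_lt with h0 | h0
    · have e : ‖b1 j‖ ^ 2 = 0 := by
        have : ‖b1 j‖ ^ 2 = R ^ 2 * x j := by
          simp only [hx]
          field_simp
        rw [this, ← h0, mul_zero]
      rw [e, zero_mul]
      positivity
    · have h1 := bernstein_err (h := h) (K := 1 / x j) (by positivity) (hlip (x j) h0) hD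
        (hx0 j) (hx1 j)
      have h2 : |h (x j) - B j| ^ 2 ≤ (1 / x j * Real.sqrt (x j / D)) ^ 2 :=
        pow_le_pow_left₀ (abs_nonneg _) h1 2
      rw [mul_pow, Real.sq_sqrt (by positivity)] at h2
      have e : ‖b1 j‖ ^ 2 = R ^ 2 * x j := by
        simp only [hx]
        field_simp
      rw [e]
      calc R ^ 2 * x j * |h (x j) - B j| ^ 2 ≤ R ^ 2 * x j * ((1 / x j) ^ 2 * (x j / D)) :=
            mul_le_mul_of_nonneg_left h2 (by positivity)
        _ = R ^ 2 / D := by field_simp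
  set E : ℕ → ℂ := fun j => clip (a j) - y j with hE
  have hEj : ∀ j < N, ‖E j‖ ^ 2 ≤ 2 * ‖b2 j‖ ^ 2 + 2 * (R ^ 2 / D) := by
    intro j hj
    have h1 : ‖E j‖ ≤ ‖b2 j‖ + ‖clip (b1 j) - y j‖ := by
      have e1 : E j = (clip (a j) - clip (b1 j)) + (clip (b1 j) - y j) := by
        simp only [hE]
        ring
      rw [e1]
      refine (norm_add_le _ _).trans (add_le_add ?_ le_rfl)
      refine (clip_lip _ _).trans (le_of_eq ?_)
      rw [hab j hj]
      congr 1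
      ring
    have h2 : ‖E j‖ ^ 2 ≤ (‖b2 j‖ + ‖clip (b1 j) - y j‖) ^ 2 :=
      pow_le_pow_left₀ (norm_nonneg _) h1 2
    have h3 := hBerr j
    nlinarith [sq_nonneg (‖b2 j‖ - ‖clip (b1 j) - y j‖)]
  have hEsum : ∑ j ∈ range N, ‖E j‖ ^ 2 ≤
      2 * (N * Λ ^ 2 * (τ ^ (2 - p) + (τ ^ (1 - p)) ^ 2 / D)) := by
    have h1 : ∑ j ∈ range N, ‖E j‖ ^ 2 ≤ ∑ j ∈ range N,
        (2 * ‖b2 j‖ ^ 2 + 2 * (R ^ 2 / D)) :=
      Finset.sum_le_sum fun j hj => hEj j (Finset.mem_range.1 hj)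
    rw [Finset.sum_add_distrib, ← Finset.mul_sum, Finset.sum_const, Finset.card_range,
      nsmul_eq_mul] at h1
    have h2 : ∑ j ∈ range N, ‖b2 j‖ ^ 2 = N * ∑ k ∈ range N, ‖c2 k‖ ^ 2 := dparseval hN c2
    rw [h2] at h1
    have h4 : 2 * (N * ∑ k ∈ range N, ‖c2 k‖ ^ 2) ≤ 2 * (N * (τ ^ (2 - p) * Λ ^ 2)) := by
      apply mul_le_mul_of_nonneg_left _ (by norm_num)
      exact mul_le_mul_of_nonneg_left hS2 hN0.le
    calc _ ≤ _ := h1
      _ ≤ 2 * (N * (τ ^ (2 - p) * Λ ^ 2)) + N * (2 * (R ^ 2 / D)) := add_le_add h4 le_rfl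
      _ = _ := by
          rw [hR]
          ring
  have hsplit : Ip p N (fun j => clip (a j)) = Ip p N (fun j => y j + E j) := by
    congr 1
    funext j
    simp only [hE]
    ring
  rw [hsplit]
  refine (Ip_add_le hp N y E).trans ?_
  apply mul_le_mul_of_nonneg_left _ (by positivity)
  apply add_le_add
  · have h1 := hMBy (fun _ => 1)
    have e : (fun j => b1 j * ((B j : ℝ) : ℂ) * 1) = y := by
      funext j
      rw [mul_one]
    rw [e] at h1
    exact h1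
  · refine (Ip_le_sq hp0 hp2 N E).trans ?_
    apply mul_le_mul_of_nonneg_left _ (by positivity)
    apply Real.rpow_le_rpow (Finset.sum_nonneg fun _ _ => by positivity) hEsum (by positivity)

end Pool.Agent.CTR6
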