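import Pool.Agent.CTR6.U3

/-!
# The upper bound with a gain of a power of the logarithm
-/

open MeasureTheory Real Finset
open Pool.Agent.Lib_helper21.CoeffTrunc

namespace Pool.Agent.CTR6

theorem sumsq_le {p : ℝ} (hp : 0 < p) (hp2 : p < 2) {N : ℕ} (hN : 0 < N) (a : ℕ → ℂ) {Λ : ℝ}
    (hΛ : 0 < Λ) (hw : ∑ k ∈ range N, ‖wk N a k‖ ^ p ≤ Λ ^ p) :
    ∑ j ∈ range N, ‖a j‖ ^ 2 ≤ N * Λ ^ 2 := by
  have hN0 : (0:ℝ) < N := by exact_mod_cast hN
  have h1 : ∑ j ∈ range N, ‖a j‖ ^ 2 = N * ∑ k ∈ range N, ‖wk N a k‖ ^ 2 := by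
    rw [← dparseval hN]
    refine Finset.sum_congr rfl fun j hj => ?_
    rw [wk_inv hN a (Finset.mem_range.1 hj)]
  rw [h1]
  apply mul_le_mul_of_nonneg_left _ hN0.le
  have h2 : ∀ k ∈ range N, ‖wk N a k‖ ^ 2 ≤ Λ ^ (2 - p) * ‖wk N a k‖ ^ p := by
    intro k hk
    have hkΛ : ‖wk N a k‖ ≤ Λ := by
      have h2 : ‖wk N a k‖ ^ p ≤ Λ ^ p :=
        (Finset.single_le_sum (f := fun k => ‖wk N a k‖ ^ p) (fun i _ => by positivity) hk).trans hw
      exact (Real.rpow_le_rpow_iff (norm_nonneg _) hΛ.le hp).1 h2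
    rcases (norm_nonneg (wk N a k)).eq_or_lt with h0 | h0
    · rw [← h0, zero_pow two_ne_zero]
      positivity
    · have e : ‖wk N a k‖ ^ 2 = ‖wk N a k‖ ^ (2 - p) * ‖wk N a k‖ ^ p := by
        rw [← Real.rpow_natCast, ← Real.rpow_add h0]
        congr 1
        push_cast
        ring
      rw [e]
      apply mul_le_mul_of_nonneg_right _ (by positivity)
      exact Real.rpow_le_rpow h0.le hkΛ (by linarith)
  calc ∑ k ∈ range N, ‖wk N a k‖ ^ 2 ≤ ∑ k ∈ range N, Λ ^ (2 - p) * ‖wk N a k‖ ^ p :=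
        Finset.sum_le_sum h2
    _ = Λ ^ (2 - p) * ∑ k ∈ range N, ‖wk N a k‖ ^ p := by rw [Finset.mul_sum]
    _ ≤ Λ ^ (2 - p) * Λ ^ p := mul_le_mul_of_nonneg_left hw (by positivity)
    _ = Λ ^ 2 := by
        rw [← Real.rpow_add hΛ, ← Real.rpow_natCast]
        congr 1
        push_cast
        ring

theorem Ip_clip_one {p : ℝ} (hp : 0 < p) (hp2 : p < 2) {N : ℕ} (a : ℕ → ℂ) :
    Ip p N (fun j => clip (a j)) ≤ 2 * π * (N:ℝ) ^ (p / 2) := by
  refine (Ip_le_sq hp hp2 N _).trans ?_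
  apply mul_le_mul_of_nonneg_left _ (by positivity)
  apply Real.rpow_le_rpow (Finset.sum_nonneg fun _ _ => by positivity) _ (by positivity)
  calc ∑ j ∈ range N, ‖clip (a j)‖ ^ 2 ≤ ∑ j ∈ range N, (1:ℝ) := by
        apply Finset.sum_le_sum
        intro j _
        have h1 := norm_clip_le_one (a j)
        have h2 := norm_nonneg (clip (a j))
        nlinarith
    _ = N := by simp

theorem Ip_clip_two {p : ℝ} (hp : 0 < p) (hp2 : p < 2) {N : ℕ} (hN : 0 < N) (a : ℕ → ℂ) {Λ : ℝ}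
    (hΛ : 0 < Λ) (hw : ∑ k ∈ range N, ‖wk N a k‖ ^ p ≤ Λ ^ p) :
    Ip p N (fun j => clip (a j)) ≤ 2 * π * ((N:ℝ) ^ (p / 2) * Λ ^ p) := by
  refine (Ip_le_sq hp hp2 N _).trans ?_
  apply mul_le_mul_of_nonneg_left _ (by positivity)
  have h1 : ∑ j ∈ range N, ‖clip (a j)‖ ^ 2 ≤ N * Λ ^ 2 := by
    refine le_trans (Finset.sum_le_sum fun j _ => ?_) (sumsq_le hp hp2 hN a hΛ hw)
    exact pow_le_pow_left₀ (norm_nonneg _) (norm_clip_le _) 2
  have h2 := Real.rpow_le_rpow (Finset.sum_nonneg fun _ _ => by positivity) h1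
    (by positivity : 0 ≤ p / 2)
  refine h2.trans (le_of_eq ?_)
  rw [Real.mul_rpow (by positivity) (by positivity)]
  congr 1
  rw [← Real.rpow_natCast, ← Real.rpow_mul hΛ.le]
  congr 1
  push_cast
  ring

/-- The main estimate for `1 ≤ p < 2`. -/
theorem up_main {p : ℝ} (hp : 1 ≤ p) (hp2 : p < 2) {N : ℕ} (hN : 2 ≤ N) (a : ℕ → ℂ) {Λ : ℝ}
    (hΛ : 0 < Λ) (hw : ∑ k ∈ range N, ‖wk N a k‖ ^ p ≤ Λ ^ p) :
    Ip p N (fun j => clip (a j)) ≤ 700 / ((2 - p) / 8) *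
      (Λ ^ p * (N:ℝ) ^ (p / 2) / (Real.log N) ^ (1 - p / 2)) := by
  have hp0 : 0 < p := by linarith
  have hpi := Real.pi_pos
  have hpi4 : π < 3.15 := by linarith [Real.pi_lt_d2]
  have hN0 : (0:ℝ) < N := by
    have : 0 < N := by omega
    exact_mod_cast this
  have hN1 : (1:ℝ) < N := by
    have : 1 < N := by omega
    exact_mod_cast this
  set ρ : ℝ := (2 - p) / 8 with hρ
  have hρ0 : 0 < ρ := by rw [hρ]; linarith
  have hρ1 : ρ ≤ 1 / 8 := by rw [hρ]; linarith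
  set ℓ : ℝ := Real.log N with hℓ
  have hℓ0 : 0 < ℓ := Real.log_pos hN1
  set β : ℝ := 1 - p / 2 with hβ
  have hβ0 : 0 < β := by rw [hβ]; linarith
  have hβ1 : β ≤ 1 / 2 := by rw [hβ]; linarith
  set X : ℝ := Λ ^ p * (N:ℝ) ^ (p / 2) / ℓ ^ β with hX
  have hℓp : 0 < ℓ ^ β := Real.rpow_pos_of_pos hℓ0 _
  have hΛp : 0 < Λ ^ p := Real.rpow_pos_of_pos hΛ _
  have hNp : 0 < (N:ℝ) ^ (p / 2) := Real.rpow_pos_of_pos hN0 _
  have hX0 : 0 < X := by positivity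
  have hXe : X * ℓ ^ β = Λ ^ p * (N:ℝ) ^ (p / 2) := by
    rw [hX]; field_simp
  rcases lt_or_ge (ρ * ℓ) 10 with hsmall | hbig
  · -- small N
    have h1 := Ip_clip_two hp0 hp2 (by omega : 0 < N) a hΛ hw
    have h2 : ℓ ^ β ≤ 10 / ρ := by
      have h3 : ℓ ≤ 10 / ρ := by
        rw [le_div_iff₀ hρ0]
        linarith
      have h4 : 1 ≤ 10 / ρ := by
        rw [le_div_iff₀ hρ0]
        linarith
      calc ℓ ^ β ≤ (10 / ρ) ^ β := Real.rpow_le_rpow hℓ0.le h3 hβ0.le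
        _ ≤ (10 / ρ) ^ (1:ℝ) := Real.rpow_le_rpow_of_exponent_le h4 (by linarith)
        _ = 10 / ρ := Real.rpow_one _
    refine h1.trans ?_
    calc 2 * π * ((N:ℝ) ^ (p / 2) * Λ ^ p) = 2 * π * (X * ℓ ^ β) := by
          rw [hXe]
          ring
      _ = 2 * π * ℓ ^ β * X := by ring
      _ ≤ 2 * π * (10 / ρ) * X := by
          apply mul_le_mul_of_nonneg_right _ hX0.le
          exact mul_le_mul_of_nonneg_left h2 (by positivity)
      _ = (20 * π) / ρ * X := by ring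
      _ ≤ 700 / ρ * X := by
          apply mul_le_mul_of_nonneg_right _ hX0.le
          apply div_le_div_of_nonneg_right _ hρ0.le
          linarith
  have hℓ80 : 80 ≤ ℓ := by
    by_contra h
    rw [not_le] at h
    nlinarith
  have hℓ1 : 1 ≤ ℓ := by linarith
  -- the main case
  set τ : ℝ := ℓ ^ (-(1/p) : ℝ) with hτ
  have hτ0 : 0 < τ := Real.rpow_pos_of_pos hℓ0 _
  set D : ℕ := ⌊ρ * ℓ / 5⌋₊ with hDdef
  have hD1 : (D:ℝ) ≤ ρ * ℓ / 5 := Nat.floor_le (by positivity)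
  have hD2 : ρ * ℓ / 10 ≤ D := by
    have h := Nat.lt_floor_add_one (ρ * ℓ / 5)
    rw [← hDdef] at h
    linarith
  have hDpos : (0:ℝ) < D := by
    have : 0 < ρ * ℓ / 10 := by positivity
    linarith
  have hD : 1 ≤ D := by
    have : 0 < D := by exact_mod_cast hDpos
    omega
  have hcore := core_up hp hp2 (by omega : 0 < N) a hΛ hτ0 hD hw
  have hτX : ∀ s : ℝ, τ ^ s = ℓ ^ (-(s / p)) := by
    intro s
    rw [hτ, ← Real.rpow_mul hℓ0.le]
    congr 1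
    ring
  set R : ℝ := τ ^ (1 - p) * Λ with hR
  have hR0 : 0 < R := by
    have : 0 < τ ^ (1 - p) := Real.rpow_pos_of_pos hτ0 _
    positivity
  -- first term
  have hA1 : (R * 3 ^ D) ^ p * Ip p N (fun _ => 1) ≤ 160 / ρ * X := by
    have h1 := dir_bound hp hp2 (by omega : 1 ≤ N)
    have h2 : (R * 3 ^ D) ^ p ≤ Λ ^ p * ℓ ^ (p - 1) * (N:ℝ) ^ (ρ / 2) := by
      rw [Real.mul_rpow hR0.le (by positivity), hR, Real.mul_rpow (by positivity) hΛ.le]
      have h3 : (τ ^ (1 - p)) ^ p = ℓ ^ (p - 1) := by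
        rw [← Real.rpow_mul hτ0.le, hτX]
        congr 1
        field_simp
        ring
      have h4 : ((3:ℝ) ^ D) ^ p ≤ (N:ℝ) ^ (ρ / 2) := by
        have h5 : (1:ℝ) ≤ 3 ^ D := one_le_pow₀ (by norm_num)
        have h6 : (3:ℝ) ≤ Real.exp (5 / 4) := by
          have := Real.quadratic_le_exp_of_nonneg (x := 5 / 4) (by norm_num)
          linarith
        calc ((3:ℝ) ^ D) ^ p ≤ ((3:ℝ) ^ D) ^ (2:ℝ) :=
              Real.rpow_le_rpow_of_exponent_le h5 hp2.le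
          _ ≤ ((Real.exp (5 / 4)) ^ D) ^ (2:ℝ) := by
              apply Real.rpow_le_rpow (by positivity) _ (by norm_num)
              exact pow_le_pow_left₀ (by norm_num) h6 D
          _ = Real.exp (5 / 2 * D) := by
              rw [← Real.exp_nat_mul, ← Real.exp_mul]
              congr 1
              ring
          _ ≤ Real.exp (ℓ * (ρ / 2)) := by
              apply Real.exp_le_exp.2
              linarith
          _ = (N:ℝ) ^ (ρ / 2) := by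
              rw [Real.rpow_def_of_pos hN0]
      rw [h3]
      calc ℓ ^ (p - 1) * Λ ^ p * ((3:ℝ) ^ D) ^ p
          ≤ ℓ ^ (p - 1) * Λ ^ p * (N:ℝ) ^ (ρ / 2) :=
            mul_le_mul_of_nonneg_left h4 (by positivity)
        _ = _ := by ring
    have h7 : ℓ ^ (p - 1) * ℓ ^ β ≤ 2 / ρ * (N:ℝ) ^ (ρ / 2) := by
      have h8 : ℓ ^ (p - 1) * ℓ ^ β ≤ ℓ := by
        rw [← Real.rpow_add hℓ0]
        calc ℓ ^ (p - 1 + β) ≤ ℓ ^ (1:ℝ) :=
              Real.rpow_le_rpow_of_exponent_le hℓ1 (by rw [hβ]; linarith)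
          _ = ℓ := Real.rpow_one _
      have h9 : ℓ * (ρ / 2) ≤ (N:ℝ) ^ (ρ / 2) := by
        rw [Real.rpow_def_of_pos hN0]
        have := Real.add_one_le_exp (ℓ * (ρ / 2))
        linarith
      calc ℓ ^ (p - 1) * ℓ ^ β ≤ ℓ := h8
        _ = 2 / ρ * (ℓ * (ρ / 2)) := by field_simp
        _ ≤ 2 / ρ * (N:ℝ) ^ (ρ / 2) := mul_le_mul_of_nonneg_left h9 (by positivity)
    have hNsplit : (N:ℝ) ^ (ρ / 2) * (N:ℝ) ^ (p / 2 - ρ) * (N:ℝ) ^ (ρ / 2) =
        (N:ℝ) ^ (p / 2) := by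
      rw [← Real.rpow_add hN0, ← Real.rpow_add hN0]
      congr 1
      ring
    have hNr : 0 < (N:ℝ) ^ (ρ / 2) := Real.rpow_pos_of_pos hN0 _
    have hNq : 0 < (N:ℝ) ^ (p / 2 - ρ) := Real.rpow_pos_of_pos hN0 _
    have hℓh : 0 < ℓ ^ (p - 1) := Real.rpow_pos_of_pos hℓ0 _
    have hI0 := Ip_nonneg p N (fun _ => (1:ℂ))
    calc (R * 3 ^ D) ^ p * Ip p N (fun _ => 1)
        ≤ (Λ ^ p * ℓ ^ (p - 1) * (N:ℝ) ^ (ρ / 2)) * (80 * (N:ℝ) ^ (p / 2 - ρ)) :=
          mul_le_mul h2 h1 hI0 (by positivity)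
      _ = 80 * Λ ^ p * ((N:ℝ) ^ (ρ / 2) * (N:ℝ) ^ (p / 2 - ρ)) *
            (ℓ ^ (p - 1) * ℓ ^ β) / ℓ ^ β := by
          field_simp
      _ ≤ 80 * Λ ^ p * ((N:ℝ) ^ (ρ / 2) * (N:ℝ) ^ (p / 2 - ρ)) *
            (2 / ρ * (N:ℝ) ^ (ρ / 2)) / ℓ ^ β := by
          apply div_le_div_of_nonneg_right _ hℓp.le
          exact mul_le_mul_of_nonneg_left h7 (by positivity)
      _ = 160 / ρ * (Λ ^ p * ((N:ℝ) ^ (ρ / 2) * (N:ℝ) ^ (p / 2 - ρ) * (N:ℝ) ^ (ρ / 2)) /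
            ℓ ^ β) := by ring
      _ = 160 / ρ * X := by rw [hNsplit]
  -- second term
  have hA2 : 2 * π * (2 * (N * Λ ^ 2 * (τ ^ (2 - p) + (τ ^ (1 - p)) ^ 2 / D))) ^ (p / 2) ≤
      140 / ρ * X := by
    set σ : ℝ := -((2 - p) / p) with hσ
    have hℓ2 : 0 < ℓ ^ σ := Real.rpow_pos_of_pos hℓ0 _
    have h1 : τ ^ (2 - p) = ℓ ^ σ := by
      rw [hτX, hσ]
    have h2 : (τ ^ (1 - p)) ^ 2 / D ≤ 10 / ρ * ℓ ^ σ := by
      have e1 : (τ ^ (1 - p)) ^ 2 = ℓ ^ (2 * (p - 1) / p) := by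
        rw [← Real.rpow_natCast, ← Real.rpow_mul hτ0.le, hτX]
        congr 1
        push_cast
        ring
      rw [e1]
      calc ℓ ^ (2 * (p - 1) / p) / D ≤ ℓ ^ (2 * (p - 1) / p) / (ρ * ℓ / 10) :=
            div_le_div_of_nonneg_left (by positivity) (by positivity) hD2
        _ = 10 / ρ * (ℓ ^ (2 * (p - 1) / p) * ℓ ^ (-1 : ℝ)) := by
            rw [Real.rpow_neg_one]
            field_simp
        _ = 10 / ρ * ℓ ^ σ := by
            rw [← Real.rpow_add hℓ0]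
            congr 2
            rw [hσ]
            field_simp
            ring
    have h4 : τ ^ (2 - p) + (τ ^ (1 - p)) ^ 2 / D ≤ 11 / ρ * ℓ ^ σ := by
      have h5 : ℓ ^ σ ≤ 1 / ρ * ℓ ^ σ := by
        have : 1 ≤ 1 / ρ := by
          rw [le_div_iff₀ hρ0]
          linarith
        calc ℓ ^ σ = 1 * ℓ ^ σ := (one_mul _).symm
          _ ≤ _ := mul_le_mul_of_nonneg_right this hℓ2.le
      calc τ ^ (2 - p) + (τ ^ (1 - p)) ^ 2 / D ≤ 1 / ρ * ℓ ^ σ + 10 / ρ * ℓ ^ σ := by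
            rw [h1]
            exact add_le_add h5 h2
        _ = _ := by ring
    have hτ2 : 0 ≤ τ ^ (2 - p) + (τ ^ (1 - p)) ^ 2 / D := by positivity
    have h6 : 2 * (N * Λ ^ 2 * (τ ^ (2 - p) + (τ ^ (1 - p)) ^ 2 / D)) ≤
        22 / ρ * (N * Λ ^ 2 * ℓ ^ σ) := by
      calc 2 * (N * Λ ^ 2 * (τ ^ (2 - p) + (τ ^ (1 - p)) ^ 2 / D)) ≤
            2 * (N * Λ ^ 2 * (11 / ρ * ℓ ^ σ)) := by
            apply mul_le_mul_of_nonneg_left _ (by norm_num)
            exact mul_le_mul_of_nonneg_left h4 (by positivity)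
        _ = _ := by ring
    have h7 : (22 / ρ) ^ (p / 2) ≤ 22 / ρ := by
      have h8 : 1 ≤ 22 / ρ := by
        rw [le_div_iff₀ hρ0]
        linarith
      calc (22 / ρ) ^ (p / 2) ≤ (22 / ρ) ^ (1:ℝ) :=
            Real.rpow_le_rpow_of_exponent_le h8 (by linarith)
        _ = 22 / ρ := Real.rpow_one _
    have h9 : (N * Λ ^ 2 * ℓ ^ σ) ^ (p / 2) = X := by
      rw [Real.mul_rpow (by positivity) (by positivity), Real.mul_rpow (by positivity)
        (by positivity), ← Real.rpow_mul hℓ0.le, ← Real.rpow_natCast, ← Real.rpow_mul hΛ.le, hX]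
      have e1 : ((2:ℕ):ℝ) * (p / 2) = p := by push_cast; ring
      have e2 : σ * (p / 2) = -β := by
        rw [hσ, hβ]
        field_simp
      rw [e1, e2, Real.rpow_neg hℓ0.le]
      ring
    calc 2 * π * (2 * (N * Λ ^ 2 * (τ ^ (2 - p) + (τ ^ (1 - p)) ^ 2 / D))) ^ (p / 2)
        ≤ 2 * π * (22 / ρ * (N * Λ ^ 2 * ℓ ^ σ)) ^ (p / 2) := by
          apply mul_le_mul_of_nonneg_left _ (by positivity)
          exact Real.rpow_le_rpow (by positivity) h6 (by positivity)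
      _ = 2 * π * ((22 / ρ) ^ (p / 2) * X) := by
          rw [Real.mul_rpow (by positivity) (by positivity), h9]
      _ ≤ 2 * π * (22 / ρ * X) := by
          apply mul_le_mul_of_nonneg_left _ (by positivity)
          exact mul_le_mul_of_nonneg_right h7 hX0.le
      _ = (44 * π) / ρ * X := by ring
      _ ≤ 140 / ρ * X := by
          apply mul_le_mul_of_nonneg_right _ hX0.le
          apply div_le_div_of_nonneg_right _ hρ0.le
          linarith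
  have h2p : (2:ℝ) ^ (p - 1) ≤ 2 := by
    calc (2:ℝ) ^ (p - 1) ≤ (2:ℝ) ^ (1:ℝ) :=
          Real.rpow_le_rpow_of_exponent_le (by norm_num) (by linarith)
      _ = 2 := Real.rpow_one _
  calc Ip p N (fun j => clip (a j)) ≤ _ := hcore
    _ ≤ 2 * (160 / ρ * X + 140 / ρ * X) := by
        apply mul_le_mul h2p (add_le_add hA1 hA2) _ (by norm_num)
        have := Ip_nonneg p N (fun _ => (1:ℂ))
        positivity
    _ = 600 / ρ * X := by ring
    _ ≤ 700 / ρ * X := by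
        apply mul_le_mul_of_nonneg_right _ hX0.le
        apply div_le_div_of_nonneg_right _ hρ0.le
        norm_num

end Pool.Agent.CTR6
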