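import Pool.Agent.CTR6.U4

/-!
# The upper bound for all `0 < p < 2`
-/

open MeasureTheory Real Finset
open Pool.Agent.Lib_helper21.CoeffTrunc

namespace Pool.Agent.CTR6

/-- Comparison of the exponents `p ≤ 1` and `1`. -/
theorem Ip_le_one {p : ℝ} (hp : 0 < p) (hp1 : p ≤ 1) (N : ℕ) (x : ℕ → ℂ) {t : ℝ} (ht : 0 < t)
    (h : Ip 1 N x ≤ 2 * π * t) : Ip p N x ≤ 2 * π * t ^ p := by
  have hpi : (0:ℝ) < 2 * π := by positivity
  have hpt : ∀ θ, ‖F N x θ‖ ^ p ≤ t ^ p * (p * (‖F N x θ‖ ^ (1:ℝ) / t) + (1 - p)) := by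
    intro θ
    set y := ‖F N x θ‖ with hy
    have hy0 : 0 ≤ y := norm_nonneg _
    have h := Real.geom_mean_le_arith_mean2_weighted (w₁ := p) (w₂ := 1 - p)
      (p₁ := y / t) (p₂ := 1) hp.le (by linarith) (by positivity) (by norm_num)
      (by ring)
    rw [Real.one_rpow, mul_one, mul_one] at h
    rw [Real.rpow_one]
    calc y ^ p = t ^ p * (y / t) ^ p := by
          rw [← Real.mul_rpow ht.le (by positivity)]
          congr 1
          field_simp
      _ ≤ _ := mul_le_mul_of_nonneg_left h (by positivity)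
  have hc1 : Continuous fun θ => ‖F N x θ‖ ^ (1:ℝ) := F_pow_cont one_pos N x
  have h1 : Ip p N x ≤ ∫ θ in (0:ℝ)..(2 * π),
      t ^ p * (p * (‖F N x θ‖ ^ (1:ℝ) / t) + (1 - p)) := by
    unfold Ip
    apply intervalIntegral.integral_mono_on hpi.le
    · exact (F_pow_cont hp N x).intervalIntegrable _ _
    · exact (continuous_const.mul ((continuous_const.mul (hc1.div_const t)).add
        continuous_const)).intervalIntegrable _ _
    · intro θ _
      exact hpt θ
  have h2 : (∫ θ in (0:ℝ)..(2 * π), t ^ p * (p * (‖F N x θ‖ ^ (1:ℝ) / t) + (1 - p))) =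
      t ^ p * (p * (Ip 1 N x / t) + (1 - p) * (2 * π)) := by
    rw [intervalIntegral.integral_const_mul, intervalIntegral.integral_add]
    · rw [intervalIntegral.integral_const_mul, intervalIntegral.integral_div,
        intervalIntegral.integral_const]
      simp only [sub_zero, smul_eq_mul]
      unfold Ip
      ring
    · exact (continuous_const.mul (hc1.div_const t)).intervalIntegrable _ _
    · exact intervalIntegrable_const
  rw [h2] at h1
  refine h1.trans ?_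
  have h3 : Ip 1 N x / t ≤ 2 * π := by
    rw [div_le_iff₀ ht]
    exact h
  calc t ^ p * (p * (Ip 1 N x / t) + (1 - p) * (2 * π)) ≤
        t ^ p * (p * (2 * π) + (1 - p) * (2 * π)) := by
        apply mul_le_mul_of_nonneg_left _ (by positivity)
        have := mul_le_mul_of_nonneg_left h3 hp.le
        linarith
    _ = 2 * π * t ^ p := by ring

/-- The main estimate for all `0 < p < 2`. -/
theorem up_all {p : ℝ} (hp : 0 < p) (hp2 : p < 2) : ∃ C : ℝ, 0 < C ∧
    ∀ (N : ℕ), 2 ≤ N → ∀ (a : ℕ → ℂ) (Λ : ℝ), 0 < Λ →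
      ∑ k ∈ range N, ‖wk N a k‖ ^ p ≤ Λ ^ p →
      Ip p N (fun j => clip (a j)) ≤ C * (Λ ^ p * (N:ℝ) ^ (p / 2) /
        (Real.log N) ^ ((1 / max p 1 - 1 / 2) * p)) := by
  rcases le_total 1 p with h1 | h1
  · refine ⟨700 / ((2 - p) / 8), by
      have : 0 < 2 - p := by linarith
      positivity, fun N hN a Λ hΛ hw => ?_⟩
    rw [max_eq_left h1]
    have e : (1 / p - 1 / 2) * p = 1 - p / 2 := by field_simp
    rw [e]
    exact up_main h1 hp2 hN a hΛ hw
  · refine ⟨2 * π * 5600 ^ p, by positivity, fun N hN a Λ hΛ hw => ?_⟩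
    rw [max_eq_right h1]
    have hN0 : (0:ℝ) < N := by
      have : 0 < N := by omega
      exact_mod_cast this
    have hN1 : (1:ℝ) < N := by
      have : 1 < N := by omega
      exact_mod_cast this
    have hℓ0 : 0 < Real.log N := Real.log_pos hN1
    have hpi := Real.pi_pos
    have hw1 : ∑ k ∈ range N, ‖wk N a k‖ ^ (1:ℝ) ≤ Λ ^ (1:ℝ) := by
      have h2 : ∀ k ∈ range N, ‖wk N a k‖ ^ (1:ℝ) ≤ Λ ^ (1 - p) * ‖wk N a k‖ ^ p := by
        intro k hk
        have hkΛ : ‖wk N a k‖ ≤ Λ := by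
          have h2 : ‖wk N a k‖ ^ p ≤ Λ ^ p :=
            (Finset.single_le_sum (f := fun k => ‖wk N a k‖ ^ p)
              (fun i _ => by positivity) hk).trans hw
          exact (Real.rpow_le_rpow_iff (norm_nonneg _) hΛ.le hp).1 h2
        rcases (norm_nonneg (wk N a k)).eq_or_lt with h0 | h0
        · rw [← h0, Real.zero_rpow one_ne_zero]
          positivity
        · have e : ‖wk N a k‖ ^ (1:ℝ) = ‖wk N a k‖ ^ (1 - p) * ‖wk N a k‖ ^ p := by
            rw [← Real.rpow_add h0]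
            congr 1
            ring
          rw [e]
          apply mul_le_mul_of_nonneg_right _ (by positivity)
          exact Real.rpow_le_rpow h0.le hkΛ (by linarith)
      calc ∑ k ∈ range N, ‖wk N a k‖ ^ (1:ℝ) ≤ ∑ k ∈ range N, Λ ^ (1 - p) * ‖wk N a k‖ ^ p :=
            Finset.sum_le_sum h2
        _ = Λ ^ (1 - p) * ∑ k ∈ range N, ‖wk N a k‖ ^ p := by rw [Finset.mul_sum]
        _ ≤ Λ ^ (1 - p) * Λ ^ p := mul_le_mul_of_nonneg_left hw (by positivity)
        _ = Λ ^ (1:ℝ) := by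
            rw [← Real.rpow_add hΛ]
            congr 1
            ring
    have hm := up_main (p := 1) le_rfl (by norm_num) hN a hΛ hw1
    have e1 : (700:ℝ) / ((2 - 1) / 8) = 5600 := by norm_num
    have e2 : (1:ℝ) - 1 / 2 = 1 / 2 := by norm_num
    rw [e1, e2, Real.rpow_one] at hm
    have e3 : ((1:ℝ) / 1 - 1 / 2) * p = 1 / 2 * p := by ring
    rw [e3]
    set L8 : ℝ := (Real.log N) ^ (1 / 2 : ℝ) with hL8
    have hL80 : 0 < L8 := Real.rpow_pos_of_pos hℓ0 _
    set t : ℝ := 5600 * (Λ * (N:ℝ) ^ (1 / 2 : ℝ) / L8) with ht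
    have hNh : 0 < (N:ℝ) ^ (1 / 2 : ℝ) := Real.rpow_pos_of_pos hN0 _
    have ht0 : 0 < t := by positivity
    have hm2 : Ip 1 N (fun j => clip (a j)) ≤ 2 * π * t := by
      refine hm.trans ?_
      have : 1 ≤ 2 * π := by linarith [Real.pi_gt_three]
      nlinarith
    refine (Ip_le_one hp h1 N _ ht0 hm2).trans (le_of_eq ?_)
    rw [ht, Real.mul_rpow (by norm_num) (by positivity), Real.div_rpow (by positivity) hL80.le,
      Real.mul_rpow hΛ.le hNh.le, hL8, ← Real.rpow_mul hℓ0.le, ← Real.rpow_mul hN0.le]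
    have e4 : 1 / 2 * p = p / 2 := by ring
    rw [e4]
    ring

theorem clip_zero : clip 0 = 0 := by
  unfold clip
  simp

theorem Jc_eq_Ip {p : ℝ} {n : ℕ} {Q : Polynomial ℂ} (h : Q.natDegree ≤ n) :
    Jc p Q = Ip p (n + 1) Q.coeff := by
  unfold Jc Ip
  simp_rw [eval_u (n + 1) Q (by omega)]
  rfl

theorem Jc_trunc_eq {p : ℝ} (n : ℕ) (Q : Polynomial ℂ) :
    Jc p (trunc n Q) = Ip p (n + 1) (fun j => clip (Q.coeff j)) := by
  rw [Jc_eq_Ip (trunc_natDegree n Q)]
  unfold Ip F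
  have : ∀ θ : ℝ, ∑ j ∈ range (n + 1), (trunc n Q).coeff j * u θ ^ j =
      ∑ j ∈ range (n + 1), clip (Q.coeff j) * u θ ^ j := by
    intro θ
    refine Finset.sum_congr rfl fun j hj => ?_
    rw [Finset.mem_range] at hj
    rw [trunc_coeff, if_pos (by omega)]
  simp_rw [this]

theorem Jc_pos {p : ℝ} (hp : 0 < p) (hp2 : p < 2) {n : ℕ} {Q : Polynomial ℂ}
    (h : Q.natDegree ≤ n) (h0 : Q ≠ 0) : 0 < Jc p Q := by
  rcases (Jc_nonneg (p := p) Q).eq_or_lt with h1 | h1
  · exfalso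
    have h2 := M2_le_Jc hp hp2 h
    rw [← h1, mul_zero] at h2
    rcases (M2_nonneg Q).eq_or_lt with h3 | h3
    · exact h0 (eval_zero_of_M2 h3.symm)
    · have := Real.rpow_pos_of_pos h3 (p / 2)
      linarith
  · exact h1

/-- **The upper bound with a gain of a power of the logarithm.** -/
theorem growth_up {p : ℝ} (hp : 0 < p) (hp2 : p < 2) : ∃ C : ℝ, 0 < C ∧ ∀ n : ℕ, 2 ≤ n →
    NComp n p ≤ ENNReal.ofReal (C * (n:ℝ) ^ (1 / p - 1 / 2) /
      (Real.log n) ^ (1 / max p 1 - 1 / 2)) := by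
  obtain ⟨C0, hC0, hmain⟩ := up_all hp hp2
  set B : ℝ := 1 / max p 1 - 1 / 2 with hB
  have hB0 : 0 < B := by
    have h1 : max p 1 < 2 := max_lt hp2 (by norm_num)
    have h2 : 0 < max p 1 := lt_of_lt_of_le one_pos (le_max_right _ _)
    have h3 : 1 / 2 < 1 / max p 1 := one_div_lt_one_div_of_lt h2 h1
    rw [hB]
    linarith
  have he0 : 0 ≤ 1 / p - 1 / 2 := by
    have : 1 / 2 ≤ 1 / p := one_div_le_one_div_of_le hp hp2.le
    linarith
  have hpi : (0:ℝ) < 2 * π := by positivity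
  have hp' : (0:ℝ) ≤ 1 / p := one_div_nonneg.2 hp.le
  refine ⟨(C0 / (2 * π)) ^ (1 / p) * 2 ^ (1 / p - 1 / 2), by positivity, fun n hn => ?_⟩
  have hnR : (2:ℝ) ≤ n := by exact_mod_cast hn
  have hn0 : (0:ℝ) < n := by linarith
  have hℓn : 0 < Real.log n := Real.log_pos (by linarith)
  set N : ℕ := n + 1 with hN
  have hNc : (N:ℝ) = n + 1 := by rw [hN]; push_cast; ring
  have hN0 : (0:ℝ) < N := by rw [hNc]; linarith
  have hN2 : 2 ≤ N := by omega
  have hℓN : Real.log n ≤ Real.log N := Real.log_le_log hn0 (by rw [hNc]; linarith)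
  have hℓN0 : 0 < Real.log N := by linarith
  have hlB : 0 < (Real.log N) ^ B := Real.rpow_pos_of_pos hℓN0 _
  have hlBn : 0 < (Real.log n) ^ B := Real.rpow_pos_of_pos hℓn _
  -- the bound with `N`
  have key : ∀ Q : Polynomial ℂ, Q.natDegree ≤ n → Q ≠ 0 →
      circleNorm p (trunc n Q) ≤ ((C0 / (2 * π)) ^ (1 / p) * (N:ℝ) ^ (1 / p - 1 / 2) /
        (Real.log N) ^ B) * circleNorm p Q := by
    intro Q hQ hQ0
    have hJ := Jc_pos hp hp2 hQ hQ0
    obtain ⟨φ, hφ⟩ := sample hp N Q.coeff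
    set I : ℝ := Ip p N Q.coeff with hI
    have hJI : Jc p Q = I := Jc_eq_Ip hQ
    have hI0 : 0 < I := by rw [← hJI]; exact hJ
    set a : ℕ → ℂ := fun j => u φ ^ j * Q.coeff j with ha
    set Λ : ℝ := ((N:ℝ) ^ (1 - p) / (2 * π) * I) ^ (1 / p) with hΛ
    have hNp : 0 < (N:ℝ) ^ (1 - p) := Real.rpow_pos_of_pos hN0 _
    have hΛ0 : 0 < Λ := Real.rpow_pos_of_pos (by positivity) _
    have hΛp : Λ ^ p = (N:ℝ) ^ (1 - p) / (2 * π) * I := by
      rw [hΛ, ← Real.rpow_mul (by positivity), one_div_mul_cancel hp.ne', Real.rpow_one]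
    have hw : ∑ k ∈ range N, ‖wk N a k‖ ^ p ≤ Λ ^ p := by
      have e1 : ∀ k ∈ range N, ‖wk N a k‖ ^ p =
          ‖F N Q.coeff (2 * π * (k / N) + φ)‖ ^ p / (N:ℝ) ^ p := by
        intro k _
        unfold wk
        rw [ha, F_rot, norm_div, Complex.norm_natCast, Real.div_rpow (norm_nonneg _) hN0.le]
      rw [Finset.sum_congr rfl e1, ← Finset.sum_div, hΛp]
      have hNpp : 0 < (N:ℝ) ^ p := Real.rpow_pos_of_pos hN0 _
      rw [div_le_iff₀ hNpp]
      refine hφ.trans (le_of_eq ?_)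
      have e2 : (N:ℝ) ^ (1 - p) * (N:ℝ) ^ p = N := by
        rw [← Real.rpow_add hN0]
        have : 1 - p + p = 1 := by ring
        rw [this, Real.rpow_one]
      calc (N:ℝ) / (2 * π) * I = ((N:ℝ) ^ (1 - p) * (N:ℝ) ^ p) / (2 * π) * I := by rw [e2]
        _ = _ := by ring
    have h1 := hmain N hN2 a Λ hΛ0 hw
    have e3 : Ip p N (fun j => clip (a j)) = Jc p (trunc n Q) := by
      rw [Jc_trunc_eq, ← hN, ← Ip_rot N (fun j => clip (Q.coeff j)) φ]
      congr 1
      funext j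
      simp only [ha]
      rw [clip_rot]
      rw [norm_pow, norm_u, one_pow]
    rw [e3, hΛp] at h1
    have h2 := Real.rpow_le_rpow (Jc_nonneg _) h1 hp'
    have e4 : circleNorm p (trunc n Q) = (Jc p (trunc n Q)) ^ (1 / p) := rfl
    have e5 : circleNorm p Q = I ^ (1 / p) := by
      rw [← hJI]; rfl
    rw [e4, e5]
    refine h2.trans (le_of_eq ?_)
    have hlBp : 0 < (Real.log N) ^ (B * p) := Real.rpow_pos_of_pos hℓN0 _
    have hN2p : 0 < (N:ℝ) ^ (p / 2) := Real.rpow_pos_of_pos hN0 _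
    have e6 : C0 * ((N:ℝ) ^ (1 - p) / (2 * π) * I * (N:ℝ) ^ (p / 2) / (Real.log N) ^ (B * p)) =
        (C0 / (2 * π)) * ((N:ℝ) ^ (1 - p / 2)) / (Real.log N) ^ (B * p) * I := by
      have e7 : (N:ℝ) ^ (1 - p) * (N:ℝ) ^ (p / 2) = (N:ℝ) ^ (1 - p / 2) := by
        rw [← Real.rpow_add hN0]
        congr 1
        ring
      rw [← e7]
      field_simp
    rw [e6, Real.mul_rpow (by positivity) hI0.le, Real.div_rpow (by positivity) hlBp.le,
      Real.mul_rpow (by positivity) (by positivity), ← Real.rpow_mul hN0.le,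
      ← Real.rpow_mul hℓN0.le]
    have e8 : (1 - p / 2) * (1 / p) = 1 / p - 1 / 2 := by field_simp
    have e9 : B * p * (1 / p) = B := by field_simp
    rw [e8, e9]
  unfold NComp
  refine iSup_le fun P => iSup₂_le fun hP hP0 => ?_
  apply ENNReal.ofReal_le_ofReal
  have hk := key P hP hP0
  apply div_le_of_le_mul₀
  · exact Real.rpow_nonneg (Jc_nonneg _) _
  · positivity
  · refine hk.trans ?_
    apply mul_le_mul_of_nonneg_right _ (Real.rpow_nonneg (Jc_nonneg _) _)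
    have hNn : (N:ℝ) ^ (1 / p - 1 / 2) ≤ 2 ^ (1 / p - 1 / 2) * (n:ℝ) ^ (1 / p - 1 / 2) := by
      rw [← Real.mul_rpow (by norm_num) hn0.le]
      apply Real.rpow_le_rpow hN0.le _ he0
      rw [hNc]
      linarith
    apply div_le_div₀ (by positivity) _ hlBn
    · exact Real.rpow_le_rpow hℓn.le hℓN hB0.le
    · calc (C0 / (2 * π)) ^ (1 / p) * (N:ℝ) ^ (1 / p - 1 / 2) ≤
          (C0 / (2 * π)) ^ (1 / p) * (2 ^ (1 / p - 1 / 2) * (n:ℝ) ^ (1 / p - 1 / 2)) :=
            mul_le_mul_of_nonneg_left hNn (by positivity)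
        _ = _ := by ring

end Pool.Agent.CTR6
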